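import Mathlib

/-!
# Bounded formulas over the language of arithmetic with one extra unary predicate

Terms and bounded formulas are given by de Bruijn syntax; an assignment is a map from the natural
numbers (variable indices) to the structure.
-/

namespace Run7.h835

/-- Terms over `0, 1, +, *`; `Tm.var k` is the `k`-th variable. -/
inductive Tm : Type
  | var : ℕ → Tm
  | zero : Tm
  | one : Tm
  | add : Tm → Tm → Tm
  | mul : Tm → Tm → Tm

/-- Bounded formulas over `0, 1, +, *, <` and one unary predicate symbol.  `Fml.bex t φ` is the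
bounded quantifier `∃ x < t, φ`: in `φ` the variable `0` is the bound variable `x` and the variable
`k + 1` is the variable `k` of `t`, so that `x` does not occur in `t`. -/
inductive Fml : Type
  | eq : Tm → Tm → Fml
  | lt : Tm → Tm → Fml
  | rel : Tm → Fml
  | neg : Fml → Fml
  | and : Fml → Fml → Fml
  | bex : Tm → Fml → Fml

/-- Put `x` in front of the assignment `v`. -/
def cons {M : Type*} (x : M) (v : ℕ → M) : ℕ → M
  | 0 => x
  | k + 1 => v k

/-- The value of a term under an assignment. -/
def Tm.val {M : Type*} [Zero M] [One M] [Add M] [Mul M] (v : ℕ → M) : Tm → M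
  | Tm.var k => v k
  | Tm.zero => 0
  | Tm.one => 1
  | Tm.add s t => s.val v + t.val v
  | Tm.mul s t => s.val v * t.val v

/-- Satisfaction of a bounded formula under an assignment, where `P` interprets the predicate. -/
def Fml.Sat {M : Type*} [Zero M] [One M] [Add M] [Mul M] [LT M] (P : M → Prop) :
    Fml → (ℕ → M) → Prop
  | Fml.eq s t, v => s.val v = t.val v
  | Fml.lt s t, v => s.val v < t.val v
  | Fml.rel t, v => P (t.val v)
  | Fml.neg φ, v => ¬ φ.Sat P v
  | Fml.and φ ψ, v => φ.Sat P v ∧ ψ.Sat P v
  | Fml.bex t φ, v => ∃ x : M, x < t.val v ∧ φ.Sat P (cons x v)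

/-- The induction scheme for all bounded formulas, parameters allowed. -/
def BddInduction (M : Type*) [Zero M] [One M] [Add M] [Mul M] [LT M] (P : M → Prop) : Prop :=
  ∀ (φ : Fml) (v : ℕ → M), φ.Sat P (cons 0 v) →
    (∀ x : M, φ.Sat P (cons x v) → φ.Sat P (cons (x + 1) v)) → ∀ x : M, φ.Sat P (cons x v)

/-- The collection scheme for all bounded formulas `φ(y, u, parameters)`. -/
def Collection (M : Type*) [Zero M] [One M] [Add M] [Mul M] [LT M] (P : M → Prop) : Prop :=
  ∀ (φ : Fml) (v : ℕ → M) (a : M), (∀ u : M, u < a → ∃ y : M, φ.Sat P (cons y (cons u v))) →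
    ∃ b : M, ∀ u : M, u < a → ∃ y : M, y < b ∧ φ.Sat P (cons y (cons u v))

/-- Discreteness of the order. -/
def Discrete (M : Type*) [Zero M] [One M] [LT M] [LE M] : Prop := ∀ x : M, 0 < x → 1 ≤ x

/-- `j` presents the expanded structure `(K, Q)` as an end extension of `(M, P)`: it is an
order-preserving homomorphism of semirings, it respects the predicates, and its range is an initial
segment of `K`. -/
structure IsEndExt {M K : Type*} [CommSemiring M] [LinearOrder M] [CommSemiring K]
    [LinearOrder K] (P : M → Prop) (Q : K → Prop) (j : M →+* K) : Prop where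
  strictMono : StrictMono j
  pred : ∀ x : M, Q (j x) ↔ P x
  initial : ∀ (x : M) (y : K), y < j x → ∃ z : M, j z = y

end Run7.h835
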