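import Pool.Agent.Run7.h835.Itf

/-!
# Conditions and the basic extension steps
-/

set_option linter.unusedSectionVars false
set_option linter.unusedSimpArgs false

namespace Run7.h835

open Filter

deriving instance Countable for Tm
deriving instance Countable for Fml

/-- The nonprincipal ultrafilter. -/
noncomputable abbrev UU : Ultrafilter ℕ := hyperfilter ℕ

lemma ev_ge (n : ℕ) : ∀ᶠ i in (UU : Filter ℕ), n ≤ i :=
  Nat.hyperfilter_le_atTop (eventually_ge_atTop n)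

/-- The combinatorial data, one piece for every index. -/
structure Dat where
  F : ℕ → Finset Fml
  T : ℕ → ℕ
  q : ℕ → ℕ
  W : ℕ → ℕ × ℕ → Bool
  L : ℕ → ℕ → Finset (ℕ × ℕ)
  hF : ∀ φ, ∃ i0, ∀ i ≥ i0, φ ∈ F i
  itf : ∀ i, Itf (F i) i (T i) (q i) (W i) (L i)
  hq2 : ∀ i, 2 ≤ q i
  hq : ∀ i, i * ((i + 1) * T i) + i < q i

theorem exists_dat : Nonempty Dat := by
  classical
  haveI : Nonempty Fml := ⟨Fml.eq Tm.zero Tm.zero⟩
  obtain ⟨g, hg⟩ := exists_surjective_nat Fml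
  set F : ℕ → Finset Fml := fun i => (Finset.range i).image g with hF
  have h1 := fun i => interface (F i) i
  choose T hT using h1
  have h2 := fun i => hT i (i * ((i + 1) * T i) + i + 1)
  choose q hq hq2 W L hI using h2
  refine ⟨⟨F, T, q, W, L, ?_, hI, hq2, fun i => ?_⟩⟩
  · intro φ
    obtain ⟨n, rfl⟩ := hg φ
    refine ⟨n + 1, fun i hi => ?_⟩
    exact Finset.mem_image_of_mem _ (Finset.mem_range.2 (by omega))
  · have := hq i
    omega

variable (D : Dat)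

/-- The base at index `i`. -/
def Dat.b (i : ℕ) : ℕ := bb (D.q i)

lemma Dat.le_b (i : ℕ) : i ≤ D.b i := by
  have h1 := D.hq i
  have h2 : D.q i ≤ D.b i := by
    unfold Dat.b bb
    calc D.q i = D.q i ^ 1 := (pow_one _).symm
      _ ≤ D.q i ^ 4 := Nat.pow_le_pow_right (by have := D.hq2 i; omega) (by norm_num)
  omega

lemma Dat.two_le_b (i : ℕ) : 2 ≤ D.b i := two_le_bb (D.hq2 i)

/-- The predicate at index `i` after the flips `X`. -/
def Dat.wp (X : ℕ → Finset (ℕ × ℕ)) (i : ℕ) : ℕ → Prop := wld (D.b i) (flp (D.W i) (X i))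

/-- Conditions. -/
structure Cond where
  nm : List (ℕ → ℕ)
  X : ℕ → Finset (ℕ × ℕ)
  S : ℕ → Finset (ℕ × ℕ)
  lv : ℕ
  hnm : ∀ f ∈ nm, ∃ A, ∀ᶠ i in (UU : Filter ℕ), f i ≤ D.b i ^ A
  hX0 : ∀ᶠ i in (UU : Filter ℕ), X i ⊆ D.L i 0
  hXc : ∃ C, ∀ᶠ i in (UU : Filter ℕ), (X i).card ≤ C
  hXr : ∀ k, ∀ᶠ i in (UU : Filter ℕ), ∀ x ∈ X i, k ≤ x.1
  hS : ∃ C, ∀ᶠ i in (UU : Filter ℕ), (S i).card ≤ C * ((i + 1) * D.T i)

variable {D}

/-- Extension of conditions. -/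
structure Ext (p p' : Cond D) : Prop where
  nm : p.nm <+: p'.nm
  lv : p.lv ≤ p'.lv
  ev : ∀ᶠ i in (UU : Filter ℕ), p.S i ⊆ p'.S i ∧ p.X i ⊆ p'.X i ∧
    (p'.X i \ p.X i) ⊆ D.L i p.lv ∧ Disjoint (p'.X i \ p.X i) (p.S i)

lemma L_anti (i : ℕ) {h k : ℕ} (hk : h ≤ k) : D.L i k ⊆ D.L i h := by
  induction k, hk using Nat.le_induction with
  | base => exact subset_rfl
  | succ k _ ih => exact ((D.itf i).nest k).trans ih

lemma Ext.rfl' (p : Cond D) : Ext p p :=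
  ⟨List.prefix_rfl, le_rfl, Filter.Eventually.of_forall (fun i => by simp)⟩

lemma Ext.trans {p p' p'' : Cond D} (h : Ext p p') (h' : Ext p' p'') : Ext p p'' := by
  refine ⟨h.nm.trans h'.nm, h.lv.trans h'.lv, ?_⟩
  filter_upwards [h.ev, h'.ev] with i hi hi'
  obtain ⟨a1, a2, a3, a4⟩ := hi
  obtain ⟨b1, b2, b3, b4⟩ := hi'
  have key : ∀ x ∈ p''.X i \ p.X i, x ∈ p''.X i \ p'.X i ∨ x ∈ p'.X i \ p.X i := by
    intro x hx
    rw [Finset.mem_sdiff] at hx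
    by_cases h1 : x ∈ p'.X i
    · right; exact Finset.mem_sdiff.2 ⟨h1, hx.2⟩
    · left; exact Finset.mem_sdiff.2 ⟨hx.1, h1⟩
  refine ⟨a1.trans b1, a2.trans b2, ?_, ?_⟩
  · intro x hx
    rcases key x hx with h1 | h1
    · exact L_anti i h.lv (b3 h1)
    · exact a3 h1
  · rw [Finset.disjoint_left]
    intro x hx hxS
    rcases key x hx with h1 | h1
    · exact Finset.disjoint_left.1 b4 h1 (a1 hxS)
    · exact Finset.disjoint_left.1 a4 h1 hxS

/-- The truth value is frozen. -/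
def Frz (p : Cond D) (φ : Fml) (V : ℕ → ℕ → ℕ) : Prop :=
  ∀ p' : Cond D, Ext p p' → ∀ᶠ i in (UU : Filter ℕ),
    (φ.Sat (D.wp p'.X i) (V i) ↔ φ.Sat (D.wp p.X i) (V i))

lemma Frz.mono {p p' : Cond D} {φ : Fml} {V : ℕ → ℕ → ℕ} (h : Frz p φ V) (he : Ext p p') :
    Frz p' φ V := by
  intro p'' he'
  filter_upwards [h p' he, h p'' (he.trans he')] with i h1 h2
  rw [h1, h2]

/-- Bounded assignments. -/
def Bd (D : Dat) (n : ℕ) (V : ℕ → ℕ → ℕ) : Prop :=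
  ∃ A, ∀ᶠ i in (UU : Filter ℕ), ∀ k < n, V i k ≤ D.b i ^ A

theorem freezeMany (p : Cond D) (φ : Fml) (V : ℕ → ℕ → ℕ → ℕ) (κ : ℕ → ℕ)
    (hκ : ∀ i, κ i ≤ i + 1) (hV : ∀ k, Bd D φ.nv (V k)) :
    ∃ p' : Cond D, Ext p p' ∧ p'.nm = p.nm ∧ p'.X = p.X ∧
      ∀ k, (∀ᶠ i in (UU : Filter ℕ), k < κ i) → Frz p' φ (V k) := by
  classical
  choose A hA using hV
  set Prp : ℕ → ℕ → Finset (ℕ × ℕ) → Prop := fun i k S => S.card ≤ D.T i ∧
    ∀ X ⊆ D.L i φ.rk, Disjoint X S → Disjoint X (p.X i) → (∀ x ∈ X, φ.gr * (A k + 1) ≤ x.1) →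
      (φ.Sat (wld (D.b i) (flp (D.W i) (p.X i ∪ X))) (V k i) ↔
        φ.Sat (wld (D.b i) (flp (D.W i) (p.X i))) (V k i)) with hPrp
  set Sc : ℕ → ℕ → Finset (ℕ × ℕ) := fun i k => if h : ∃ S, Prp i k S then h.choose else ∅
    with hSc
  have hScc : ∀ i k, (Sc i k).card ≤ D.T i := by
    intro i k
    simp only [hSc]
    by_cases h : ∃ S, Prp i k S
    · rw [dif_pos h]; exact h.choose_spec.1
    · rw [dif_neg h]; simp
  obtain ⟨C, hC⟩ := p.hS
  obtain ⟨CX, hCX⟩ := p.hXc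
  obtain ⟨i0, hi0⟩ := D.hF φ
  refine ⟨⟨p.nm, p.X, fun i => p.S i ∪ (Finset.range (κ i)).biUnion (Sc i), max p.lv φ.rk,
    p.hnm, p.hX0, p.hXc, p.hXr, ⟨C + 1, ?_⟩⟩, ⟨List.prefix_rfl, le_max_left _ _, ?_⟩, rfl, rfl, ?_⟩
  · filter_upwards [hC] with i hi
    refine (Finset.card_union_le _ _).trans ?_
    have h1 : ((Finset.range (κ i)).biUnion (Sc i)).card ≤ (i + 1) * D.T i := by
      refine Finset.card_biUnion_le.trans ?_
      calc ∑ k ∈ Finset.range (κ i), (Sc i k).card ≤ ∑ k ∈ Finset.range (κ i), D.T i :=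
            Finset.sum_le_sum (fun k _ => hScc i k)
        _ = κ i * D.T i := by simp
        _ ≤ (i + 1) * D.T i := Nat.mul_le_mul_right _ (hκ i)
    nlinarith
  · refine Filter.Eventually.of_forall (fun i => ⟨Finset.subset_union_left, subset_rfl, ?_, ?_⟩)
    · simp
    · simp
  · intro k hk p'' he
    filter_upwards [hk, he.ev, ev_ge i0, ev_ge φ.rk, ev_ge (A k + 2), hA k, p.hX0, hCX,
      ev_ge CX, p''.hXr (φ.gr * (A k + 1))] with i h1 h2 h3 h4 h5 h6 h7 h8 h9 h10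
    obtain ⟨a1, a2, a3, a4⟩ := h2
    have hex : ∃ S, Prp i k S := by
      obtain ⟨S, hS1, hS2⟩ := (D.itf i).cert φ (hi0 i h3) h4 (A k + 1) (by omega) (by omega)
        (φ.gr * (A k + 1)) le_rfl (V k i)
        (fun n hn => (h6 n hn).trans (Nat.pow_le_pow_right (by have := D.two_le_b i; omega)
          (by omega))) (p.X i) h7 (h8.trans h9)
      exact ⟨S, hS1, hS2⟩
    have hSp : Prp i k (Sc i k) := by
      simp only [hSc]
      rw [dif_pos hex]; exact hex.choose_spec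
    have h11 := hSp.2 (p''.X i \ p.X i) (a3.trans (L_anti i (le_max_right _ _))) ?_ ?_ ?_
    · rw [Finset.union_sdiff_of_subset a2] at h11
      exact h11
    · refine Finset.disjoint_of_subset_right ?_ a4
      intro x hx
      exact Finset.mem_union_right _ (Finset.mem_biUnion.2 ⟨k, Finset.mem_range.2 h1, hx⟩)
    · exact Finset.sdiff_disjoint
    · intro x hx
      exact h10 x (Finset.mem_sdiff.1 hx).1

theorem freeze (p : Cond D) (φ : Fml) (V : ℕ → ℕ → ℕ) (hV : Bd D φ.nv V) :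
    ∃ p' : Cond D, Ext p p' ∧ p'.nm = p.nm ∧ p'.X = p.X ∧ Frz p' φ V := by
  obtain ⟨p', h1, h2, h3, h4⟩ := freezeMany p φ (fun _ => V) (fun i => i + 1)
    (fun i => le_rfl) (fun _ => hV)
  exact ⟨p', h1, h2, h3, h4 0 (Filter.Eventually.of_forall (fun i => Nat.succ_pos i))⟩

/-- Adding names. -/
def addNames (p : Cond D) (l : List (ℕ → ℕ))
    (hl : ∀ f ∈ l, ∃ A, ∀ᶠ i in (UU : Filter ℕ), f i ≤ D.b i ^ A) : Cond D :=
  ⟨p.nm ++ l, p.X, p.S, p.lv, fun f hf => by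
    rcases List.mem_append.1 hf with h | h
    · exact p.hnm f h
    · exact hl f h, p.hX0, p.hXc, p.hXr, p.hS⟩

lemma ext_addNames (p : Cond D) (l : List (ℕ → ℕ))
    (hl : ∀ f ∈ l, ∃ A, ∀ᶠ i in (UU : Filter ℕ), f i ≤ D.b i ^ A) : Ext p (addNames p l hl) :=
  ⟨List.prefix_append _ _, le_rfl, Filter.Eventually.of_forall (fun i => by simp [addNames])⟩

end Run7.h835
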