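import Pool.Agent.Run7.h835.Gen

/-!
# The basic steps of the construction
-/

set_option linter.unusedSectionVars false
set_option linter.unusedSimpArgs false

namespace Run7.h835

open Filter

/-- Alternating evaluation in a general structure. -/
def VL {M : Type*} [Zero M] [Add M] [Mul M] [LT M] (P : M → Prop) (b : M) : ℕ → M → M → Prop
  | 0, e, y => P (quad 0 e 0 y)
  | m + 1, e, y => ∃ x : M, x < b ∧ ¬ VL P b m e (y * b + x)

/-- The formula expressing `VL`: `y` is variable `0`, `e` is variable `ie`, `b` is variable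
`ib`. -/
def vF : ℕ → ℕ → ℕ → Fml
  | 0, ie, _ => Fml.rel (Tm.quad Tm.zero (Tm.var ie) Tm.zero (Tm.var 0))
  | m + 1, ie, ib => Fml.bex (Tm.var ib)
      (Fml.bex (Tm.add (Tm.add (Tm.mul (Tm.var 1) (Tm.var (ib + 1))) (Tm.var 0)) Tm.one)
        (Fml.and (Fml.eq (Tm.var 0) (Tm.add (Tm.mul (Tm.var 2) (Tm.var (ib + 2))) (Tm.var 1)))
          (Fml.neg (vF m (ie + 2) (ib + 2)))))

lemma sat_vF {M : Type*} [CommSemiring M] [LinearOrder M] [IsStrictOrderedRing M] (P : M → Prop)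
    (m ie ib : ℕ) (v : ℕ → M) : (vF m ie ib).Sat P v ↔ VL P (v ib) m (v ie) (v 0) := by
  induction m generalizing ie ib v with
  | zero => simp only [vF, Fml.Sat, VL, Tm.val_quad, Tm.val]
  | succ m ih =>
    simp only [vF, Fml.Sat, VL, Tm.val]
    refine exists_congr (fun x => and_congr_right (fun hx => ?_))
    constructor
    · rintro ⟨y', _, h1, h2⟩
      rw [ih] at h2
      simp only [cons] at h1 h2
      rw [h1] at h2
      exact h2
    · intro h
      refine ⟨v 0 * v ib + x, ?_, ?_, ?_⟩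
      · simp only [cons]
        exact lt_add_one _
      · simp only [cons]
      · rw [ih]
        simp only [cons]
        exact h

lemma VL_nat {b : ℕ} (hb : 0 < b) (W : ℕ × ℕ → Bool) (m e y : ℕ) :
    VL (wld b W) b m e y ↔ vl b W m e y := by
  induction m generalizing y with
  | zero =>
    simp only [VL, vl, wld_quad, Rl]
    have : ¬ (0 = b ^ (e + 1)) := by
      have := Nat.pow_pos (n := e + 1) hb
      omega
    simp [this]
  | succ m ih =>
    simp only [VL, vl, ih]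

variable {D : Dat}

/-- The result of the least-witness step. -/
def Done1 (p : Cond D) (t : Tm) (φ : Fml) (V : ℕ → ℕ → ℕ) : Prop :=
  Frz p (Fml.bex t φ) V ∧ ∃ x ∈ p.nm, ∃ x' ∈ p.nm, Frz p φ (fun i => cons (x i) (V i)) ∧
    Frz p φ (fun i => cons (x' i) (V i)) ∧
    ∀ᶠ i in (UU : Filter ℕ), (Fml.bex t φ).Sat (D.wp p.X i) (V i) →
      x i < t.val (V i) ∧ φ.Sat (D.wp p.X i) (cons (x i) (V i)) ∧
        (x i ≠ 0 → x' i + 1 = x i ∧ ¬ φ.Sat (D.wp p.X i) (cons (x' i) (V i)))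

lemma Bd.val {V : ℕ → ℕ → ℕ} {t : Tm} (h : Bd D t.nv V) :
    ∃ A, ∀ᶠ i in (UU : Filter ℕ), t.val (V i) ≤ D.b i ^ A := by
  obtain ⟨A, hA⟩ := h
  refine ⟨t.sz * (A + 1), ?_⟩
  filter_upwards [hA] with i hi
  exact t.val_le (D.two_le_b i) (by omega) (fun k hk => (hi k hk).trans
    (Nat.pow_le_pow_right (by have := D.two_le_b i; omega) (by omega)))

lemma Bd.mono {n m : ℕ} {V : ℕ → ℕ → ℕ} (h : Bd D n V) (hm : m ≤ n) : Bd D m V := by
  obtain ⟨A, hA⟩ := h
  refine ⟨A, ?_⟩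
  filter_upwards [hA] with i hi k hk
  exact hi k (by omega)

lemma Bd.cons {n : ℕ} {V : ℕ → ℕ → ℕ} {x : ℕ → ℕ} (h : Bd D (n - 1) V)
    (hx : ∃ A, ∀ᶠ i in (UU : Filter ℕ), x i ≤ D.b i ^ A) :
    Bd D n (fun i => cons (x i) (V i)) := by
  obtain ⟨A, hA⟩ := h
  obtain ⟨B, hB⟩ := hx
  refine ⟨max A B, ?_⟩
  filter_upwards [hA, hB] with i h1 h2 k hk
  have hb := D.two_le_b i
  cases k with
  | zero =>
    simp only [Run7.h835.cons]
    exact h2.trans (Nat.pow_le_pow_right (by omega) (le_max_right _ _))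
  | succ k =>
    simp only [Run7.h835.cons]
    exact (h1 k (by omega)).trans (Nat.pow_le_pow_right (by omega) (le_max_left _ _))

theorem op1 (p : Cond D) (t : Tm) (φ : Fml) (V : ℕ → ℕ → ℕ) (hV : Bd D (Fml.bex t φ).nv V) :
    ∃ p' : Cond D, Ext p p' ∧ Done1 p' t φ V := by
  classical
  set P : ℕ → ℕ → Prop := fun i x => x < t.val (V i) ∧ φ.Sat (D.wp p.X i) (cons x (V i)) with hP
  set x : ℕ → ℕ := fun i => if h : ∃ x, P i x then Nat.find h else 0 with hx
  set x' : ℕ → ℕ := fun i => x i - 1 with hx'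
  have hVt : Bd D t.nv V := hV.mono (le_max_left _ _)
  have hVφ : Bd D (φ.nv - 1) V := hV.mono (le_max_right _ _)
  have hxt : ∀ i, x i ≤ t.val (V i) := by
    intro i
    simp only [hx]
    by_cases h : ∃ x, P i x
    · rw [dif_pos h]; exact (Nat.find_spec h).1.le
    · rw [dif_neg h]; omega
  have hxb : ∃ A, ∀ᶠ i in (UU : Filter ℕ), x i ≤ D.b i ^ A := by
    obtain ⟨A, hA⟩ := hVt.val
    refine ⟨A, ?_⟩
    filter_upwards [hA] with i hi
    exact (hxt i).trans hi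
  have hxb' : ∃ A, ∀ᶠ i in (UU : Filter ℕ), x' i ≤ D.b i ^ A := by
    obtain ⟨A, hA⟩ := hxb
    refine ⟨A, ?_⟩
    filter_upwards [hA] with i hi
    exact (Nat.sub_le _ _).trans hi
  have hl : ∀ f ∈ [x, x'], ∃ A, ∀ᶠ i in (UU : Filter ℕ), f i ≤ D.b i ^ A := by
    intro f hf
    simp only [List.mem_cons, List.not_mem_nil, or_false] at hf
    rcases hf with rfl | rfl
    · exact hxb
    · exact hxb'
  obtain ⟨p1, e1, n1, X1, f1⟩ := freeze (addNames p [x, x'] hl) (Fml.bex t φ) V hV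
  obtain ⟨p2, e2, n2, X2, f2⟩ := freeze p1 φ (fun i => cons (x i) (V i)) (hVφ.cons hxb)
  obtain ⟨p3, e3, n3, X3, f3⟩ := freeze p2 φ (fun i => cons (x' i) (V i)) (hVφ.cons hxb')
  refine ⟨p3, (((ext_addNames p [x, x'] hl).trans e1).trans e2).trans e3, ?_⟩
  have hX3 : p3.X = p.X := by rw [X3, X2, X1]; rfl
  have hn3 : p3.nm = p.nm ++ [x, x'] := by rw [n3, n2, n1]; rfl
  refine ⟨f1.mono (e2.trans e3), x, by simp [hn3], x', by simp [hn3], f2.mono e3, f3, ?_⟩
  refine Filter.Eventually.of_forall (fun i hs => ?_)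
  rw [hX3] at hs ⊢
  have hex : ∃ x, P i x := hs
  have hxi : x i = Nat.find hex := by simp only [hx]; rw [dif_pos hex]
  have hsp : P i (x i) := by rw [hxi]; exact Nat.find_spec hex
  refine ⟨hsp.1, hsp.2, fun h0 => ⟨by simp only [hx']; omega, fun hc => ?_⟩⟩
  have hlt : x' i < Nat.find hex := by rw [← hxi]; simp only [hx']; omega
  exact Nat.find_min hex hlt ⟨by have := hxt i; have := hsp.1; simp only [hx']; omega, hc⟩

/-- The result of the collection step. -/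
def Done2 (p : Cond D) (t : Tm) (φ : Fml) (V : ℕ → ℕ → ℕ) : Prop :=
  (∃ k, ∀ p' : Cond D, Ext p p' → ∀ᶠ i in (UU : Filter ℕ), ∀ x < t.val (V i),
    ∃ y < D.b i ^ k, φ.Sat (D.wp p'.X i) (cons y (cons x (V i)))) ∨
  (∃ x ∈ p.nm, (∀ᶠ i in (UU : Filter ℕ), x i < t.val (V i)) ∧ ∀ k, ∀ p' : Cond D, Ext p p' →
    ∀ᶠ i in (UU : Filter ℕ), ∀ y < D.b i ^ k, ¬ φ.Sat (D.wp p'.X i) (cons y (cons (x i) (V i))))

lemma sat_upd (P : ℕ → Prop) (φ : Fml) (J : ℕ) (hJ : φ.nv ≤ J) (x y β : ℕ) (v : ℕ → ℕ) :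
    φ.Sat P (cons y (cons x (Function.update v J β))) ↔ φ.Sat P (cons y (cons x v)) := by
  refine φ.sat_congr P (fun k hk => ?_)
  cases k with
  | zero => rfl
  | succ k =>
    cases k with
    | zero => rfl
    | succ k =>
      simp only [cons]
      rw [Function.update_of_ne (by omega)]

lemma val_upd (t : Tm) (J : ℕ) (hJ : t.nv ≤ J) (β : ℕ) (v : ℕ → ℕ) :
    t.val (Function.update v J β) = t.val v :=
  t.val_congr (fun k hk => by rw [Function.update_of_ne (by omega)])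

/-- The matrix `∃ y < β, φ(y, x, ...)`. -/
def chi (J : ℕ) (φ : Fml) : Fml := Fml.bex (Tm.var (J + 1)) φ

lemma sat_chi (P : ℕ → Prop) (φ : Fml) (J : ℕ) (hJ : φ.nv ≤ J) (x β : ℕ) (v : ℕ → ℕ) :
    (chi J φ).Sat P (cons x (Function.update v J β)) ↔
      ∃ y < β, φ.Sat P (cons y (cons x v)) := by
  unfold chi
  simp only [Fml.Sat, Tm.val, cons, Function.update_self]
  exact exists_congr (fun y => and_congr_right (fun _ => sat_upd P φ J hJ x y β v))

lemma sat_zeta (P : ℕ → Prop) (t : Tm) (φ : Fml) (J : ℕ) (hJ : φ.nv ≤ J) (hJt : t.nv ≤ J)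
    (β : ℕ) (v : ℕ → ℕ) :
    (Fml.neg (Fml.bex t (Fml.neg (chi J φ)))).Sat P (Function.update v J β) ↔
      ∀ x < t.val v, ∃ y < β, φ.Sat P (cons y (cons x v)) := by
  have h1 : (Fml.neg (Fml.bex t (Fml.neg (chi J φ)))).Sat P (Function.update v J β) ↔
      ¬ ∃ x, x < t.val (Function.update v J β) ∧
        ¬ (chi J φ).Sat P (cons x (Function.update v J β)) := Iff.rfl
  rw [h1, val_upd t J hJt]
  push Not
  refine forall₂_congr (fun x _ => ?_)
  rw [sat_chi P φ J hJ]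

lemma bd_pow (k : ℕ) : ∃ A, ∀ᶠ i in (UU : Filter ℕ), D.b i ^ k ≤ D.b i ^ A :=
  ⟨k, Filter.Eventually.of_forall (fun _ => le_rfl)⟩

lemma Bd.upd {n J : ℕ} {V : ℕ → ℕ → ℕ} {β : ℕ → ℕ} (h : Bd D n V)
    (hβ : ∃ A, ∀ᶠ i in (UU : Filter ℕ), β i ≤ D.b i ^ A) (m : ℕ) (hm : m ≤ n ∨ (m ≤ J + 1 ∧ J ≤ n)) :
    Bd D m (fun i => Function.update (V i) J (β i)) := by
  obtain ⟨A, hA⟩ := h
  obtain ⟨B, hB⟩ := hβ
  refine ⟨max A B, ?_⟩
  filter_upwards [hA, hB] with i h1 h2 k hk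
  have hb := D.two_le_b i
  by_cases hkJ : k = J
  · subst hkJ
    rw [Function.update_self]
    exact h2.trans (Nat.pow_le_pow_right (by omega) (le_max_right _ _))
  · rw [Function.update_of_ne hkJ]
    refine (h1 k (by omega)).trans (Nat.pow_le_pow_right (by omega) (le_max_left _ _))

end Run7.h835
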