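import Pool.Agent.Run7.h835.Gen2

/-!
# The collection step, the flipping step, and the generic sequence
-/

set_option linter.unusedSectionVars false
set_option linter.unusedSimpArgs false

namespace Run7.h835

open Filter

variable {D : Dat}

theorem op2 (p : Cond D) (t : Tm) (φ : Fml) (V : ℕ → ℕ → ℕ) (hV : ∀ n, Bd D n V) :
    ∃ p' : Cond D, Ext p p' ∧ Done2 p' t φ V := by
  classical
  set C : ℕ → ℕ → Prop := fun i k =>
    ∀ x < t.val (V i), ∃ y < D.b i ^ k, φ.Sat (D.wp p.X i) (cons y (cons x (V i))) with hC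
  have hCmono : ∀ i k k', k ≤ k' → C i k → C i k' := by
    intro i k k' hkk h x hx
    obtain ⟨y, hy, hs⟩ := h x hx
    exact ⟨y, lt_of_lt_of_le hy (Nat.pow_le_pow_right (by have := D.two_le_b i; omega) hkk), hs⟩
  have hex : ∀ i, ∃ k, C i k ∨ k = i := fun i => ⟨i, Or.inr rfl⟩
  set kk : ℕ → ℕ := fun i => Nat.find (hex i) with hkk
  have hkki : ∀ i, kk i ≤ i := fun i => Nat.find_min' (hex i) (Or.inr rfl)
  have hmin : ∀ i k, k < kk i → ¬ C i k := fun i k hk h => Nat.find_min (hex i) hk (Or.inl h)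
  set J := max t.nv φ.nv with hJ
  have hJt : t.nv ≤ J := le_max_left _ _
  have hJφ : φ.nv ≤ J := le_max_right _ _
  by_cases hb : ∀ k, ∀ᶠ i in (UU : Filter ℕ), k < kk i
  · -- unbounded case
    have hxe : ∀ i, ∃ x, 1 ≤ kk i → x < t.val (V i) ∧
        ∀ y < D.b i ^ (kk i - 1), ¬ φ.Sat (D.wp p.X i) (cons y (cons x (V i))) := by
      intro i
      by_cases h1 : 1 ≤ kk i
      · have := hmin i (kk i - 1) (by omega)
        simp only [hC] at this
        push Not at this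
        obtain ⟨x, hx, hy⟩ := this
        exact ⟨x, fun _ => ⟨hx, hy⟩⟩
      · exact ⟨0, fun h => absurd h h1⟩
    choose x0 hx0 using hxe
    set x : ℕ → ℕ := fun i => if 1 ≤ kk i then x0 i else 0 with hx
    have hxt : ∀ᶠ i in (UU : Filter ℕ), x i < t.val (V i) := by
      filter_upwards [hb 0] with i hi
      simp only [hx]
      rw [if_pos (by omega)]
      exact (hx0 i (by omega)).1
    have hxb : ∃ A, ∀ᶠ i in (UU : Filter ℕ), x i ≤ D.b i ^ A := by
      obtain ⟨A, hA⟩ := (hV t.nv).val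
      refine ⟨A, ?_⟩
      filter_upwards [hA, hxt] with i h1 h2
      omega
    have hl : ∀ f ∈ [x], ∃ A, ∀ᶠ i in (UU : Filter ℕ), f i ≤ D.b i ^ A := by
      intro f hf
      simp only [List.mem_cons, List.not_mem_nil, or_false] at hf
      rw [hf]; exact hxb
    have hVk : ∀ k, Bd D (chi J φ).nv
        (fun i => cons (x i) (Function.update (V i) J (D.b i ^ k))) := by
      intro k
      exact Bd.cons ((hV (max ((chi J φ).nv - 1) J)).upd (bd_pow k) _ (by omega)) hxb
    obtain ⟨p', e1, n1, X1, f1⟩ := freezeMany (addNames p [x] hl) (chi J φ)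
      (fun k i => cons (x i) (Function.update (V i) J (D.b i ^ k))) (fun i => kk i - 1)
      (fun i => by have := hkki i; omega) hVk
    refine ⟨p', (ext_addNames p [x] hl).trans e1, Or.inr ⟨x, ?_, hxt, ?_⟩⟩
    · rw [n1]; simp [addNames]
    · intro k p'' he
      have hfk := f1 k (by
        filter_upwards [hb (k + 1)] with i hi
        omega)
      filter_upwards [hfk p'' he, hb (k + 1)] with i h1 h2
      have h3 : ¬ (chi J φ).Sat (D.wp p'.X i)
          (cons (x i) (Function.update (V i) J (D.b i ^ k))) := by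
        rw [sat_chi _ φ J hJφ]
        rintro ⟨y, hy, hs⟩
        rw [X1] at hs
        have hxi : x i = x0 i := by simp only [hx]; rw [if_pos (by omega)]
        rw [hxi] at hs
        refine (hx0 i (by omega)).2 y (lt_of_lt_of_le hy ?_) hs
        exact Nat.pow_le_pow_right (by have := D.two_le_b i; omega) (by omega)
      rw [← h1, sat_chi _ φ J hJφ] at h3
      push Not at h3
      exact h3
  · -- bounded case
    push Not at hb
    obtain ⟨k, hk⟩ := hb
    obtain ⟨p', e1, n1, X1, f1⟩ := freeze p (Fml.neg (Fml.bex t (Fml.neg (chi J φ))))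
      (fun i => Function.update (V i) J (D.b i ^ k))
      ((hV (max (Fml.neg (Fml.bex t (Fml.neg (chi J φ)))).nv J)).upd (bd_pow k) _ (by omega))
    refine ⟨p', e1, Or.inl ⟨k, ?_⟩⟩
    intro p'' he
    filter_upwards [f1 p'' he, hk, ev_ge (k + 1)] with i h1 h2 h3
    rw [sat_zeta _ t φ J hJφ hJt, sat_zeta _ t φ J hJφ hJt] at h1
    rw [h1, X1]
    have h4 : C i (kk i) := by
      rcases Nat.find_spec (hex i) with h | h
      · exact h
      · exfalso
        have : kk i = i := h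
        omega
    exact hCmono i (kk i) k (by omega) h4

/-- The result of the flipping step. -/
def Done3 (p : Cond D) (e : ℕ → ℕ) : Prop :=
  (∀ k, ∀ᶠ i in (UU : Filter ℕ), k ≤ e i) → (∀ᶠ i in (UU : Filter ℕ), e i < i) →
    ∃ j, ∀ p' : Cond D, Ext p p' → ∀ᶠ i in (UU : Filter ℕ),
      vl (D.b i) (flp (D.W i) (p'.X i)) (j + 1) (e i) (j + 2)

lemma le_one_pow (D : Dat) {x i : ℕ} (h : x ≤ i) : x ≤ D.b i ^ 1 := by
  rw [pow_one]; exact h.trans (D.le_b i)

theorem op3 (p : Cond D) (e : ℕ → ℕ) : ∃ p' : Cond D, Ext p p' ∧ Done3 p' e := by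
  classical
  by_cases h1 : ∀ k, ∀ᶠ i in (UU : Filter ℕ), k ≤ e i
  swap
  · exact ⟨p, Ext.rfl' p, fun h => absurd h h1⟩
  by_cases h2 : ∀ᶠ i in (UU : Filter ℕ), e i < i
  swap
  · exact ⟨p, Ext.rfl' p, fun _ h => absurd h h2⟩
  set j := p.lv with hj
  obtain ⟨CX, hCX⟩ := p.hXc
  obtain ⟨CS, hCS⟩ := p.hS
  -- the flipped leaf
  set Q : ℕ → ℕ × ℕ → Prop := fun i c => c ∈ D.L i j ∧ c.1 = e i ∧ c ∉ p.S i ∧ c ∉ p.X i ∧
    vl (D.b i) (flp (D.W i) (insert c (p.X i))) (j + 1) (e i) (j + 2) with hQ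
  have hQe : ∀ᶠ i in (UU : Filter ℕ), ∃ c, Q i c := by
    filter_upwards [h2, hCX, hCS, ev_ge (j + 1), ev_ge CX, ev_ge CS] with i a1 a2 a3 a4 a5 a6
    have hlt : (p.S i).card + (p.X i).card < D.q i := by
      have h3 := D.hq i
      have h4 : CS * ((i + 1) * D.T i) ≤ i * ((i + 1) * D.T i) := Nat.mul_le_mul_right _ a6
      omega
    obtain ⟨c, b1, b2, b3, b4, b5⟩ := (D.itf i).tru j a4 (e i) a1 (p.S i) (p.X i) hlt
    exact ⟨c, b1, b2, b3, b4, b5⟩
  set c : ℕ → ℕ × ℕ := fun i => if h : ∃ c, Q i c then h.choose else (0, 0) with hc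
  have hcQ : ∀ᶠ i in (UU : Filter ℕ), Q i (c i) := by
    filter_upwards [hQe] with i hi
    simp only [hc]
    rw [dif_pos hi]
    exact hi.choose_spec
  set X' : ℕ → Finset (ℕ × ℕ) := fun i => insert (c i) (p.X i) with hX'
  set p1 : Cond D := ⟨p.nm, X', p.S, p.lv, p.hnm, by
      filter_upwards [hcQ, p.hX0] with i b1 b2
      intro x hx
      rcases Finset.mem_insert.1 hx with rfl | hx
      · exact L_anti i (Nat.zero_le _) b1.1
      · exact b2 hx, ⟨CX + 1, by
      filter_upwards [hCX] with i b1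
      exact (Finset.card_insert_le _ _).trans (by omega)⟩, by
      intro k
      filter_upwards [hcQ, p.hXr k, h1 k] with i b1 b2 b3
      intro x hx
      rcases Finset.mem_insert.1 hx with rfl | hx
      · rw [b1.2.1]; exact b3
      · exact b2 x hx, p.hS⟩ with hp1
  have e1 : Ext p p1 := by
    refine ⟨List.prefix_rfl, le_rfl, ?_⟩
    filter_upwards [hcQ] with i b1
    have hsd : p1.X i \ p.X i ⊆ {c i} := by
      intro x hx
      rw [Finset.mem_sdiff] at hx
      rcases Finset.mem_insert.1 hx.1 with h | h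
      · exact Finset.mem_singleton.2 h
      · exact absurd h hx.2
    refine ⟨subset_rfl, Finset.subset_insert _ _, ?_, ?_⟩
    · exact hsd.trans (Finset.singleton_subset_iff.2 b1.1)
    · exact Finset.disjoint_of_subset_left hsd (Finset.disjoint_singleton_left.2 b1.2.2.1)
  have hV : Bd D (vF (j + 1) 1 2).nv
      (fun i => cons (j + 2) (cons (e i) (cons (D.b i) (fun _ => 0)))) := by
    have h0 : ∀ n, Bd D n (fun _ _ => 0) := fun n =>
      ⟨0, Filter.Eventually.of_forall (fun i k _ => Nat.zero_le _)⟩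
    refine Bd.cons (Bd.cons (Bd.cons (h0 _) ⟨1, Filter.Eventually.of_forall (fun i => ?_)⟩)
      ⟨1, ?_⟩) ⟨1, ?_⟩
    · rw [pow_one]
    · filter_upwards [h2] with i hi
      exact le_one_pow D hi.le
    · filter_upwards [ev_ge (j + 2)] with i hi
      exact le_one_pow D hi
  obtain ⟨p2, e2, n2, X2, f2⟩ := freeze p1 (vF (j + 1) 1 2)
    (fun i => cons (j + 2) (cons (e i) (cons (D.b i) (fun _ => 0)))) hV
  refine ⟨p2, e1.trans e2, fun _ _ => ⟨j, fun p' he => ?_⟩⟩
  filter_upwards [f2 p' he, hcQ] with i b1 b2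
  have hb0 : 0 < D.b i := by have := D.two_le_b i; omega
  have key : ∀ X : ℕ → Finset (ℕ × ℕ), (vF (j + 1) 1 2).Sat (D.wp X i)
      (cons (j + 2) (cons (e i) (cons (D.b i) (fun _ => 0)))) ↔
      vl (D.b i) (flp (D.W i) (X i)) (j + 1) (e i) (j + 2) := by
    intro X
    rw [sat_vF]
    exact VL_nat hb0 _ _ _ _
  rw [key, key] at b1
  rw [b1, X2]
  exact b2.2.2.2.2

/-- The assignment given by a list of names. -/
def env (fs : List (ℕ → ℕ)) (i k : ℕ) : ℕ := (fs.getD k (fun _ => 0)) i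

lemma bd_env (fs : List (ℕ → ℕ)) (h : ∀ f ∈ fs, ∃ A, ∀ᶠ i in (UU : Filter ℕ), f i ≤ D.b i ^ A)
    (n : ℕ) : Bd D n (env fs) := by
  induction fs generalizing n with
  | nil => exact ⟨0, Filter.Eventually.of_forall (fun i k _ => by simp [env])⟩
  | cons f fs ih =>
    have h1 : env (f :: fs) = fun i => cons (f i) (env fs i) := by
      funext i k
      cases k with
      | zero => rfl
      | succ k => rfl
    rw [h1]
    exact Bd.cons (ih (fun g hg => h g (List.mem_cons_of_mem _ hg)) _)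
      (h f List.mem_cons_self)

/-- Everything is done for a task. -/
structure AllDone (p : Cond D) (t : Tm) (φ : Fml) (fs : List (ℕ → ℕ)) : Prop where
  frz : Frz p φ (env fs)
  d1 : ∃ p0, Ext p0 p ∧ Done1 p0 t φ (env fs)
  d2 : ∃ p0, Ext p0 p ∧ Done2 p0 t φ (env fs)
  d3 : ∃ p0, Ext p0 p ∧ Done3 p0 (fs.getD 0 (fun _ => 0))

theorem stage (p : Cond D) (t : Tm) (φ : Fml) (fs : List (ℕ → ℕ))
    (h : ∀ f ∈ fs, ∃ A, ∀ᶠ i in (UU : Filter ℕ), f i ≤ D.b i ^ A) :
    ∃ p' : Cond D, Ext p p' ∧ AllDone p' t φ fs := by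
  obtain ⟨p1, e1, _, _, f1⟩ := freeze p φ (env fs) (bd_env fs h _)
  obtain ⟨p2, e2, f2⟩ := op1 p1 t φ (env fs) (bd_env fs h _)
  obtain ⟨p3, e3, f3⟩ := op2 p2 t φ (env fs) (bd_env fs h)
  obtain ⟨p4, e4, f4⟩ := op3 p3 (fs.getD 0 (fun _ => 0))
  exact ⟨p4, e1.trans (e2.trans (e3.trans e4)), f1.mono (e2.trans (e3.trans e4)),
    ⟨p2, e3.trans e4, f2⟩, ⟨p3, e4, f3⟩, ⟨p4, Ext.rfl' _, f4⟩⟩

lemma getD_prefix {l l' : List (ℕ → ℕ)} (h : l <+: l') {k : ℕ} (hk : k < l.length) :
    l'.getD k (fun _ => 0) = l.getD k (fun _ => 0) := by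
  rw [List.getD_eq_getElem _ _ (lt_of_lt_of_le hk h.length_le), List.getD_eq_getElem _ _ hk]
  exact (h.getElem hk).symm

lemma mem_getD {l : List (ℕ → ℕ)} (h : ∀ f ∈ l, ∃ A, ∀ᶠ i in (UU : Filter ℕ), f i ≤ D.b i ^ A)
    (k : ℕ) : ∃ A, ∀ᶠ i in (UU : Filter ℕ), (l.getD k (fun _ => 0)) i ≤ D.b i ^ A := by
  by_cases hk : k < l.length
  · rw [List.getD_eq_getElem _ _ hk]
    exact h _ (List.getElem_mem hk)
  · rw [List.getD_eq_default _ _ (by omega)]
    exact ⟨0, Filter.Eventually.of_forall (fun i => by simp)⟩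

/-- The generic sequence of conditions. -/
theorem generic (p0 : Cond D) : ∃ p : ℕ → Cond D, p 0 = p0 ∧ (∀ n m, n ≤ m → Ext (p n) (p m)) ∧
    ∀ (t : Tm) (φ : Fml) (fs : List (ℕ → ℕ)), (∀ f ∈ fs, ∃ n, f ∈ (p n).nm) →
      ∀ m, ∃ n, m ≤ n ∧ AllDone (p n) t φ fs := by
  classical
  haveI : Nonempty (Tm × Fml × List ℕ) := ⟨(Tm.zero, Fml.eq Tm.zero Tm.zero, [])⟩
  obtain ⟨g, hg⟩ := exists_surjective_nat (Tm × Fml × List ℕ)
  have hst : ∀ (p : Cond D) (x : Tm × Fml × List ℕ), ∃ p' : Cond D, Ext p p' ∧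
      AllDone p' x.1 x.2.1 (x.2.2.map (fun k => p.nm.getD k (fun _ => 0))) := by
    intro p x
    apply stage
    intro f hf
    obtain ⟨k, _, rfl⟩ := List.mem_map.1 hf
    exact mem_getD p.hnm k
  choose st hst1 hst2 using hst
  set p : ℕ → Cond D := fun n => Nat.rec p0 (fun n p => st p (g n.unpair.1)) n with hp
  have hp1 : ∀ n, p (n + 1) = st (p n) (g n.unpair.1) := fun n => rfl
  have hExt : ∀ n m, n ≤ m → Ext (p n) (p m) := by
    intro n m hnm
    induction m, hnm using Nat.le_induction with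
    | base => exact Ext.rfl' _
    | succ m _ ih => exact ih.trans (by rw [hp1]; exact hst1 _ _)
  refine ⟨p, rfl, hExt, ?_⟩
  intro t φ fs hfs m
  have hidx : ∃ n0, ∃ l : List ℕ, ∀ n ≥ n0,
      l.map (fun k => (p n).nm.getD k (fun _ => 0)) = fs := by
    induction fs with
    | nil => exact ⟨0, [], fun n _ => rfl⟩
    | cons f fs ih =>
      obtain ⟨n1, l, hl⟩ := ih (fun g hg => hfs g (List.mem_cons_of_mem _ hg))
      obtain ⟨n2, hn2⟩ := hfs f List.mem_cons_self
      obtain ⟨k, hk, hkf⟩ := List.getElem_of_mem hn2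
      refine ⟨max n1 n2, k :: l, fun n hn => ?_⟩
      rw [List.map_cons, hl n (by omega)]
      congr 1
      have h3 := getD_prefix (hExt n2 n (by omega)).nm hk
      rw [h3, List.getD_eq_getElem _ _ hk]
      exact hkf
  obtain ⟨n0, l, hl⟩ := hidx
  obtain ⟨c, hc⟩ := hg (t, φ, l)
  refine ⟨Nat.pair c (max n0 m) + 1, ?_, ?_⟩
  · have := Nat.right_le_pair c (max n0 m)
    omega
  · rw [hp1, Nat.unpair_pair]
    simp only [hc]
    have h4 := hst2 (p (Nat.pair c (max n0 m))) (t, φ, l)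
    simp only at h4
    rw [hl _ (by have := Nat.right_le_pair c (max n0 m); omega)] at h4
    exact h4

end Run7.h835
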