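import Pool.Agent.Run7.h835.Syn

/-!
# Certificates for bounded formulas: deterministic part
-/

set_option linter.unusedSectionVars false
set_option linter.unusedSimpArgs false

namespace Run7.h835

open Finset

variable {a N q : ℕ}

/-- Values at height `j` with the rows below `K` fixed. -/
noncomputable def mix (ω : Smp a N q) (j K : ℕ) (z : Nd a N q → Bool) : Nd a N q → Bool :=
  fun c => if c.1.1 < K then zs ω j c else z c

/-- Truth of a formula as a function of the values at height `j`. -/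
def FF (ω : Smp a N q) (j K : ℕ) (Q : Finset (ℕ × ℕ)) (φ : Fml) (v : ℕ → ℕ)
    (z : Nd a N q → Bool) : Prop :=
  φ.Sat (wld (bb q) (flp (ext (DD ω j (mix ω j K z))) Q)) v

/-- The box. -/
def box (a N q : ℕ) : Finset (ℕ × ℕ) := univ.image (emb : Nd a N q → ℕ × ℕ)

/-- The sample `ω` is good for `φ` at height `j`. -/
def GoodAt (ω : Smp a N q) (κ : ℕ) (φ : Fml) (A T j : ℕ) : Prop :=
  ∀ K, φ.gr * A ≤ K → ∀ v : ℕ → ℕ, (∀ k < φ.nv, v k ≤ bb q ^ A) →
    ∀ Q ⊆ box a N q, Q.card ≤ κ → Cert (FF ω j K Q φ v) T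

lemma E_congr (ω : Smp a N q) (j : ℕ) {z z' : Nd a N q → Bool} {c : Nd a N q}
    (h : z (par c) = z' (par c)) : E ω j z c = E ω j z' c := by
  simp only [E, h]

lemma par_fst (c : Nd a N q) : (par c).1 = c.1 := rfl

lemma E_mix (ω : Smp a N q) {j : ℕ} (hj : j < N) (K : ℕ) (z : Nd a N q → Bool) :
    E ω j (mix ω (j + 1) K z) = mix ω j K (E ω j z) := by
  funext c
  by_cases h : c.1.1 < K
  · have h1 : mix ω j K (E ω j z) c = zs ω j c := by simp [mix, h]
    rw [h1, zs_succ ω hj]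
    apply E_congr
    simp [mix, par_fst, h]
  · have h1 : mix ω j K (E ω j z) c = E ω j z c := by simp [mix, h]
    rw [h1]
    apply E_congr
    simp [mix, par_fst, h]

lemma FF_succ (ω : Smp a N q) {j : ℕ} (hj : j < N) (K : ℕ) (Q : Finset (ℕ × ℕ)) (φ : Fml)
    (v : ℕ → ℕ) (z : Nd a N q → Bool) :
    FF ω (j + 1) K Q φ v z ↔ FF ω j K Q φ v (E ω j z) := by
  unfold FF
  simp only [DD]
  rw [E_mix ω hj]

lemma cert_E (ω : Smp a N q) (j : ℕ) {f : (Nd a N q → Bool) → Prop} {t : ℕ} (h : Cert f t) :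
    Cert (fun z => f (E ω j z)) t := by
  classical
  intro z
  obtain ⟨S, hS, h2⟩ := h (E ω j z)
  refine ⟨S.image par, Finset.card_image_le.trans hS, fun z' hz' => h2 _ (fun c hc => ?_)⟩
  exact E_congr ω j (hz' _ (Finset.mem_image_of_mem _ hc))

lemma cert_iff {V : Type*} {f g : (V → Bool) → Prop} (h : ∀ z, f z ↔ g z) {t : ℕ}
    (hf : Cert f t) : Cert g t := by
  have : f = g := funext fun z => propext (h z)
  rwa [← this]

lemma GoodAt.succ {ω : Smp a N q} {κ : ℕ} {φ : Fml} {A T j : ℕ} (h : GoodAt ω κ φ A T j)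
    (hj : j < N) : GoodAt ω κ φ A T (j + 1) := by
  intro K hK v hv Q hQ hQc
  exact cert_iff (fun z => (FF_succ ω hj K Q φ v z).symm) (cert_E ω j (h K hK v hv Q hQ hQc))

lemma GoodAt.lift {ω : Smp a N q} {κ : ℕ} {φ : Fml} {A T j : ℕ} (h : GoodAt ω κ φ A T j)
    (k : ℕ) (hjk : j ≤ k) (hk : k ≤ N) : GoodAt ω κ φ A T k := by
  induction k, hjk using Nat.le_induction with
  | base => exact h
  | succ k hjk ih => exact (ih (by omega)).succ (by omega)

lemma GoodAt.mono {ω : Smp a N q} {κ : ℕ} {φ : Fml} {A T T' j : ℕ} (h : GoodAt ω κ φ A T j)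
    (hT : T ≤ T') : GoodAt ω κ φ A T' j :=
  fun K hK v hv Q hQ hQc => (h K hK v hv Q hQ hQc).mono hT

lemma goodAt_eq (ω : Smp a N q) (κ : ℕ) (s t : Tm) (A j : ℕ) :
    GoodAt ω κ (Fml.eq s t) A 0 j := by
  intro K _ v _ Q _ _
  exact cert_of_const (fun z z' => Iff.rfl) 0

lemma goodAt_lt (ω : Smp a N q) (κ : ℕ) (s t : Tm) (A j : ℕ) :
    GoodAt ω κ (Fml.lt s t) A 0 j := by
  intro K _ v _ Q _ _
  exact cert_of_const (fun z z' => Iff.rfl) 0

lemma goodAt_rel (ω : Smp a N q) (hb : 2 ≤ bb q) (κ : ℕ) (t : Tm) {A : ℕ} (hA : 1 ≤ A) :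
    GoodAt ω κ (Fml.rel t) A 1 0 := by
  classical
  intro K hK v hv Q _ _
  have hval := t.val_le hb hA hv
  simp only [Fml.gr] at hK
  have hvK : t.val v ≤ bb q ^ K := hval.trans (Nat.pow_le_pow_right (by omega) hK)
  by_cases hn : ∃ w e m y, t.val v = quad w e m y
  · obtain ⟨w, e, m, y, hn⟩ := hn
    have hf : ∀ z, FF ω 0 K Q (Fml.rel t) v z ↔
        Rl (bb q) (flp (ext (mix ω 0 K z)) Q) w e m y := by
      intro z
      unfold FF
      simp only [Fml.Sat, DD]
      rw [hn, wld_quad]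
    refine cert_iff (fun z => (hf z).symm) ?_
    by_cases hw : w = 0
    · by_cases hbx : e < a ∧ y < BB N q
      · intro z
        refine ⟨{(⟨e, hbx.1⟩, ⟨y, hbx.2⟩)}, by simp, fun z' hz' => ?_⟩
        have h1 := hz' _ (Finset.mem_singleton_self _)
        have h2 : (flp (ext (mix ω 0 K z')) Q) (e, y) = (flp (ext (mix ω 0 K z)) Q) (e, y) := by
          simp only [flp, ext, hbx, and_self, dite_true, mix, h1]
        have h3 : ¬ w = bb q ^ (e + 1) := by
          have : 0 < bb q ^ (e + 1) := Nat.pow_pos (by omega)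
          omega
        unfold Rl
        beta_reduce
        rw [h2]
        simp only [h3, false_and, or_false]
      · refine cert_of_const (fun z z' => ?_) 1
        have h2 : (flp (ext (mix ω 0 K z)) Q) (e, y) = (flp (ext (mix ω 0 K z')) Q) (e, y) := by
          simp only [flp, ext, hbx, dite_false]
        have h3 : ¬ w = bb q ^ (e + 1) := by
          have : 0 < bb q ^ (e + 1) := Nat.pow_pos (by omega)
          omega
        unfold Rl
        rw [h2]
        simp only [h3, false_and, or_false]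
    · by_cases hw2 : w = bb q ^ (e + 1)
      · refine cert_of_const (fun z z' => ?_) 1
        apply Rl_congr (by omega)
        intro y'
        have h4 : w ≤ bb q ^ K := by
          have := le_quad w e m y
          rw [← hn] at this
          exact this.trans hvK
        rw [hw2] at h4
        have h5 : e + 1 ≤ K := (Nat.pow_le_pow_iff_right (by omega)).1 h4
        have h6 : e < K := by omega
        simp only [flp, ext, mix, h6, if_true]
      · refine cert_of_const (fun z z' => ?_) 1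
        unfold Rl
        simp only [hw, hw2, false_and, or_false]
  · have hf : ∀ z, FF ω 0 K Q (Fml.rel t) v z ↔ False := by
      intro z
      unfold FF
      simp only [Fml.Sat, DD, iff_false]
      rintro ⟨w, e, m, y, h, _⟩
      exact hn ⟨w, e, m, y, h⟩
    refine cert_iff (fun z => (hf z).symm) (cert_of_const (fun _ _ => Iff.rfl) 1)

lemma goodAt_neg {ω : Smp a N q} {κ : ℕ} {φ : Fml} {A T j : ℕ} (h : GoodAt ω κ φ A T j) :
    GoodAt ω κ (Fml.neg φ) A T j := by
  intro K hK v hv Q hQ hQc z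
  obtain ⟨S, hS, h2⟩ := h K hK v hv Q hQ hQc z
  exact ⟨S, hS, fun z' hz' => not_congr (h2 z' hz')⟩

lemma goodAt_and {ω : Smp a N q} {κ : ℕ} {φ ψ : Fml} {A T1 T2 j : ℕ}
    (h1 : GoodAt ω κ φ A T1 j) (h2 : GoodAt ω κ ψ A T2 j) :
    GoodAt ω κ (Fml.and φ ψ) A (T1 + T2) j := by
  classical
  intro K hK v hv Q hQ hQc z
  simp only [Fml.gr] at hK
  have hK1 : φ.gr * A ≤ K := (Nat.mul_le_mul_right _ (le_max_left _ _)).trans hK
  have hK2 : ψ.gr * A ≤ K := (Nat.mul_le_mul_right _ (le_max_right _ _)).trans hK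
  obtain ⟨S1, hS1, h3⟩ := h1 K hK1 v (fun k hk => hv k (lt_of_lt_of_le hk (le_max_left _ _)))
    Q hQ hQc z
  obtain ⟨S2, hS2, h4⟩ := h2 K hK2 v (fun k hk => hv k (lt_of_lt_of_le hk (le_max_right _ _)))
    Q hQ hQc z
  refine ⟨S1 ∪ S2, (Finset.card_union_le _ _).trans (by omega), fun z' hz' => and_congr ?_ ?_⟩
  · exact h3 z' (fun c hc => hz' c (Finset.mem_union_left _ hc))
  · exact h4 z' (fun c hc => hz' c (Finset.mem_union_right _ hc))

/-- Being good for the matrix makes the quantified formula a narrow disjunction. -/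
lemma dnf_bex {ω : Smp a N q} {κ : ℕ} {t : Tm} {φ : Fml} {A T j : ℕ} (hb : 2 ≤ bb q) (hA : 1 ≤ A)
    (h : GoodAt ω κ φ (t.sz * A) T j) (K : ℕ) (hK : (Fml.bex t φ).gr * A ≤ K) (v : ℕ → ℕ)
    (hv : ∀ k < (Fml.bex t φ).nv, v k ≤ bb q ^ A) (Q : Finset (ℕ × ℕ)) (hQ : Q ⊆ box a N q)
    (hQc : Q.card ≤ κ) : Dnf (FF ω j K Q (Fml.bex t φ) v) T := by
  intro z hz
  obtain ⟨x, hx, hs⟩ := hz
  have hsz := t.one_le_sz
  have hA' : A ≤ t.sz * A := Nat.le_mul_of_pos_left _ hsz
  have hK' : φ.gr * (t.sz * A) ≤ K := by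
    simp only [Fml.gr] at hK
    calc φ.gr * (t.sz * A) = t.sz * φ.gr * A := by ring
      _ ≤ K := hK
  have hv' : ∀ k < φ.nv, cons x v k ≤ bb q ^ (t.sz * A) := by
    intro k hk
    cases k with
    | zero =>
      have := t.val_le hb hA (fun k hk => hv k (lt_of_lt_of_le hk (le_max_left _ _)))
      exact (hx.le).trans this
    | succ k =>
      have h1 : v k ≤ bb q ^ A := by
        apply hv k
        simp only [Fml.nv]
        exact lt_of_lt_of_le (by omega : k < φ.nv - 1) (le_max_right _ _)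
      exact h1.trans (Nat.pow_le_pow_right (by omega) hA')
  obtain ⟨S, hS, h2⟩ := h K hK' (cons x v) hv' Q hQ hQc z
  exact ⟨S, hS, fun z' hz' => ⟨x, hx, (h2 z' hz').2 hs⟩⟩

end Run7.h835
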