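import Pool.Agent.Run7.h835.Ind1

/-!
# Locality of the restrictions in the sample, and one switching step
-/

set_option linter.unusedSectionVars false
set_option linter.unusedSimpArgs false

namespace Run7.h835

open Finset

variable {a N q : ℕ}

/-- Two samples agree on row `e` of slice `i`. -/
def Agr (ω ω' : Smp a N q) (i : ℕ) (e : Fin a) : Prop :=
  ∀ (v : Nd a N q) (s : Bool), v.1 = e → ω (idx N i, v, s) = ω' (idx N i, v, s)

lemma flg_agr {ω ω' : Smp a N q} {i : ℕ} {v : Nd a N q} (h : Agr ω ω' i v.1) :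
    flg ω i v ↔ flg ω' i v := by
  unfold flg
  rw [h v true rfl]

lemma bt_agr {ω ω' : Smp a N q} {i : ℕ} {v : Nd a N q} (h : Agr ω ω' i v.1) :
    bt ω i v = bt ω' i v := by
  unfold bt
  rw [h v false rfl]

lemma alv_agr {ω ω' : Smp a N q} {j : ℕ} {v : Nd a N q} (h : j = 0 ∨ Agr ω ω' (j - 1) v.1) :
    alv ω j v ↔ alv ω' j v := by
  unfold alv
  refine and_congr_right (fun _ => and_congr_right (fun _ => ?_))
  rcases h with h | h
  · simp [h]
  · rw [flg_agr h]

lemma star_agr {ω ω' : Smp a N q} {j : ℕ} {p : Nd a N q} (h : j = 0 ∨ Agr ω ω' (j - 1) p.1) :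
    star ω j p = star ω' j p := by
  unfold star
  congr 1
  funext c
  refine propext (and_congr_right (fun hc => alv_agr ?_))
  have : c.1 = p.1 := by rw [← hc]; rfl
  rw [this]; exact h

lemma E_agr {ω ω' : Smp a N q} {j : ℕ} {c : Nd a N q} (h : j = 0 ∨ Agr ω ω' (j - 1) c.1)
    (h' : Agr ω ω' j c.1) {z z' : Nd a N q → Bool} (hz : z (par c) = z' (par c)) :
    E ω j z c = E ω' j z' c := by
  unfold E
  have h1 : alv ω j c ↔ alv ω' j c := alv_agr h
  have h2 : flg ω j (par c) ↔ flg ω' j (par c) := flg_agr (v := par c) h'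
  have h3 : star ω j (par c) = star ω' j (par c) := star_agr (p := par c) h
  have h4 : bt ω j c = bt ω' j c := bt_agr h'
  simp only [h1, h2, h3, h4, hz]

lemma DD_agr {ω ω' : Smp a N q} {j : ℕ} (h : ∀ i < j, ∀ e, Agr ω ω' i e)
    (z : Nd a N q → Bool) : DD ω j z = DD ω' j z := by
  induction j generalizing z with
  | zero => rfl
  | succ j ih =>
    simp only [DD]
    have : E ω j z = E ω' j z := by
      funext c
      apply E_agr _ (h j (by omega) c.1) rfl
      rcases Nat.eq_zero_or_pos j with h0 | h0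
      · exact Or.inl h0
      · exact Or.inr (h (j - 1) (by omega) c.1)
    rw [this]
    exact ih (fun i hi => h i (by omega)) _

lemma zs_agr {ω ω' : Smp a N q} {e : Fin a} (h : ∀ i, Agr ω ω' i e) (k : ℕ) (c : Nd a N q)
    (hc : c.1 = e) : zsAux ω k c = zsAux ω' k c := by
  induction k generalizing c with
  | zero => rfl
  | succ k ih =>
    simp only [zsAux]
    subst hc
    exact E_agr (Or.inr (h _)) (h _) (ih (par c) rfl)

lemma idx_inj {N i j : ℕ} (hi : i ≤ N) (hj : j ≤ N) (h : idx N i = idx N j) : i = j := by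
  unfold idx at h
  rw [Fin.mk.injEq, Nat.mod_eq_of_lt (by omega), Nat.mod_eq_of_lt (by omega)] at h
  exact h

/-- The coordinates of slice `j` in rows at least `K`. -/
def JK (a N q : ℕ) (j K : ℕ) (i : Fin (N + 1) × Nd a N q × Bool) : Prop :=
  i.1 = idx N j ∧ K ≤ i.2.1.1.1

lemma agr_slice {ω η : Smp a N q} {j K i : ℕ} (hj : j ≤ N) (hi : i ≤ N) (hij : i ≠ j)
    (e : Fin a) : Agr (ov (JK a N q j K) η ω) ω i e := by
  intro v s _
  apply ov_out
  rintro ⟨h, _⟩
  exact hij (idx_inj hi hj h)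

lemma agr_row {ω η : Smp a N q} {j K : ℕ} (i : ℕ) (e : Fin a) (he : e.1 < K) :
    Agr (ov (JK a N q j K) η ω) ω i e := by
  rintro v s rfl
  apply ov_out
  rintro ⟨_, h⟩
  simp only at h
  omega

lemma agr_fresh {ω η : Smp a N q} {j K : ℕ} (e : Fin a) (he : K ≤ e.1) :
    Agr (ov (JK a N q j K) η ω) η j e := by
  rintro v s rfl
  apply ov_in
  exact ⟨rfl, he⟩

lemma FF_ov {ω η : Smp a N q} {j K : ℕ} (hj : j ≤ N) (Q : Finset (ℕ × ℕ)) (φ : Fml)
    (v : ℕ → ℕ) : FF (ov (JK a N q j K) η ω) j K Q φ v = FF ω j K Q φ v := by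
  funext z
  unfold FF
  have h1 : mix (ov (JK a N q j K) η ω) j K z = mix ω j K z := by
    funext c
    unfold mix
    by_cases h : c.1.1 < K
    · simp only [h, if_true]
      unfold zs
      exact zs_agr (fun i => agr_row i c.1 h) _ c rfl
    · simp only [h, if_false]
  rw [h1, DD_agr (ω := ov (JK a N q j K) η ω) (ω' := ω)
    (fun i hi e => agr_slice hj (by omega) (by omega) e)]

/-- The function `FF` does not depend on rows below `K`. -/
lemma FF_rows (ω : Smp a N q) (j K : ℕ) (Q : Finset (ℕ × ℕ)) (φ : Fml) (v : ℕ → ℕ)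
    {z z' : Nd a N q → Bool} (h : ∀ c : Nd a N q, K ≤ c.1.1 → z c = z' c) :
    FF ω j K Q φ v z ↔ FF ω j K Q φ v z' := by
  unfold FF
  have : mix ω j K z = mix ω j K z' := by
    funext c
    unfold mix
    by_cases hc : c.1.1 < K
    · simp only [hc, if_true]
    · simp only [hc, if_false]
      exact h c (by omega)
  rw [this]

/-- Overwriting the coordinates whose value is forced at height `j`. -/
noncomputable def fx (ω : Smp a N q) (j : ℕ) (z : Nd a N q → Bool) (c : Nd a N q) : Bool :=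
  if ¬ alv ω j c then decide (¬ root j c)
  else if root (j + 1) (par c) then true
  else z c

/-- The free part of the restriction. -/
noncomputable def GG (ω : Smp a N q) (j : ℕ) (c : Nd a N q) (β : Bool) : Bool :=
  if vld (j + 1) (par c) ∧ c = star ω j (par c) then !β else true

lemma E_ov_eq {ω η : Smp a N q} {j K : ℕ} (hj : j ≤ N) (z : Nd a N q → Bool) (c : Nd a N q)
    (hc : K ≤ c.1.1) : E (ov (JK a N q j K) η ω) j z c =
      fx ω j (EE par (fun u => (idx N j, u, true)) (fun v => (idx N j, v, false))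
        (GG ω j) η z) c := by
  have hh : j = 0 ∨ Agr (ov (JK a N q j K) η ω) ω (j - 1) c.1 := by
    rcases Nat.eq_zero_or_pos j with h0 | h0
    · exact Or.inl h0
    · exact Or.inr (agr_slice hj (by omega) (by omega) c.1)
  have h1 : alv (ov (JK a N q j K) η ω) j c ↔ alv ω j c := alv_agr hh
  have h2 : flg (ov (JK a N q j K) η ω) j (par c) ↔ flg η j (par c) :=
    flg_agr (v := par c) (agr_fresh c.1 hc)
  have h3 : star (ov (JK a N q j K) η ω) j (par c) = star ω j (par c) :=
    star_agr (p := par c) hh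
  have h4 : bt (ov (JK a N q j K) η ω) j c = bt η j c := bt_agr (agr_fresh c.1 hc)
  unfold E fx EE GG
  simp only [h1, h2, h3, h4]
  rfl

lemma dnf_fx {ω : Smp a N q} {j : ℕ} {f : (Nd a N q → Bool) → Prop} {T : ℕ} (h : Dnf f T) :
    Dnf (fun z => f (fx ω j z)) T := by
  intro z hz
  obtain ⟨S, hS, h2⟩ := h _ hz
  refine ⟨S, hS, fun z' hz' => h2 _ (fun c hc => ?_)⟩
  unfold fx
  rw [hz' c hc]

/-- One switching step for a fixed quantified formula. -/
lemma step_one (hq : 2 ≤ q) {j : ℕ} (hj : j < N) (K : ℕ) (Q : Finset (ℕ × ℕ)) (φ : Fml)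
    (v : ℕ → ℕ) (T r : ℕ) :
    pr (fun ω : Smp a N q => Dnf (FF ω j K Q φ v) T ∧ ¬ Cert (FF ω (j + 1) K Q φ v) (r * T))
      ≤ dl r q T := by
  haveI : Nonempty (Fin (q ^ 2)) := ⟨⟨0, by positivity⟩⟩
  refine pr_resample (JK a N q j K) _ _ (fun ω => ?_)
  by_cases hD : Dnf (FF ω j K Q φ v) T
  · have h1 := switching (L := q ^ 2) (par : Nd a N q → Nd a N q)
      (kap := fun u => ((idx N j, u, true) : Fin (N + 1) × Nd a N q × Bool))
      (lam := fun v => ((idx N j, v, false) : Fin (N + 1) × Nd a N q × Bool)) hq rfl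
      (by intro u u' h; simpa using h) (by intro u u' h; simpa using h)
      (by intro u v h; simp at h) (GG ω j) r T
      (fun z => FF ω j K Q φ v (fx ω j z)) (dnf_fx hD)
    refine (pr_mono (fun η hη => ?_)).trans h1
    intro hc
    apply hη.2
    refine cert_iff (fun z => ?_) hc
    rw [FF_succ _ hj, FF_ov hj.le]
    refine FF_rows ω j K Q φ v (fun c hc => ?_)
    rw [E_ov_eq hj.le z c hc]
  · rw [pr_eq_zero]
    · exact dl_nonneg _ _ _
    · rintro η ⟨h, _⟩
      rw [FF_ov hj.le] at h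
      exact hD h

end Run7.h835
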