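import Pool.Agent.Run7.h835.Ind2

/-!
# The union bound and the induction on formulas
-/

set_option linter.unusedSectionVars false
set_option linter.unusedSimpArgs false

namespace Run7.h835

open Finset Filter Topology

lemma card_small_subsets {α : Type*} [DecidableEq α] (s : Finset α) (κ : ℕ) :
    (s.powerset.filter (fun Q => Q.card ≤ κ)).card ≤ (κ + 1) * (s.card + 1) ^ κ := by
  have h1 : s.powerset.filter (fun Q => Q.card ≤ κ) ⊆
      (Finset.range (κ + 1)).biUnion (fun k => s.powersetCard k) := by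
    intro Q hQ
    rw [Finset.mem_filter, Finset.mem_powerset] at hQ
    rw [Finset.mem_biUnion]
    exact ⟨Q.card, Finset.mem_range.2 (by omega), Finset.mem_powersetCard.2 ⟨hQ.1, rfl⟩⟩
  refine (Finset.card_le_card h1).trans (Finset.card_biUnion_le.trans ?_)
  calc ∑ k ∈ Finset.range (κ + 1), (s.powersetCard k).card
      ≤ ∑ k ∈ Finset.range (κ + 1), (s.card + 1) ^ κ := by
        refine Finset.sum_le_sum (fun k hk => ?_)
        rw [Finset.card_powersetCard]
        have hk' := Finset.mem_range.1 hk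
        calc s.card.choose k ≤ s.card ^ k := Nat.choose_le_pow _ _
          _ ≤ (s.card + 1) ^ k := Nat.pow_le_pow_left (by omega) _
          _ ≤ (s.card + 1) ^ κ := Nat.pow_le_pow_right (by omega) (by omega)
    _ = (κ + 1) * (s.card + 1) ^ κ := by simp

open scoped Classical in
/-- Assignments with finitely many values. -/
noncomputable def Vf (n m : ℕ) : Finset (ℕ → ℕ) :=
  (univ : Finset (Fin n → Fin (m + 1))).image
    (fun g => fun k => if h : k < n then (g ⟨k, h⟩).1 else 0)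

lemma card_Vf (n m : ℕ) : (Vf n m).card ≤ (m + 1) ^ n := by
  classical
  refine Finset.card_image_le.trans ?_
  simp

lemma mem_Vf {n m : ℕ} {v : ℕ → ℕ} (h : ∀ k < n, v k ≤ m) :
    (fun k => if k < n then v k else 0) ∈ Vf n m := by
  classical
  unfold Vf
  rw [Finset.mem_image]
  refine ⟨fun k => ⟨v k.1, by have := h k.1 k.2; omega⟩, Finset.mem_univ _, ?_⟩
  funext k
  by_cases hk : k < n <;> simp [hk]

section

variable {a N q : ℕ}

lemma FF_congr (ω : Smp a N q) (j K : ℕ) (Q : Finset (ℕ × ℕ)) (φ : Fml) (v : ℕ → ℕ) :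
    FF ω j K Q φ v = FF ω j K Q φ (fun k => if k < φ.nv then v k else 0) := by
  funext z
  unfold FF
  refine propext (φ.sat_congr _ (fun k hk => ?_))
  simp [hk]

/-- The index set of the union bound. -/
noncomputable def Ix (a N q κ A n : ℕ) : Finset (ℕ × (ℕ → ℕ) × Finset (ℕ × ℕ)) :=
  (Finset.range a) ×ˢ (Vf n (bb q ^ A)) ×ˢ ((box a N q).powerset.filter (fun Q => Q.card ≤ κ))

lemma bex_fail (hq : 2 ≤ q) (hb : 2 ≤ bb q) {j : ℕ} (hj : j < N) (t : Tm) (φ : Fml) {A : ℕ}
    (hA : 1 ≤ A) (T r κ : ℕ) :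
    pr (fun ω : Smp a N q => ¬ GoodAt ω κ (Fml.bex t φ) A (r * T) (j + 1)) ≤
      pr (fun ω : Smp a N q => ¬ GoodAt ω κ φ (t.sz * A) T j) +
        (Ix a N q κ A (Fml.bex t φ).nv).card * dl r q T := by
  refine le_trans (pr_mono (Q := fun ω => (¬ GoodAt ω κ φ (t.sz * A) T j) ∨
    ∃ x ∈ Ix a N q κ A (Fml.bex t φ).nv, Dnf (FF ω j x.1 x.2.2 (Fml.bex t φ) x.2.1) T ∧
      ¬ Cert (FF ω (j + 1) x.1 x.2.2 (Fml.bex t φ) x.2.1) (r * T)) ?_) ?_
  · intro ω hω
    by_cases hg : GoodAt ω κ φ (t.sz * A) T j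
    · right
      unfold GoodAt at hω
      push Not at hω
      obtain ⟨K, hK, v, hv, Q, hQ, hQc, hn⟩ := hω
      have hKa : K < a := by
        by_contra hKa
        apply hn
        refine cert_of_const (fun z z' => FF_rows ω _ K Q _ v (fun c hc => ?_)) _
        have := c.1.2
        omega
      refine ⟨(K, (fun k => if k < (Fml.bex t φ).nv then v k else 0), Q), ?_, ?_, ?_⟩
      · unfold Ix
        rw [Finset.mem_product, Finset.mem_product]
        refine ⟨Finset.mem_range.2 hKa, mem_Vf hv, ?_⟩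
        rw [Finset.mem_filter, Finset.mem_powerset]
        exact ⟨hQ, hQc⟩
      · simp only
        rw [← FF_congr]
        exact dnf_bex hb hA hg K hK v hv Q hQ hQc
      · simp only
        rw [← FF_congr]
        exact hn
    · exact Or.inl hg
  · refine (pr_or_le _ _).trans ?_
    gcongr
    exact pr_exists_le _ _ _ (fun x _ => step_one hq hj x.1 x.2.2 _ x.2.1 T r)

lemma count_le {κ A n : ℕ} (hq : 2 ≤ q) (ha : a ≤ q) (hκ : κ + 1 ≤ q) :
    (Ix a N q κ A n).card ≤ q ^ (1 + (4 * A + 1) * n + (1 + (4 * (N + 2) + 2) * κ)) := by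
  have hup : ∀ m, q ^ m + 1 ≤ q ^ (m + 1) := by
    intro m
    have : 1 ≤ q ^ m := Nat.one_le_pow _ _ (by omega)
    rw [pow_succ]
    nlinarith
  have hbox : (box a N q).card ≤ q * q ^ (4 * (N + 2)) := by
    unfold box
    refine Finset.card_image_le.trans ?_
    rw [Finset.card_univ, Fintype.card_prod, Fintype.card_fin, Fintype.card_fin]
    unfold BB bb
    rw [← pow_mul]
    exact Nat.mul_le_mul_right _ ha
  unfold Ix
  rw [Finset.card_product, Finset.card_product, Finset.card_range]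
  have h1 : (Vf n (bb q ^ A)).card ≤ q ^ ((4 * A + 1) * n) := by
    refine (card_Vf _ _).trans ?_
    rw [pow_mul]
    apply Nat.pow_le_pow_left
    unfold bb
    rw [← pow_mul]
    exact hup _
  have h2 : ((box a N q).powerset.filter (fun Q => Q.card ≤ κ)).card ≤
      q ^ (1 + (4 * (N + 2) + 2) * κ) := by
    refine (card_small_subsets _ _).trans ?_
    rw [pow_add, pow_one, pow_mul]
    refine Nat.mul_le_mul hκ (Nat.pow_le_pow_left ?_ _)
    have h3 : q ^ (4 * (N + 2) + 1) + 1 ≤ q ^ (4 * (N + 2) + 2) := hup (4 * (N + 2) + 1)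
    have h4 : q * q ^ (4 * (N + 2)) = q ^ (4 * (N + 2) + 1) := by rw [pow_succ]; ring
    omega
  calc a * ((Vf n (bb q ^ A)).card * _) ≤ q * (q ^ ((4 * A + 1) * n) *
        q ^ (1 + (4 * (N + 2) + 2) * κ)) := Nat.mul_le_mul ha (Nat.mul_le_mul h1 h2)
    _ = q ^ (1 + (4 * A + 1) * n + (1 + (4 * (N + 2) + 2) * κ)) := by
        rw [pow_add, pow_add, pow_one]; ring

end

lemma two_le_bb {q : ℕ} (hq : 2 ≤ q) : 2 ≤ bb q := by
  unfold bb
  calc 2 ≤ q := hq
    _ = q ^ 1 := (pow_one q).symm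
    _ ≤ q ^ 4 := Nat.pow_le_pow_right (by omega) (by norm_num)

/-- For every bounded formula, almost all samples are good. -/
theorem good_ind (a N κ : ℕ) (φ : Fml) : φ.rk ≤ N → ∀ A, 1 ≤ A → ∃ T,
    Tendsto (fun q : ℕ => pr (fun ω : Smp a N q => ¬ GoodAt ω κ φ A T φ.rk)) atTop (𝓝 0) := by
  induction φ with
  | eq s t =>
    intro _ A _
    refine ⟨0, ?_⟩
    refine tendsto_const_nhds.congr (fun q => ?_)
    rw [pr_eq_zero]
    intro ω h
    exact h (goodAt_eq ω κ s t A _)
  | lt s t =>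
    intro _ A _
    refine ⟨0, ?_⟩
    refine tendsto_const_nhds.congr (fun q => ?_)
    rw [pr_eq_zero]
    intro ω h
    exact h (goodAt_lt ω κ s t A _)
  | rel t =>
    intro _ A hA
    refine ⟨1, ?_⟩
    refine tendsto_const_nhds.congr' ?_
    filter_upwards [eventually_ge_atTop 2] with q hq
    rw [pr_eq_zero]
    intro ω h
    exact h (goodAt_rel ω (two_le_bb hq) κ t hA)
  | neg φ ih =>
    intro hN A hA
    obtain ⟨T, hT⟩ := ih hN A hA
    refine ⟨T, squeeze_zero (fun q => pr_nonneg _) (fun q => pr_mono (fun ω h h2 => ?_)) hT⟩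
    exact h (goodAt_neg h2)
  | and φ ψ ih1 ih2 =>
    intro hN A hA
    simp only [Fml.rk] at hN ⊢
    obtain ⟨T1, hT1⟩ := ih1 (by omega) A hA
    obtain ⟨T2, hT2⟩ := ih2 (by omega) A hA
    refine ⟨T1 + T2, ?_⟩
    have h3 := hT1.add hT2
    rw [add_zero] at h3
    refine squeeze_zero (fun q => pr_nonneg _) (fun q => (pr_mono (fun ω h => ?_)).trans
      (pr_or_le _ _)) h3
    by_contra hc
    push Not at hc
    apply h
    exact goodAt_and (hc.1.lift _ (le_max_left _ _) hN) (hc.2.lift _ (le_max_right _ _) hN)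
  | bex t φ ih =>
    intro hN A hA
    simp only [Fml.rk] at hN ⊢
    have hsz := t.one_le_sz
    obtain ⟨T, hT⟩ := ih (by omega) (t.sz * A) (by nlinarith)
    set D := 1 + (4 * A + 1) * (Fml.bex t φ).nv + (1 + (4 * (N + 2) + 2) * κ) with hD
    refine ⟨D * T, ?_⟩
    have h3 := hT.add (dl_tendsto D D T le_rfl)
    rw [add_zero] at h3
    refine squeeze_zero' (Filter.Eventually.of_forall (fun q => pr_nonneg _)) ?_ h3
    filter_upwards [eventually_ge_atTop 2, eventually_ge_atTop a, eventually_ge_atTop (κ + 1)]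
      with q hq hqa hqκ
    refine (bex_fail hq (two_le_bb hq) (by omega) t φ hA T D κ).trans ?_
    gcongr
    · exact dl_nonneg _ _ _
    · exact_mod_cast count_le hq hqa hqκ

end Run7.h835
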