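import Pool.Agent.Run7.h835.Ind3

/-!
# The good event is likely; the combinatorial interface
-/

set_option linter.unusedSectionVars false
set_option linter.unusedSimpArgs false

namespace Run7.h835

open Finset Filter Topology

section

variable {a N q : ℕ}

lemma pr_child (hq : 2 ≤ q) (i j : ℕ) (c : Nd a N q) :
    pr (fun ω : Smp a N q => ¬ (flg ω i c ∧ bt ω j c = false)) = 1 - 1 / (2 * (q : ℝ) ^ 2) := by
  classical
  haveI : Nonempty (Fin (q ^ 2)) := ⟨⟨0, by positivity⟩⟩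
  have hL : 1 ≤ q ^ 2 := Nat.one_le_pow _ _ (by omega)
  rw [pr_not]
  have h1 : pr (fun ω : Smp a N q => flg ω i c ∧ bt ω j c = false) =
      pr (fun ω : Smp a N q => flg ω i c) * pr (fun ω : Smp a N q => bt ω j c = false) := by
    refine pr_indep (fun k => k = (idx N i, c, true)) _ _ ?_ ?_
    · intro ω ω' h
      unfold flg
      rw [h _ rfl]
    · intro ω ω' h
      unfold bt
      rw [h (idx N j, c, false) (by simp)]
  have h2 : pr (fun ω : Smp a N q => flg ω i c) = 1 / ((q ^ 2 : ℕ) : ℝ) := by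
    have := pr_single (X := Fin (q ^ 2) × Bool) (I := Fin (N + 1) × Nd a N q × Bool)
      (idx N i, c, true) (fun x => (x.1 : ℕ) = 0)
    rw [prX_zero hL] at this
    exact this
  have h3 : pr (fun ω : Smp a N q => bt ω j c = false) = 1 / 2 := by
    have := pr_single (X := Fin (q ^ 2) × Bool) (I := Fin (N + 1) × Nd a N q × Bool)
      (idx N j, c, false) (fun x => x.2 = false)
    rw [prX_bit hL] at this
    exact this
  rw [h1, h2, h3]
  push_cast
  congr 1
  field_simp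

/-- The `l`-th group of children of `p`. -/
def grp (p : Nd a N q) (l : ℕ) : Finset (Nd a N q) :=
  univ.filter (fun c => par c = p ∧ (c.2.1 % bb q) / q ^ 3 = l)

lemma card_grp (hq : 0 < q) {j : ℕ} (p : Nd a N q) (hp : vld (j + 1) p) {l : ℕ} (hl : l < q) :
    q ^ 3 ≤ (grp p l).card := by
  classical
  have hlt : ∀ x < q ^ 3, l * q ^ 3 + x < bb q := by
    intro x hx
    unfold bb
    have h1 : (l + 1) * q ^ 3 ≤ q * q ^ 3 := Nat.mul_le_mul_right _ hl
    have h2 : q * q ^ 3 = q ^ 4 := by ring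
    nlinarith
  have h1 : (Finset.range (q ^ 3)).card ≤ (grp p l).card := by
    refine Finset.card_le_card_of_injOn
      (fun x => if hx : l * q ^ 3 + x < bb q then chd hq p hp (l * q ^ 3 + x) hx else p) ?_ ?_
    · intro x hx
      have hx' := Finset.mem_range.1 hx
      simp only [hlt x hx', dite_true]
      unfold grp
      rw [Finset.mem_coe, Finset.mem_filter]
      refine ⟨Finset.mem_univ _, chd_par hq p hp _ _, ?_⟩
      simp only [chd]
      rw [Nat.mul_comm p.2.1, Nat.mul_add_mod, Nat.mod_eq_of_lt (hlt x hx'), Nat.mul_comm l,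
        Nat.mul_add_div (by positivity), Nat.div_eq_of_lt hx', add_zero]
    · intro x hx x' hx' h
      have h1 := hlt x (Finset.mem_range.1 hx)
      have h2 := hlt x' (Finset.mem_range.1 hx')
      simp only [h1, h2, dite_true, chd, Prod.mk.injEq, Fin.mk.injEq, true_and] at h
      omega
  rwa [Finset.card_range] at h1

lemma gd_fail (hq : 2 ≤ q) (hb : N + 2 ≤ bb q) :
    pr (fun ω : Smp a N q => ¬ Gd ω) ≤
      ((N * (a * BB N q * q) : ℕ) : ℝ) * (1 - 1 / (2 * (q : ℝ) ^ 2)) ^ (q ^ 3) := by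
  classical
  haveI : Nonempty (Fin (q ^ 2)) := ⟨⟨0, by positivity⟩⟩
  have hq0 : 0 < q := by omega
  have hqr : (2 : ℝ) ≤ q := by exact_mod_cast hq
  have hx1 : 1 / (2 * (q : ℝ) ^ 2) ≤ 1 := by
    rw [div_le_one (by positivity)]
    nlinarith
  have hbase0 : 0 ≤ 1 - 1 / (2 * (q : ℝ) ^ 2) := by linarith
  have hbase1 : 1 - 1 / (2 * (q : ℝ) ^ 2) ≤ 1 := by
    have : 0 ≤ 1 / (2 * (q : ℝ) ^ 2) := by positivity
    linarith
  set s : Finset (ℕ × Nd a N q × ℕ) := (Finset.range N) ×ˢ (univ : Finset (Nd a N q)) ×ˢ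
    (Finset.range q) with hs
  have hcard : s.card = N * (a * BB N q * q) := by
    rw [hs, Finset.card_product, Finset.card_product, Finset.card_range, Finset.card_range,
      Finset.card_univ, Fintype.card_prod, Fintype.card_fin, Fintype.card_fin]
  rw [← hcard]
  refine le_trans (pr_mono (Q := fun ω => ∃ x ∈ s, vld (x.1 + 1) x.2.1 ∧ ∀ c ∈ grp x.2.1 x.2.2,
    ¬ (flg ω (x.1 - 1) c ∧ bt ω x.1 c = false)) ?_) (pr_exists_le s _ _ ?_)
  · intro ω hω
    unfold Gd at hω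
    push Not at hω
    obtain ⟨j, hj, p, hp, l, hl, hn⟩ := hω
    refine ⟨(j, p, l), ?_, hp, ?_⟩
    · rw [hs, Finset.mem_product, Finset.mem_product]
      exact ⟨Finset.mem_range.2 hj, Finset.mem_univ _, Finset.mem_range.2 hl⟩
    · rintro c hc ⟨h1, h2⟩
      obtain ⟨h3, h4⟩ := (Finset.mem_filter.1 hc).2
      have hp' : vld (j + 1) (par c) := by rw [h3]; exact hp
      have h5 : alv ω j c := ⟨child_vld hq0 hp', child_not_root hb hj hp', Or.inr h1⟩
      have := hn c h3 h4 h5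
      simp only at h2
      rw [h2] at this
      simp at this
  · rintro ⟨j, p, l⟩ hx
    rw [hs, Finset.mem_product, Finset.mem_product] at hx
    have hj := Finset.mem_range.1 hx.1
    have hl := Finset.mem_range.1 hx.2.2
    simp only at hj hl ⊢
    by_cases hp : vld (j + 1) p
    · refine (pr_mono (Q := fun ω : Smp a N q => ∀ c ∈ grp p l,
        ¬ (flg ω (j - 1) c ∧ bt ω j c = false)) (fun ω h => h.2)).trans ?_
      have h1 := pr_forall_le (X := Fin (q ^ 2) × Bool) (I := Fin (N + 1) × Nd a N q × Bool)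
        (grp p l) (fun c ω => ¬ (flg ω (j - 1) c ∧ bt ω j c = false))
        (fun c => {(idx N (j - 1), c, true), (idx N j, c, false)})
        (1 - 1 / (2 * (q : ℝ) ^ 2)) ?_ ?_ ?_
      · refine h1.trans ?_
        exact pow_le_pow_of_le_one hbase0 hbase1 (card_grp hq0 p hp hl)
      · intro c _ ω ω' h
        unfold flg bt
        beta_reduce
        rw [h (idx N (j - 1), c, true) (by simp), h (idx N j, c, false) (by simp)]
      · intro c _ c' _ hcc
        simp only [Finset.disjoint_insert_left, Finset.mem_insert, Finset.mem_singleton,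
          Finset.disjoint_singleton_left, Prod.mk.injEq, not_or, not_and]
        exact ⟨⟨fun _ h => absurd h hcc, fun _ h => absurd h hcc⟩,
          ⟨fun _ h => absurd h hcc, fun _ h => absurd h hcc⟩⟩
      · intro c _
        exact (pr_child hq _ _ c).le
    · rw [pr_eq_zero (fun ω h => hp h.1)]
      positivity

end

lemma gd_tendsto (a N : ℕ) :
    Tendsto (fun q : ℕ => pr (fun ω : Smp a N q => ¬ Gd ω)) atTop (𝓝 0) := by
  have h1 : Tendsto (fun q : ℕ => (2 : ℝ) ^ (4 * (N + 2) + 3) *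
      (((q : ℝ) / 2) ^ (4 * (N + 2) + 3) * Real.exp (-((q : ℝ) / 2)))) atTop (𝓝 0) := by
    have h2 := Real.tendsto_pow_mul_exp_neg_atTop_nhds_zero (4 * (N + 2) + 3)
    have h3 : Tendsto (fun q : ℕ => (q : ℝ) / 2) atTop atTop :=
      (tendsto_natCast_atTop_atTop).atTop_div_const (by norm_num)
    have h4 := (h2.comp h3).const_mul ((2 : ℝ) ^ (4 * (N + 2) + 3))
    rw [mul_zero] at h4
    exact h4
  refine squeeze_zero' (Filter.Eventually.of_forall (fun q => pr_nonneg _)) ?_ h1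
  filter_upwards [eventually_ge_atTop 2, eventually_ge_atTop a, eventually_ge_atTop (N + 2)]
    with q hq hqa hqN
  have hb : N + 2 ≤ bb q := by
    unfold bb
    calc N + 2 ≤ q := hqN
      _ = q ^ 1 := (pow_one q).symm
      _ ≤ q ^ 4 := Nat.pow_le_pow_right (by omega) (by norm_num)
  refine (gd_fail hq hb).trans ?_
  have hqr : (2 : ℝ) ≤ q := by exact_mod_cast hq
  have hc : N * (a * BB N q * q) ≤ q ^ (4 * (N + 2) + 3) := by
    have e1 : BB N q = q ^ (4 * (N + 2)) := by unfold BB bb; rw [← pow_mul]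
    rw [e1]
    calc N * (a * q ^ (4 * (N + 2)) * q) ≤ q * (q * q ^ (4 * (N + 2)) * q) := by
          gcongr; omega
      _ = q ^ (4 * (N + 2) + 3) := by ring
  have hc' : ((N * (a * BB N q * q) : ℕ) : ℝ) ≤ (q : ℝ) ^ (4 * (N + 2) + 3) := by
    exact_mod_cast hc
  have hx1 : 1 / (2 * (q : ℝ) ^ 2) ≤ 1 := by
    rw [div_le_one (by positivity)]
    nlinarith
  have he : (1 - 1 / (2 * (q : ℝ) ^ 2)) ^ (q ^ 3) ≤ Real.exp (-((q : ℝ) / 2)) := by
    have e1 : 1 - 1 / (2 * (q : ℝ) ^ 2) ≤ Real.exp (-(1 / (2 * (q : ℝ) ^ 2))) := by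
      have := Real.add_one_le_exp (-(1 / (2 * (q : ℝ) ^ 2)))
      linarith
    calc (1 - 1 / (2 * (q : ℝ) ^ 2)) ^ (q ^ 3)
        ≤ (Real.exp (-(1 / (2 * (q : ℝ) ^ 2)))) ^ (q ^ 3) :=
          pow_le_pow_left₀ (by linarith) e1 _
      _ = Real.exp (-((q : ℝ) / 2)) := by
          rw [← Real.exp_nat_mul]
          congr 1
          push_cast
          field_simp
  calc ((N * (a * BB N q * q) : ℕ) : ℝ) * (1 - 1 / (2 * (q : ℝ) ^ 2)) ^ (q ^ 3)
      ≤ (q : ℝ) ^ (4 * (N + 2) + 3) * Real.exp (-((q : ℝ) / 2)) := by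
        gcongr
    _ = (2 : ℝ) ^ (4 * (N + 2) + 3) *
      (((q : ℝ) / 2) ^ (4 * (N + 2) + 3) * Real.exp (-((q : ℝ) / 2))) := by
        rw [div_pow]
        field_simp

/-- All requirements hold for some sample. -/
theorem exists_sample (F : Finset Fml) (N : ℕ) : ∃ T, ∀ q₀, ∃ q, q₀ ≤ q ∧ 2 ≤ q ∧ N + 2 ≤ bb q ∧
    ∃ ω : Smp N N q, Gd ω ∧ ∀ φ ∈ F, φ.rk ≤ N → ∀ A < N, 1 ≤ A → GoodAt ω N φ A T φ.rk := by
  classical
  have h1 : ∀ (φ : Fml) (A : ℕ), ∃ T, (φ.rk ≤ N ∧ 1 ≤ A) →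
      Tendsto (fun q : ℕ => pr (fun ω : Smp N N q => ¬ GoodAt ω N φ A T φ.rk)) atTop (𝓝 0) := by
    intro φ A
    by_cases h : φ.rk ≤ N ∧ 1 ≤ A
    · obtain ⟨T, hT⟩ := good_ind N N N φ h.1 A h.2
      exact ⟨T, fun _ => hT⟩
    · exact ⟨0, fun h' => absurd h' h⟩
  choose T hT using h1
  set s : Finset (Fml × ℕ) := (F ×ˢ (Finset.range N)).filter (fun x => x.1.rk ≤ N ∧ 1 ≤ x.2)
    with hs
  refine ⟨s.sup (fun x => T x.1 x.2), fun q₀ => ?_⟩
  have h2 : Tendsto (fun q : ℕ => ∑ x ∈ s,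
      pr (fun ω : Smp N N q => ¬ GoodAt ω N x.1 x.2 (T x.1 x.2) x.1.rk)) atTop (𝓝 0) := by
    have : (0 : ℝ) = ∑ x ∈ s, (0 : ℝ) := by simp
    rw [this]
    refine tendsto_finset_sum _ (fun x hx => ?_)
    exact hT x.1 x.2 (Finset.mem_filter.1 hx).2
  have h3 := (gd_tendsto N N).add h2
  rw [add_zero] at h3
  have h4 := h3.eventually (gt_mem_nhds (zero_lt_one))
  obtain ⟨q, hq, hlt⟩ := ((eventually_ge_atTop (max q₀ (max 2 (N + 2)))).and h4).exists
  have hq0 : q₀ ≤ q := (le_max_left _ _).trans hq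
  have hq2 : 2 ≤ q := (le_max_left _ _).trans ((le_max_right _ _).trans hq)
  have hqN : N + 2 ≤ q := (le_max_right _ _).trans ((le_max_right _ _).trans hq)
  have hb : N + 2 ≤ bb q := by
    unfold bb
    calc N + 2 ≤ q := hqN
      _ = q ^ 1 := (pow_one q).symm
      _ ≤ q ^ 4 := Nat.pow_le_pow_right (by omega) (by norm_num)
  refine ⟨q, hq0, hq2, hb, ?_⟩
  haveI : Nonempty (Fin (q ^ 2)) := ⟨⟨0, by positivity⟩⟩
  have hsum : ∀ s' : Finset (Fml × ℕ), pr (fun ω : Smp N N q => ∃ x ∈ s',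
      ¬ GoodAt ω N x.1 x.2 (T x.1 x.2) x.1.rk) ≤ ∑ x ∈ s',
      pr (fun ω : Smp N N q => ¬ GoodAt ω N x.1 x.2 (T x.1 x.2) x.1.rk) := by
    intro s'
    induction s' using Finset.induction_on with
    | empty => simp [pr_false]
    | insert x s' hx ih =>
      rw [Finset.sum_insert hx]
      refine le_trans (pr_mono (fun ω h => ?_)) ((pr_or_le (fun ω : Smp N N q =>
        ¬ GoodAt ω N x.1 x.2 (T x.1 x.2) x.1.rk) (fun ω : Smp N N q => ∃ x ∈ s',
      ¬ GoodAt ω N x.1 x.2 (T x.1 x.2) x.1.rk)).trans (add_le_add le_rfl ih))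
      obtain ⟨y, hy, hn⟩ := h
      rcases Finset.mem_insert.1 hy with rfl | hy
      · exact Or.inl hn
      · exact Or.inr ⟨y, hy, hn⟩
  have h5 : pr (fun ω : Smp N N q => ¬ Gd ω ∨ ∃ x ∈ s,
      ¬ GoodAt ω N x.1 x.2 (T x.1 x.2) x.1.rk) < 1 :=
    lt_of_le_of_lt ((pr_or_le _ _).trans (add_le_add le_rfl (hsum s))) hlt
  obtain ⟨ω, hω⟩ := exists_of_pr_lt_one h5
  push Not at hω
  refine ⟨ω, hω.1, fun φ hφ hrk A hA hA1 => ?_⟩
  have hx : (φ, A) ∈ s := by
    rw [hs, Finset.mem_filter, Finset.mem_product]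
    exact ⟨⟨hφ, Finset.mem_range.2 hA⟩, hrk, hA1⟩
  exact (hω.2 (φ, A) hx).mono (Finset.le_sup (f := fun x : Fml × ℕ => T x.1 x.2) hx)

end Run7.h835
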