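import Pool.Agent.Run7.h835.Ind4

/-!
# The combinatorial interface
-/

set_option linter.unusedSectionVars false
set_option linter.unusedSimpArgs false

namespace Run7.h835

open Finset

/-- What the rest of the construction uses. -/
structure Itf (F : Finset Fml) (N T q : ℕ) (W : ℕ × ℕ → Bool) (L : ℕ → Finset (ℕ × ℕ)) : Prop where
  nest : ∀ h, L (h + 1) ⊆ L h
  cert : ∀ φ ∈ F, φ.rk ≤ N → ∀ A < N, 1 ≤ A → ∀ K, φ.gr * A ≤ K → ∀ v : ℕ → ℕ,
    (∀ k < φ.nv, v k ≤ bb q ^ A) → ∀ Q ⊆ L 0, Q.card ≤ N → ∃ S : Finset (ℕ × ℕ), S.card ≤ T ∧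
      ∀ X ⊆ L φ.rk, Disjoint X S → Disjoint X Q → (∀ x ∈ X, K ≤ x.1) →
        (φ.Sat (wld (bb q) (flp W (Q ∪ X))) v ↔ φ.Sat (wld (bb q) (flp W Q)) v)
  tru : ∀ j, j + 1 ≤ N → ∀ e < N, ∀ S X : Finset (ℕ × ℕ), S.card + X.card < q →
    ∃ c ∈ L j, c.1 = e ∧ c ∉ S ∧ c ∉ X ∧ vl (bb q) (flp W (insert c X)) (j + 1) e (j + 2)
  fls : ∀ n, 1 ≤ n → n ≤ N → ∀ e < N, ∀ X : Finset (ℕ × ℕ), (∀ x ∈ X, x.1 ≠ e) →
    ¬ vl (bb q) (flp W X) n e (n + 1)

theorem interface (F : Finset Fml) (N : ℕ) : ∃ T, ∀ q₀, ∃ q, q₀ ≤ q ∧ 2 ≤ q ∧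
    ∃ (W : ℕ × ℕ → Bool) (L : ℕ → Finset (ℕ × ℕ)), Itf F N T q W L := by
  classical
  obtain ⟨T, hT⟩ := exists_sample F N
  refine ⟨T, fun q₀ => ?_⟩
  obtain ⟨q, hq₀, hq2, hb, ω, hG, hgood⟩ := hT q₀
  have hq : 0 < q := by omega
  refine ⟨q, hq₀, hq2, Wst ω, Lf ω, ?_, ?_, ?_, ?_⟩
  · exact fun h => Lf_succ hq hG h
  · intro φ hφ hrk A hA hA1 K hK v hv Q hQ hQc
    have hQb : Q ⊆ box N N q := by
      intro p hp
      obtain ⟨c, _, rfl⟩ := (mem_Lf (Nat.zero_le N)).1 (hQ hp)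
      exact Finset.mem_image_of_mem _ (Finset.mem_univ _)
    obtain ⟨S, hS, h2⟩ := hgood φ hφ hrk A hA hA1 K hK v hv Q hQb hQc (zs ω φ.rk)
    refine ⟨S.image (fun c => emb (leaf ω φ.rk c)), Finset.card_image_le.trans hS, ?_⟩
    intro X hX hXS hXQ hXK
    obtain ⟨X', hX', himg⟩ := lift_leaves hrk X hX
    have h3 := h2 (fl (zs ω φ.rk) X') (fun c hc => by
      have : c ∉ X' := by
        intro hcX
        exact (Finset.disjoint_left.1 hXS) (hX' c hcX).2 (Finset.mem_image_of_mem _ hc)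
      simp [fl, this])
    have m1 : mix ω φ.rk K (zs ω φ.rk) = zs ω φ.rk := by
      funext c
      simp [mix]
    have m2 : mix ω φ.rk K (fl (zs ω φ.rk) X') = fl (zs ω φ.rk) X' := by
      funext c
      by_cases hc : c.1.1 < K
      · have : c ∉ X' := by
          intro hcX
          obtain ⟨h4, h5⟩ := hX' c hcX
          have h6 := hXK _ h5
          have h7 := (leaf_spec hq hG hrk c h4).1
          simp only [emb, h7] at h6
          omega
        simp [mix, hc, fl, this]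
      · simp [mix, hc]
    unfold FF at h3
    rw [m1, m2, DD_zs ω hrk, Wst_fl hq hG hrk X' (fun p hp => (hX' p hp).1), himg,
      flp_flp _ _ _ hXQ.symm, Finset.union_comm] at h3
    exact h3
  · intro j hj e he S X hc
    exact phi_true hq hb hG hj he S X hc
  · intro n hn1 hn e he X hX
    exact phi_false hq hb hG hn1 hn he X hX

end Run7.h835
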