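import Pool.Agent.Run7.h835.Gen3

/-!
# The model and the truth lemma
-/

set_option linter.unusedSectionVars false
set_option linter.unusedSimpArgs false

namespace Run7.h835

open Filter

/-- Shift the variables of a term. -/
def Tm.lift : Tm → Tm
  | Tm.var k => Tm.var (k + 1)
  | Tm.zero => Tm.zero
  | Tm.one => Tm.one
  | Tm.add s t => Tm.add s.lift t.lift
  | Tm.mul s t => Tm.mul s.lift t.lift

lemma Tm.val_lift {M : Type*} [Zero M] [One M] [Add M] [Mul M] (t : Tm) (x : M) (v : ℕ → M) :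
    t.lift.val (cons x v) = t.val v := by
  induction t with
  | var k => rfl
  | zero => rfl
  | one => rfl
  | add s t h1 h2 => simp only [Tm.lift, Tm.val, h1, h2]
  | mul s t h1 h2 => simp only [Tm.lift, Tm.val, h1, h2]

/-- A generic sequence. -/
structure Gseq (D : Dat) (p : ℕ → Cond D) : Prop where
  ext : ∀ n m, n ≤ m → Ext (p n) (p m)
  nb : D.b ∈ (p 0).nm
  na : (fun i => i) ∈ (p 0).nm
  all : ∀ (t : Tm) (φ : Fml) (fs : List (ℕ → ℕ)), (∀ f ∈ fs, ∃ n, f ∈ (p n).nm) →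
      ∀ m, ∃ n, m ≤ n ∧ AllDone (p n) t φ fs

theorem exists_gseq (D : Dat) : ∃ p, Gseq D p := by
  set p0 : Cond D := ⟨[D.b, fun i => i], fun _ => ∅, fun _ => ∅, 0, by
      intro f hf
      simp only [List.mem_cons, List.not_mem_nil, or_false] at hf
      rcases hf with rfl | rfl
      · exact ⟨1, Filter.Eventually.of_forall (fun i => by rw [pow_one])⟩
      · exact ⟨1, Filter.Eventually.of_forall (fun i => le_one_pow D le_rfl)⟩,
    Filter.Eventually.of_forall (fun i => by simp),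
    ⟨0, Filter.Eventually.of_forall (fun i => by simp)⟩,
    fun k => Filter.Eventually.of_forall (fun i => by simp),
    ⟨0, Filter.Eventually.of_forall (fun i => by simp)⟩⟩ with hp0
  obtain ⟨p, h1, h2, h3⟩ := generic p0
  refine ⟨p, h2, ?_, ?_, h3⟩
  · rw [h1]; simp [hp0]
  · rw [h1]; simp [hp0]

section

variable {D : Dat} {p : ℕ → Cond D}

/-- The names. -/
def NmS (p : ℕ → Cond D) : Set (ℕ → ℕ) := {f | ∃ n, f ∈ (p n).nm}

lemma nm_bd {f : ℕ → ℕ} (h : f ∈ NmS p) : ∃ A, ∀ᶠ i in (UU : Filter ℕ), f i ≤ D.b i ^ A := by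
  obtain ⟨n, hn⟩ := h
  exact (p n).hnm f hn

lemma done1_mem {G : Gseq D p} {t : Tm} {φ : Fml} {fs : List (ℕ → ℕ)} {n : ℕ}
    (h : AllDone (p n) t φ fs) : ∃ p0, Ext p0 (p n) ∧ Frz p0 (Fml.bex t φ) (env fs) ∧
      ∃ x ∈ NmS p, ∃ x' ∈ NmS p,
    Frz p0 φ (fun i => cons (x i) (env fs i)) ∧ Frz p0 φ (fun i => cons (x' i) (env fs i)) ∧
    ∀ᶠ i in (UU : Filter ℕ), (Fml.bex t φ).Sat (D.wp p0.X i) (env fs i) →
      x i < t.val (env fs i) ∧ φ.Sat (D.wp p0.X i) (cons (x i) (env fs i)) ∧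
        (x i ≠ 0 → x' i + 1 = x i ∧ ¬ φ.Sat (D.wp p0.X i) (cons (x' i) (env fs i))) := by
  obtain ⟨p0, he, h1, x, hx, x', hx', h2, h3, h4⟩ := h.d1
  exact ⟨p0, he, h1, x, ⟨n, he.nm.subset hx⟩, x', ⟨n, he.nm.subset hx'⟩, h2, h3, h4⟩

lemma nm_term (G : Gseq D p) (t : Tm) (fs : List (ℕ → ℕ)) (h : ∀ f ∈ fs, f ∈ NmS p) :
    ∃ x ∈ NmS p, ∀ᶠ i in (UU : Filter ℕ), x i = t.val (env fs i) := by
  obtain ⟨n, _, hn⟩ := G.all (Tm.add t Tm.one) (Fml.eq (Tm.var 0) t.lift) fs h 0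
  obtain ⟨p0, _, _, x, hx, _, _, _, _, h4⟩ := done1_mem (G := G) hn
  refine ⟨x, hx, ?_⟩
  filter_upwards [h4] with i hi
  obtain ⟨_, h5, _⟩ := hi ⟨t.val (env fs i), by simp only [Tm.val]; omega, by
    simp only [Fml.Sat, Tm.val_lift]; rfl⟩
  simp only [Fml.Sat, Tm.val_lift] at h5
  exact h5

/-- The underlying subsemiring of germs of names. -/
noncomputable def MM (G : Gseq D p) : Subsemiring (Germ (UU : Filter ℕ) ℕ) where
  carrier := {x | ∃ f ∈ NmS p, x = (f : Germ (UU : Filter ℕ) ℕ)}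
  zero_mem' := by
    obtain ⟨x, hx, he⟩ := nm_term G Tm.zero [] (by simp)
    refine ⟨x, hx, ?_⟩
    rw [← Germ.coe_zero, Germ.coe_eq]
    filter_upwards [he] with i hi
    rw [hi]; rfl
  one_mem' := by
    obtain ⟨x, hx, he⟩ := nm_term G Tm.one [] (by simp)
    refine ⟨x, hx, ?_⟩
    rw [← Germ.coe_one, Germ.coe_eq]
    filter_upwards [he] with i hi
    rw [hi]; rfl
  add_mem' := by
    rintro _ _ ⟨f, hf, rfl⟩ ⟨g, hg, rfl⟩
    obtain ⟨x, hx, he⟩ := nm_term G (Tm.add (Tm.var 0) (Tm.var 1)) [f, g] (by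
      intro h hh
      simp only [List.mem_cons, List.not_mem_nil, or_false] at hh
      rcases hh with rfl | rfl <;> assumption)
    refine ⟨x, hx, ?_⟩
    rw [← Germ.coe_add, Germ.coe_eq]
    filter_upwards [he] with i hi
    rw [hi]; rfl
  mul_mem' := by
    rintro _ _ ⟨f, hf, rfl⟩ ⟨g, hg, rfl⟩
    obtain ⟨x, hx, he⟩ := nm_term G (Tm.mul (Tm.var 0) (Tm.var 1)) [f, g] (by
      intro h hh
      simp only [List.mem_cons, List.not_mem_nil, or_false] at hh
      rcases hh with rfl | rfl <;> assumption)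
    refine ⟨x, hx, ?_⟩
    rw [← Germ.coe_mul, Germ.coe_eq]
    filter_upwards [he] with i hi
    rw [hi]; rfl

/-- The carrier of the model. -/
abbrev MT (G : Gseq D p) : Type := MM G

variable {G : Gseq D p}

/-- The element named by `f`. -/
noncomputable def mk (G : Gseq D p) (f : ℕ → ℕ) (hf : f ∈ NmS p) : MT G := ⟨f, f, hf, rfl⟩

/-- A name of an element. -/
noncomputable def rep (x : MT G) : ℕ → ℕ := x.2.choose

lemma rep_mem (x : MT G) : rep x ∈ NmS p := x.2.choose_spec.1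

lemma rep_coe (x : MT G) : ((rep x : ℕ → ℕ) : Germ (UU : Filter ℕ) ℕ) = x.1 :=
  x.2.choose_spec.2.symm

lemma rep_mk (f : ℕ → ℕ) (hf : f ∈ NmS p) : ∀ᶠ i in (UU : Filter ℕ), rep (mk G f hf) i = f i := by
  have := rep_coe (mk G f hf)
  have h2 : ((mk G f hf).1 : Germ (UU : Filter ℕ) ℕ) = (f : Germ (UU : Filter ℕ) ℕ) := rfl
  rw [h2, Germ.coe_eq] at this
  exact this

lemma rep_eq_iff (x y : MT G) : x = y ↔ ∀ᶠ i in (UU : Filter ℕ), rep x i = rep y i := by
  rw [← Subtype.coe_inj, ← rep_coe x, ← rep_coe y, Germ.coe_eq]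
  rfl

lemma rep_lt_iff (x y : MT G) : x < y ↔ ∀ᶠ i in (UU : Filter ℕ), rep x i < rep y i := by
  rw [← Germ.coe_lt, rep_coe, rep_coe]
  exact Iff.rfl

/-- The assignment of names. -/
noncomputable def VV (v : ℕ → MT G) (i k : ℕ) : ℕ := rep (v k) i

lemma VV_cons (x : MT G) (v : ℕ → MT G) : VV (cons x v) = fun i => cons (rep x i) (VV v i) := by
  funext i k
  cases k with
  | zero => rfl
  | succ k => rfl

lemma coe_val (t : Tm) (v : ℕ → MT G) : ((t.val v : MT G) : Germ (UU : Filter ℕ) ℕ) =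
    ((fun i => t.val (VV v i) : ℕ → ℕ) : Germ (UU : Filter ℕ) ℕ) := by
  induction t with
  | var k =>
    simp only [Tm.val, VV]
    rw [← rep_coe (v k)]
  | zero =>
    simp only [Tm.val]
    rw [Subsemiring.coe_zero, ← Germ.coe_zero]
    rfl
  | one =>
    simp only [Tm.val]
    rw [Subsemiring.coe_one, ← Germ.coe_one]
    rfl
  | add s t h1 h2 =>
    simp only [Tm.val]
    rw [Subsemiring.coe_add, h1, h2, ← Germ.coe_add]
    rfl
  | mul s t h1 h2 =>
    simp only [Tm.val]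
    rw [Subsemiring.coe_mul, h1, h2, ← Germ.coe_mul]
    rfl

lemma rep_val (t : Tm) (v : ℕ → MT G) :
    ∀ᶠ i in (UU : Filter ℕ), rep (t.val v) i = t.val (VV v i) := by
  have := coe_val t v
  rw [← rep_coe (t.val v), Germ.coe_eq] at this
  exact this

/-- The predicate of the model. -/
def PM (x : MT G) : Prop := ∃ n0, ∀ n ≥ n0, ∀ᶠ i in (UU : Filter ℕ), D.wp (p n).X i (rep x i)

/-- Eventual truth. -/
def Tr (φ : Fml) (v : ℕ → MT G) : Prop :=
  ∃ n0, ∀ n ≥ n0, ∀ᶠ i in (UU : Filter ℕ), φ.Sat (D.wp (p n).X i) (VV v i)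

/-- Finite lists representing an assignment. -/
noncomputable def lst (v : ℕ → MT G) (n : ℕ) : List (ℕ → ℕ) :=
  (List.range n).map (fun k => rep (v k))

lemma lst_mem (v : ℕ → MT G) (n : ℕ) : ∀ f ∈ lst v n, f ∈ NmS p := by
  intro f hf
  obtain ⟨k, _, rfl⟩ := List.mem_map.1 hf
  exact rep_mem _

lemma env_lst (v : ℕ → MT G) (n i k : ℕ) (hk : k < n) : env (lst v n) i k = VV v i k := by
  unfold env lst VV
  rw [List.getD_eq_getElem _ _ (by simpa using hk)]
  simp

lemma Frz.congr {q : Cond D} {φ : Fml} {V V' : ℕ → ℕ → ℕ}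
    (h : ∀ᶠ i in (UU : Filter ℕ), ∀ k < φ.nv, V i k = V' i k) (hf : Frz q φ V) :
    Frz q φ V' := by
  intro q' he
  filter_upwards [h, hf q' he] with i h1 h2
  rw [← φ.sat_congr _ h1, ← φ.sat_congr _ h1]
  exact h2

lemma frz_exists (G : Gseq D p) (φ : Fml) (v : ℕ → MT G) (m : ℕ) :
    ∃ n, m ≤ n ∧ Frz (p n) φ (VV v) := by
  obtain ⟨n, hn, hA⟩ := G.all Tm.zero φ (lst v φ.nv) (lst_mem v _) m
  refine ⟨n, hn, hA.frz.congr (Filter.Eventually.of_forall (fun i k hk => ?_))⟩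
  exact env_lst v _ i k hk

lemma Frz.keep {q : Cond D} {φ : Fml} {V : ℕ → ℕ → ℕ} (hf : Frz q φ V) {q' : Cond D}
    (he : Ext q q') : (∀ᶠ i in (UU : Filter ℕ), φ.Sat (D.wp q'.X i) (V i)) ↔
      ∀ᶠ i in (UU : Filter ℕ), φ.Sat (D.wp q.X i) (V i) := by
  constructor
  · intro h
    filter_upwards [h, hf q' he] with i h1 h2
    exact h2.1 h1
  · intro h
    filter_upwards [h, hf q' he] with i h1 h2
    exact h2.2 h1

lemma tr_neg (φ : Fml) (v : ℕ → MT G) : Tr (Fml.neg φ) v ↔ ¬ Tr φ v := by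
  constructor
  · rintro ⟨n0, h0⟩ ⟨n1, h1⟩
    have h2 := h0 (max n0 n1) (le_max_left _ _)
    have h3 := h1 (max n0 n1) (le_max_right _ _)
    obtain ⟨i, h4, h5⟩ := (h2.and h3).exists
    exact h4 h5
  · intro h
    obtain ⟨n, _, hF⟩ := frz_exists G φ v 0
    have h1 : ¬ ∀ᶠ i in (UU : Filter ℕ), φ.Sat (D.wp (p n).X i) (VV v i) := by
      intro h2
      exact h ⟨n, fun m hm => (hF.keep (G.ext n m hm)).2 h2⟩
    refine ⟨n, fun m hm => ?_⟩
    rw [← Ultrafilter.eventually_not] at h1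
    filter_upwards [h1, hF (p m) (G.ext n m hm)] with i h2 h3
    exact fun h4 => h2 (h3.1 h4)

/-- Least witnesses, on the level of eventual truth. -/
lemma tr_least (t : Tm) (φ : Fml) (v : ℕ → MT G) (h : Tr (Fml.bex t φ) v) :
    ∃ x : MT G, x < t.val v ∧ Tr φ (cons x v) ∧
      (x = 0 ∨ ∃ x' : MT G, x' + 1 = x ∧ ¬ Tr φ (cons x' v)) := by
  obtain ⟨n1, hn1⟩ := h
  set N := (Fml.bex t φ).nv with hN
  obtain ⟨n, _, hA⟩ := G.all t φ (lst v N) (lst_mem v _) 0
  obtain ⟨p0, he, h1, x, hx, x', hx', h2, h3, h4⟩ := done1_mem (G := G) hA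
  have htN : t.nv ≤ N := le_max_left _ _
  have hφN : φ.nv - 1 ≤ N := le_max_right _ _
  have henv : ∀ i, ∀ k < N, env (lst v N) i k = VV v i k := fun i k hk => env_lst v _ i k hk
  -- truth of the quantified formula at `p0`
  have h5 : ∀ᶠ i in (UU : Filter ℕ), (Fml.bex t φ).Sat (D.wp p0.X i) (env (lst v N) i) := by
    have h6 := hn1 (max n n1) (le_max_right _ _)
    have he2 : Ext p0 (p (max n n1)) := he.trans (G.ext _ _ (le_max_left _ _))
    rw [← h1.keep he2]
    filter_upwards [h6] with i hi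
    rw [(Fml.bex t φ).sat_congr _ (henv i)]
    exact hi
  have h6 : ∀ᶠ i in (UU : Filter ℕ), x i < t.val (env (lst v N) i) ∧
      φ.Sat (D.wp p0.X i) (cons (x i) (env (lst v N) i)) ∧
        (x i ≠ 0 → x' i + 1 = x i ∧
          ¬ φ.Sat (D.wp p0.X i) (cons (x' i) (env (lst v N) i))) := by
    filter_upwards [h4, h5] with i a1 a2
    exact a1 a2
  have hval : ∀ i, t.val (env (lst v N) i) = t.val (VV v i) := fun i =>
    t.val_congr (fun k hk => henv i k (by omega))
  have hcons : ∀ (y : ℕ → ℕ) (hy : y ∈ NmS p), ∀ᶠ i in (UU : Filter ℕ), ∀ k < φ.nv,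
      cons (y i) (env (lst v N) i) k = VV (cons (mk G y hy) v) i k := by
    intro y hy
    filter_upwards [rep_mk (G := G) y hy] with i hi k hk
    rw [VV_cons]
    cases k with
    | zero => simp only [cons]; exact hi.symm
    | succ k => simp only [cons]; exact henv i k (by omega)
  refine ⟨mk G x hx, ?_, ?_, ?_⟩
  · rw [rep_lt_iff]
    filter_upwards [h6, rep_mk (G := G) x hx, rep_val t v] with i a1 a2 a3
    rw [a2, a3, ← hval]
    exact a1.1
  · refine ⟨n, fun m hm => ?_⟩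
    have he2 : Ext p0 (p m) := he.trans (G.ext _ _ hm)
    filter_upwards [h2 (p m) he2, h6, hcons x hx] with i a1 a2 a3
    rw [← φ.sat_congr _ a3, a1]
    exact a2.2.1
  · by_cases h0 : ∀ᶠ i in (UU : Filter ℕ), x i = 0
    · left
      have hz := rep_val (G := G) Tm.zero v
      rw [rep_eq_iff]
      filter_upwards [h0, rep_mk (G := G) x hx, hz] with i a1 a2 a3
      rw [a2, a1]
      exact a3.symm
    · right
      rw [← Ultrafilter.eventually_not] at h0
      refine ⟨mk G x' hx', ?_, ?_⟩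
      · rw [rep_eq_iff]
        have hz := rep_val (G := G) (Tm.add (Tm.var 0) Tm.one) (cons (mk G x' hx') v)
        filter_upwards [h0, rep_mk (G := G) x hx, rep_mk (G := G) x' hx', hz, h6]
          with i a1 a2 a3 a4 a5
        have a6 : rep (mk G x' hx' + 1) i = rep (mk G x' hx') i + 1 := a4
        rw [a6, a2, a3]
        exact (a5.2.2 a1).1
      · rw [← tr_neg]
        refine ⟨n, fun m hm => ?_⟩
        have he2 : Ext p0 (p m) := he.trans (G.ext _ _ hm)
        filter_upwards [h3 (p m) he2, h6, hcons x' hx', h0] with i a1 a2 a3 a4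
        intro a5
        rw [← φ.sat_congr _ a3, a1] at a5
        exact (a2.2.2 a4).2 a5

theorem truth (φ : Fml) (v : ℕ → MT G) : φ.Sat PM v ↔ Tr φ v := by
  induction φ generalizing v with
  | eq s t =>
    simp only [Fml.Sat, Tr]
    rw [rep_eq_iff]
    constructor
    · intro h
      refine ⟨0, fun n _ => ?_⟩
      filter_upwards [h, rep_val s v, rep_val t v] with i a1 a2 a3
      rw [← a2, ← a3, a1]
    · rintro ⟨n, h⟩
      filter_upwards [h n le_rfl, rep_val s v, rep_val t v] with i a1 a2 a3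
      rw [a2, a3, a1]
  | lt s t =>
    simp only [Fml.Sat, Tr]
    rw [rep_lt_iff]
    constructor
    · intro h
      refine ⟨0, fun n _ => ?_⟩
      filter_upwards [h, rep_val s v, rep_val t v] with i a1 a2 a3
      rw [← a2, ← a3]; exact a1
    · rintro ⟨n, h⟩
      filter_upwards [h n le_rfl, rep_val s v, rep_val t v] with i a1 a2 a3
      rw [a2, a3]; exact a1
  | rel t =>
    simp only [Fml.Sat, Tr, PM]
    constructor
    · rintro ⟨n, h⟩
      refine ⟨n, fun m hm => ?_⟩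
      filter_upwards [h m hm, rep_val t v] with i a1 a2
      rw [← a2]; exact a1
    · rintro ⟨n, h⟩
      refine ⟨n, fun m hm => ?_⟩
      filter_upwards [h m hm, rep_val t v] with i a1 a2
      rw [a2]; exact a1
  | neg φ ih =>
    simp only [Fml.Sat]
    rw [tr_neg, ih]
  | and φ ψ h1 h2 =>
    simp only [Fml.Sat]
    rw [h1, h2]
    constructor
    · rintro ⟨⟨n1, a1⟩, ⟨n2, a2⟩⟩
      refine ⟨max n1 n2, fun n hn => ?_⟩
      filter_upwards [a1 n (by omega), a2 n (by omega)] with i b1 b2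
      exact ⟨b1, b2⟩
    · rintro ⟨n1, a1⟩
      refine ⟨⟨n1, fun n hn => ?_⟩, ⟨n1, fun n hn => ?_⟩⟩
      · filter_upwards [a1 n hn] with i b1
        exact b1.1
      · filter_upwards [a1 n hn] with i b1
        exact b1.2
  | bex t φ ih =>
    constructor
    · rintro ⟨x, hx, hs⟩
      rw [ih] at hs
      obtain ⟨n1, a1⟩ := hs
      rw [rep_lt_iff] at hx
      refine ⟨n1, fun n hn => ?_⟩
      filter_upwards [a1 n hn, hx, rep_val t v] with i b1 b2 b3
      refine ⟨rep x i, by rw [← b3]; exact b2, ?_⟩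
      rw [VV_cons] at b1
      exact b1
    · intro h
      obtain ⟨x, hx, hs, _⟩ := tr_least t φ v h
      exact ⟨x, hx, (ih _).2 hs⟩

end

end Run7.h835
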