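import Pool.Agent.Run7.h835.Mod1

/-!
# The model satisfies bounded induction and collection
-/

set_option linter.unusedSectionVars false
set_option linter.unusedSimpArgs false

namespace Run7.h835

open Filter

variable {D : Dat} {p : ℕ → Cond D} {G : Gseq D p}

lemma upd_congr {M : Type*} (v : ℕ → M) (J : ℕ) (c : M) (k : ℕ) (hk : k < J) :
    Function.update v J c k = v k := by
  rw [Function.update_of_ne (by omega)]

lemma sat_upd1 {M : Type*} [Zero M] [One M] [Add M] [Mul M] [LT M] (P : M → Prop) (φ : Fml)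
    (J : ℕ) (hJ : φ.nv ≤ J) (x c : M) (v : ℕ → M) :
    φ.Sat P (cons x (Function.update v J c)) ↔ φ.Sat P (cons x v) := by
  refine φ.sat_congr P (fun k hk => ?_)
  cases k with
  | zero => rfl
  | succ k => simp only [cons]; exact upd_congr v J c k (by omega)

lemma sat_upd2 {M : Type*} [Zero M] [One M] [Add M] [Mul M] [LT M] (P : M → Prop) (φ : Fml)
    (J : ℕ) (hJ : φ.nv ≤ J) (x y c : M) (v : ℕ → M) :
    φ.Sat P (cons y (cons x (Function.update v J c))) ↔ φ.Sat P (cons y (cons x v)) := by
  refine φ.sat_congr P (fun k hk => ?_)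
  cases k with
  | zero => rfl
  | succ k =>
    cases k with
    | zero => rfl
    | succ k => simp only [cons]; exact upd_congr v J c k (by omega)

theorem bdd_induction (G : Gseq D p) : BddInduction (MT G) PM := by
  intro φ v h0 hs c
  by_contra hc
  set J := φ.nv with hJ
  set v' := Function.update v J c with hv'
  have h1 : (Fml.bex (Tm.add (Tm.var J) Tm.one) (Fml.neg φ)).Sat PM v' := by
    refine ⟨c, ?_, ?_⟩
    · simp only [Tm.val, hv', Function.update_self]
      exact lt_add_one c
    · simp only [Fml.Sat]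
      rw [hv', sat_upd1 PM φ J le_rfl]
      exact hc
  obtain ⟨x, _, h2, h3⟩ := tr_least _ _ _ ((truth _ _).1 h1)
  rw [← truth] at h2
  simp only [Fml.Sat] at h2
  rw [hv', sat_upd1 PM φ J le_rfl] at h2
  rcases h3 with rfl | ⟨x', hx', h4⟩
  · exact h2 h0
  · rw [← truth] at h4
    simp only [Fml.Sat, not_not] at h4
    rw [hv', sat_upd1 PM φ J le_rfl] at h4
    apply h2
    rw [← hx']
    exact hs x' h4

/-- The element `b`. -/
noncomputable def bM (G : Gseq D p) : MT G := mk G D.b ⟨0, G.nb⟩

/-- The element `a`. -/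
noncomputable def aM (G : Gseq D p) : MT G := mk G (fun i => i) ⟨0, G.na⟩

lemma rep_pow (x : MT G) (k : ℕ) : ∀ᶠ i in (UU : Filter ℕ), rep (x ^ k) i = rep x i ^ k := by
  induction k with
  | zero =>
    simp only [pow_zero]
    exact rep_val (G := G) Tm.one (fun _ => x)
  | succ k ih =>
    have h1 := rep_val (G := G) (Tm.mul (Tm.var 0) (Tm.var 1)) (cons (x ^ k) (fun _ => x))
    filter_upwards [ih, h1] with i a1 a2
    have a3 : rep (x ^ k * x) i = rep (x ^ k) i * rep x i := a2
    rw [pow_succ, a3, a1, pow_succ]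

lemma rep_zero : ∀ᶠ i in (UU : Filter ℕ), rep (0 : MT G) i = 0 :=
  rep_val (G := G) Tm.zero (fun _ => 0)

lemma rep_add (x y : MT G) : ∀ᶠ i in (UU : Filter ℕ), rep (x + y) i = rep x i + rep y i :=
  rep_val (G := G) (Tm.add (Tm.var 0) (Tm.var 1)) (cons x (fun _ => y))

lemma rep_one : ∀ᶠ i in (UU : Filter ℕ), rep (1 : MT G) i = 1 :=
  rep_val (G := G) Tm.one (fun _ => 0)

lemma rep_nat (k : ℕ) : ∀ᶠ i in (UU : Filter ℕ), rep (k : MT G) i = k := by
  induction k with
  | zero => simpa using rep_zero (G := G)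
  | succ k ih =>
    filter_upwards [ih, rep_add (G := G) (k : MT G) 1, rep_one (G := G)] with i a1 a2 a3
    rw [Nat.cast_succ, a2, a1, a3]

theorem collection (G : Gseq D p) : Collection (MT G) PM := by
  intro φ v a h
  set J := φ.nv with hJ
  set v' := Function.update v J a with hv'
  set N := max (J + 1) φ.nv with hN
  obtain ⟨n, _, hA⟩ := G.all (Tm.var J) φ (lst v' N) (lst_mem v' _) 0
  have henv : ∀ i, ∀ k < N, env (lst v' N) i k = VV v' i k := fun i k hk => env_lst v' _ i k hk
  have hJval : ∀ i, (Tm.var J).val (env (lst v' N) i) = rep a i := by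
    intro i
    simp only [Tm.val]
    rw [henv i J (by omega)]
    simp only [VV, hv', Function.update_self]
  have hEnv2 : ∀ (P : ℕ → Prop) (i x y : ℕ), φ.Sat P (cons y (cons x (env (lst v' N) i))) ↔
      φ.Sat P (cons y (cons x (VV v i))) := by
    intro P i x y
    refine φ.sat_congr P (fun k hk => ?_)
    cases k with
    | zero => rfl
    | succ k =>
      cases k with
      | zero => rfl
      | succ k =>
        simp only [cons]
        rw [henv i k (by omega)]
        simp only [VV, hv']
        rw [upd_congr v J a k (by omega)]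
  obtain ⟨p0, he, h2⟩ := hA.d2
  rcases h2 with ⟨k, hk⟩ | ⟨x, hx, hxt, hxk⟩
  · refine ⟨bM G ^ k, fun u hu => ?_⟩
    set v'' := Function.update v J (bM G ^ k) with hv''
    have h3 : Tr (Fml.bex (Tm.var (J + 1)) φ) (cons u v'') := by
      refine ⟨n, fun m hm => ?_⟩
      have he2 : Ext p0 (p m) := he.trans (G.ext _ _ hm)
      rw [rep_lt_iff] at hu
      filter_upwards [hk (p m) he2, hu, rep_pow (G := G) (bM G) k,
        rep_mk (G := G) D.b ⟨0, G.nb⟩] with i a1 a2 a3 a4
      rw [hJval] at a1
      obtain ⟨y, hy, hs⟩ := a1 (rep u i) a2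
      rw [hEnv2] at hs
      refine ⟨y, ?_, ?_⟩
      · rw [VV_cons]
        simp only [Tm.val, cons, VV, hv'', Function.update_self]
        rw [a3]
        have a5 : rep (bM G) i = D.b i := a4
        rw [a5]
        exact hy
      · rw [VV_cons]
        refine (φ.sat_congr _ (fun k' hk' => ?_)).1 hs
        cases k' with
        | zero => rfl
        | succ k' =>
          cases k' with
          | zero => rfl
          | succ k' =>
            simp only [cons, VV, hv'']
            rw [upd_congr v J _ k' (by omega)]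
    obtain ⟨y, hy, hs⟩ := (truth _ _).2 h3
    refine ⟨y, ?_, ?_⟩
    · simpa only [Tm.val, cons, hv'', Function.update_self] using hy
    · rw [hv'', sat_upd2 PM φ J le_rfl] at hs
      exact hs
  · exfalso
    have hxm : x ∈ NmS p := ⟨n, he.nm.subset hx⟩
    obtain ⟨y, hy⟩ := h (mk G x hxm) (by
      rw [rep_lt_iff]
      filter_upwards [hxt, rep_mk (G := G) x hxm] with i a1 a2
      rw [hJval] at a1
      rw [a2]; exact a1)
    rw [truth] at hy
    obtain ⟨n1, hn1⟩ := hy
    obtain ⟨A, hA2⟩ := nm_bd (rep_mem y)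
    have h4 := hxk (A + 1) (p (max n n1)) (he.trans (G.ext _ _ (le_max_left _ _)))
    have h5 := hn1 (max n n1) (le_max_right _ _)
    obtain ⟨i, ⟨⟨a1, a2⟩, a3⟩, a4⟩ := (((h4.and h5).and hA2).and (rep_mk (G := G) x hxm)).exists
    rw [VV_cons, VV_cons] at a2
    simp only at a2
    rw [a4] at a2
    refine a1 (rep y i) ?_ ((hEnv2 _ _ _ _).2 a2)
    refine lt_of_le_of_lt a3 ?_
    exact Nat.pow_lt_pow_right (by have := D.two_le_b i; omega) (by omega)

lemma rep_le_iff (x y : MT G) : x ≤ y ↔ ∀ᶠ i in (UU : Filter ℕ), rep x i ≤ rep y i := by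
  rw [← not_lt, rep_lt_iff, ← Ultrafilter.eventually_not]
  simp only [not_lt]

lemma exists_add {x y : MT G} (h : x ≤ y) : ∃ z : MT G, y = x + z := by
  rw [rep_le_iff] at h
  set v : ℕ → MT G := cons x (cons y (fun _ => 0)) with hv
  have h1 : Tr (Fml.bex (Tm.add (Tm.var 1) Tm.one)
      (Fml.eq (Tm.add (Tm.var 1) (Tm.var 0)) (Tm.var 2))) v := by
    refine ⟨0, fun n _ => ?_⟩
    filter_upwards [h] with i hi
    refine ⟨rep y i - rep x i, ?_, ?_⟩
    · simp only [Tm.val, VV, hv, cons]
      omega
    · simp only [Fml.Sat, Tm.val, cons, VV, hv]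
      omega
  obtain ⟨z, _, hz⟩ := (truth _ _).2 h1
  refine ⟨z, ?_⟩
  simp only [Fml.Sat, Tm.val, cons, hv] at hz
  exact hz.symm

instance : CanonicallyOrderedAdd (MT G) where
  exists_add_of_le h := exists_add h
  le_add_self x y := by
    rw [rep_le_iff]
    filter_upwards [rep_add (G := G) y x] with i hi
    omega
  le_self_add x y := by
    rw [rep_le_iff]
    filter_upwards [rep_add (G := G) x y] with i hi
    omega

lemma discrete (x : MT G) (h : 0 < x) : 1 ≤ x := by
  rw [rep_lt_iff] at h
  rw [rep_le_iff]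
  filter_upwards [h, rep_zero (G := G), rep_one (G := G)] with i a1 a2 a3
  omega

instance : Countable (MT G) := by
  have h1 : (NmS p).Countable := by
    have : NmS p = ⋃ n, {f | f ∈ (p n).nm} := by
      ext f; simp [NmS]
    rw [this]
    exact Set.countable_iUnion (fun n => (List.finite_toSet _).countable)
  have h2 : Countable (NmS p) := h1.to_subtype
  refine Function.Surjective.countable (f := fun f : NmS p => mk G f.1 f.2) ?_
  rintro ⟨x, f, hf, rfl⟩
  exact ⟨⟨f, hf⟩, rfl⟩

end Run7.h835
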