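import Pool.Agent.Run7.h835.Mod2

/-!
# No proper end extension
-/

set_option linter.unusedSectionVars false
set_option linter.unusedSimpArgs false

namespace Run7.h835

open Filter

/-- Bounded universal quantifier. -/
def Fml.ball (t : Tm) (φ : Fml) : Fml := Fml.neg (Fml.bex t (Fml.neg φ))

/-- Equivalence. -/
def Fml.iff (φ ψ : Fml) : Fml :=
  Fml.and (Fml.neg (Fml.and φ (Fml.neg ψ))) (Fml.neg (Fml.and ψ (Fml.neg φ)))

section

variable {M : Type*} [Zero M] [One M] [Add M] [Mul M] [LT M] (P : M → Prop)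

lemma sat_ball (t : Tm) (φ : Fml) (v : ℕ → M) :
    (Fml.ball t φ).Sat P v ↔ ∀ x : M, x < t.val v → φ.Sat P (cons x v) := by
  simp only [Fml.ball, Fml.Sat]
  push Not
  rfl

lemma sat_iff (φ ψ : Fml) (v : ℕ → M) :
    (Fml.iff φ ψ).Sat P v ↔ (φ.Sat P v ↔ ψ.Sat P v) := by
  simp only [Fml.iff, Fml.Sat]
  tauto

/-- `w` certifies the evaluation of row `e`, and all values of roots in row `e` are false. -/
def GS (w e b : M) : Prop :=
  0 < w ∧ P (quad w e 0 0) ∧
  (∀ m : M, m < e → ∀ y : M, y < w →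
    (P (quad w e (m + 1 + 1) y) ↔ ∃ x : M, x < b ∧ ¬ P (quad w e (m + 1) (y * b + x)))) ∧
  (∀ y : M, y < w → (P (quad w e 1 y) ↔ P (quad 0 e 0 y))) ∧
  (∀ m : M, m < e → ¬ P (quad w e (m + 1 + 1) (m + 1 + 1)))

/-- The formula for `GS`: `w` is variable `0`, `e` is variable `1`, `b` is variable `3`. -/
def GF : Fml :=
  Fml.and (Fml.lt Tm.zero (Tm.var 0)) <|
  Fml.and (Fml.rel (Tm.quad (Tm.var 0) (Tm.var 1) Tm.zero Tm.zero)) <|
  Fml.and (Fml.ball (Tm.var 1) (Fml.ball (Tm.var 1)
    (Fml.iff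
      (Fml.rel (Tm.quad (Tm.var 2) (Tm.var 3) (Tm.add (Tm.add (Tm.var 1) Tm.one) Tm.one)
        (Tm.var 0)))
      (Fml.bex (Tm.var 5) (Fml.neg (Fml.rel (Tm.quad (Tm.var 3) (Tm.var 4)
        (Tm.add (Tm.var 2) Tm.one) (Tm.add (Tm.mul (Tm.var 1) (Tm.var 6)) (Tm.var 0))))))))) <|
  Fml.and (Fml.ball (Tm.var 0) (Fml.iff
    (Fml.rel (Tm.quad (Tm.var 1) (Tm.var 2) Tm.one (Tm.var 0)))
    (Fml.rel (Tm.quad Tm.zero (Tm.var 2) Tm.zero (Tm.var 0))))) <|
  Fml.ball (Tm.var 1) (Fml.neg (Fml.rel (Tm.quad (Tm.var 1) (Tm.var 2)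
    (Tm.add (Tm.add (Tm.var 0) Tm.one) Tm.one) (Tm.add (Tm.add (Tm.var 0) Tm.one) Tm.one))))

lemma sat_GF (v : ℕ → M) : GF.Sat P v ↔ GS P (v 0) (v 1) (v 3) := by
  unfold GF GS
  simp only [Fml.Sat, sat_ball, sat_iff, Tm.val_quad, Tm.val, cons]

/-- The induction formula: `e` is variable `0`, `c` is variable `1`, `b` is variable `2`, `a` is
variable `3`. -/
def PsiF : Fml := Fml.neg (Fml.and (Fml.lt (Tm.var 0) (Tm.var 3)) (Fml.neg (Fml.bex (Tm.var 1) GF)))

lemma sat_PsiF (v : ℕ → M) : PsiF.Sat P v ↔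
    (v 0 < v 3 → ∃ w : M, w < v 1 ∧ GS P w (v 0) (v 2)) := by
  unfold PsiF
  simp only [Fml.Sat, sat_GF, Tm.val, cons, not_and, not_not]

end

section abstract

variable {M : Type*} [CommSemiring M] [LinearOrder M] [IsStrictOrderedRing M]
  [CanonicallyOrderedAdd M]
variable {K : Type*} [CommSemiring K] [LinearOrder K] [IsStrictOrderedRing K]
  [CanonicallyOrderedAdd K]

lemma std_below (hd : ∀ x : M, 0 < x → 1 ≤ x) (k : ℕ) (e : M) (he : e < k) :
    ∃ m : ℕ, e = m := by
  induction k with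
  | zero => simp at he
  | succ k ih =>
    rcases lt_or_ge e (k : M) with h | h
    · exact ih h
    · refine ⟨k, le_antisymm ?_ h⟩
      obtain ⟨d, hd'⟩ := exists_add_of_le h
      have h0 : d = 0 := by
        by_contra hne
        have h1 := hd d (pos_iff_ne_zero.2 hne)
        have h2 : (k : M) + 1 ≤ e := by rw [hd']; gcongr
        rw [Nat.cast_succ] at he
        exact absurd he (not_lt.2 h2)
      rw [hd', h0, add_zero]

lemma map_quad (j : M →+* K) (w e m y : M) : j (quad w e m y) = quad (j w) (j e) (j m) (j y) := by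
  simp only [quad, pair, map_add, map_mul]

theorem noext (P : M → Prop) (Q : K → Prop) (j : M →+* K) (hj : StrictMono j)
    (hend : ∀ (x : M) (y : K), y < j x → ∃ z, j z = y) (hPQ : ∀ x, Q (j x) ↔ P x)
    (hdM : ∀ x : M, 0 < x → 1 ≤ x) (hind : BddInduction K Q) (b a : M) (ha : ∀ k : ℕ, (k : M) < a)
    (hM1 : ∀ k : ℕ, GS P (b ^ (k + 1)) (k : M) b)
    (hM2 : ∀ e < a, (∀ k : ℕ, (k : M) ≤ e) → ∃ n : ℕ, VL P b (n + 1) e ((n : M) + 1 + 1))
    (hM3 : ∀ e, (∀ k : ℕ, (k : M) ≤ e) → ∀ w, 0 < w → ¬ P (quad w e 0 0)) :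
    Function.Surjective j := by
  by_contra hns
  unfold Function.Surjective at hns
  push Not at hns
  obtain ⟨c, hc⟩ := hns
  have hcx : ∀ x : M, j x < c := by
    intro x
    by_contra h
    rw [not_lt] at h
    rcases h.lt_or_eq with h | h
    · obtain ⟨z, hz⟩ := hend x c h
      exact hc z hz
    · exact hc x h.symm
  have hlift : ∀ w e : M, GS P w e b → GS Q (j w) (j e) (j b) := by
    rintro w e ⟨h1, h2, h3, h4, h5⟩
    refine ⟨?_, ?_, ?_, ?_, ?_⟩
    · rw [← map_zero j]; exact hj h1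
    · rw [← map_zero j, ← map_quad, hPQ]; exact h2
    · intro m hm y hy
      obtain ⟨m, rfl⟩ := hend e m hm
      obtain ⟨y, rfl⟩ := hend w y hy
      have h6 := h3 m (hj.lt_iff_lt.1 hm) y (hj.lt_iff_lt.1 hy)
      rw [← map_one j, ← map_add, ← map_add, ← map_quad, hPQ, h6]
      constructor
      · rintro ⟨x, hx, hn⟩
        refine ⟨j x, hj hx, ?_⟩
        rw [← map_mul, ← map_add, ← map_quad, hPQ]
        exact hn
      · rintro ⟨x, hx, hn⟩
        obtain ⟨x, rfl⟩ := hend b x hx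
        refine ⟨x, hj.lt_iff_lt.1 hx, ?_⟩
        rw [← map_mul, ← map_add, ← map_quad, hPQ] at hn
        exact hn
    · intro y hy
      obtain ⟨y, rfl⟩ := hend w y hy
      have h6 := h4 y (hj.lt_iff_lt.1 hy)
      rw [← map_one j, ← map_zero j, ← map_quad, ← map_quad, hPQ, hPQ]
      exact h6
    · intro m hm
      obtain ⟨m, rfl⟩ := hend e m hm
      have h6 := h5 m (hj.lt_iff_lt.1 hm)
      rw [← map_one j, ← map_add, ← map_add, ← map_quad, hPQ]
      exact h6
  have claim1 : ∀ k : ℕ, ∃ w : K, w < c ∧ GS Q w (k : K) (j b) := by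
    intro k
    refine ⟨j (b ^ (k + 1)), hcx _, ?_⟩
    have := hlift _ _ (hM1 k)
    rwa [map_natCast] at this
  have claim2 : ∀ e : M, e < a → (∀ k : ℕ, (k : M) ≤ e) → ∀ w : K, ¬ GS Q w (j e) (j b) := by
    rintro e he hns w ⟨h1, h2, h3, h4, h5⟩
    by_cases hw : ∃ w', j w' = w
    · obtain ⟨w', rfl⟩ := hw
      rw [← map_zero j] at h1 h2
      rw [← map_quad, hPQ] at h2
      exact hM3 e hns w' (hj.lt_iff_lt.1 h1) h2
    · push Not at hw
      have hwx : ∀ x : M, j x < w := by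
        intro x
        by_contra h
        rw [not_lt] at h
        rcases h.lt_or_eq with h | h
        · obtain ⟨z, hz⟩ := hend x w h
          exact hw z hz
        · exact hw x h.symm
      have hlev : ∀ (m : ℕ) (y : M), Q (quad w (j e) ((m : K) + 1) (j y)) ↔ VL P b m e y := by
        intro m
        induction m with
        | zero =>
          intro y
          have h6 := h4 (j y) (hwx y)
          rw [Nat.cast_zero, zero_add, h6]
          simp only [VL]
          rw [← map_zero j, ← map_quad, hPQ]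
        | succ m ih =>
          intro y
          have hme : (m : K) < j e := by
            have h7 := hns (m + 1)
            rw [Nat.cast_succ] at h7
            have h8 : (m : M) < e := lt_of_lt_of_le (lt_add_one _) h7
            have := hj h8
            rwa [map_natCast] at this
          have h6 := h3 (m : K) hme (j y) (hwx y)
          rw [Nat.cast_succ, h6]
          simp only [VL]
          constructor
          · rintro ⟨x, hx, hn⟩
            obtain ⟨x, rfl⟩ := hend b x hx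
            refine ⟨x, hj.lt_iff_lt.1 hx, ?_⟩
            rw [← map_mul, ← map_add, ih] at hn
            exact hn
          · rintro ⟨x, hx, hn⟩
            refine ⟨j x, hj hx, ?_⟩
            rw [← map_mul, ← map_add, ih]
            exact hn
      obtain ⟨n, hn⟩ := hM2 e he hns
      have hne : (n : K) < j e := by
        have h7 := hns (n + 1)
        rw [Nat.cast_succ] at h7
        have h8 : (n : M) < e := lt_of_lt_of_le (lt_add_one _) h7
        have := hj h8
        rwa [map_natCast] at this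
      apply h5 (n : K) hne
      have h9 := (hlev (n + 1) ((n : M) + 1 + 1)).2 hn
      rw [Nat.cast_succ] at h9
      have h10 : j ((n : M) + 1 + 1) = (n : K) + 1 + 1 := by
        rw [map_add, map_add, map_natCast, map_one]
      rw [h10] at h9
      exact h9
  set v : ℕ → K := cons c (cons (j b) (cons (j a) (fun _ => 0))) with hv
  have hPsi : ∀ x : K, PsiF.Sat Q (cons x v) ↔ (x < j a → ∃ w : K, w < c ∧ GS Q w x (j b)) := by
    intro x
    rw [sat_PsiF]
    rfl
  have hall := hind PsiF v (by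
    rw [hPsi]
    intro _
    have := claim1 0
    rwa [Nat.cast_zero] at this) (by
    intro x hx
    rw [hPsi] at hx ⊢
    intro hxa
    have hxa' : x < j a := lt_trans (lt_add_one x) hxa
    obtain ⟨e, rfl⟩ := hend a x hxa'
    have hea : e < a := hj.lt_iff_lt.1 hxa'
    by_cases hst : ∀ k : ℕ, (k : M) ≤ e
    · obtain ⟨w, _, hw⟩ := hx hxa'
      exact absurd hw (claim2 e hea hst w)
    · push Not at hst
      obtain ⟨k, hk⟩ := hst
      obtain ⟨m, rfl⟩ := std_below hdM k e hk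
      have := claim1 (m + 1)
      rw [Nat.cast_succ] at this
      rw [map_natCast]
      exact this)
  -- the predecessor of `a`
  have h1a : (1 : M) ≤ a := by
    have := (ha 1).le
    rwa [Nat.cast_one] at this
  obtain ⟨e, he⟩ := exists_add_of_le h1a
  have hea : e < a := by
    rw [he]
    exact lt_add_of_pos_left e one_pos
  have hest : ∀ k : ℕ, (k : M) ≤ e := by
    intro k
    have h1 := ha (k + 1)
    rw [Nat.cast_succ, he, add_comm 1 e] at h1
    exact (lt_of_add_lt_add_right h1).le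
  have h2 := hall (j e)
  rw [hPsi] at h2
  obtain ⟨w, _, hw⟩ := h2 (hj hea)
  exact claim2 e hea hest w hw

end abstract

section facts

variable {D : Dat} {p : ℕ → Cond D} {G : Gseq D p}

lemma aM_large (k : ℕ) : (k : MT G) < aM G := by
  rw [rep_lt_iff]
  filter_upwards [rep_nat (G := G) k, rep_mk (G := G) (fun i => i) ⟨0, G.na⟩, ev_ge (k + 1)]
    with i a1 a2 a3
  have a4 : rep (aM G) i = i := a2
  rw [a1, a4]; omega

lemma nonstd_rep {e : MT G} (he : ∀ k : ℕ, (k : MT G) ≤ e) (k : ℕ) :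
    ∀ᶠ i in (UU : Filter ℕ), k ≤ rep e i := by
  have h := he k
  rw [rep_le_iff] at h
  filter_upwards [h, rep_nat (G := G) k] with i a1 a2
  omega

lemma factM2 (e : MT G) (hea : e < aM G) (he : ∀ k : ℕ, (k : MT G) ≤ e) :
    ∃ n : ℕ, VL PM (bM G) (n + 1) e ((n : MT G) + 1 + 1) := by
  obtain ⟨n, _, hA⟩ := G.all Tm.zero (Fml.eq Tm.zero Tm.zero) [rep e] (by
    intro f hf
    simp only [List.mem_cons, List.not_mem_nil, or_false] at hf
    rw [hf]; exact rep_mem e) 0
  obtain ⟨p0, hext, h3⟩ := hA.d3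
  have hlt : ∀ᶠ i in (UU : Filter ℕ), rep e i < i := by
    rw [rep_lt_iff] at hea
    filter_upwards [hea, rep_mk (G := G) (fun i => i) ⟨0, G.na⟩] with i a1 a2
    have a4 : rep (aM G) i = i := a2
    rw [a4] at a1; exact a1
  obtain ⟨j, hj⟩ := h3 (nonstd_rep he) hlt
  refine ⟨j, ?_⟩
  set v : ℕ → MT G := cons ((j : MT G) + 1 + 1) (cons e (cons (bM G) (fun _ => 0))) with hv
  have h4 : Tr (vF (j + 1) 1 2) v := by
    refine ⟨n, fun m hm => ?_⟩
    filter_upwards [hj (p m) (hext.trans (G.ext _ _ hm)), rep_nat (G := G) j,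
      rep_add (G := G) (j : MT G) 1, rep_add (G := G) ((j : MT G) + 1) 1, rep_one (G := G),
      rep_mk (G := G) D.b ⟨0, G.nb⟩] with i a1 a2 a3 a4 a5 a6
    rw [sat_vF]
    have b0 : VV v i 0 = j + 2 := by
      simp only [VV, hv, cons]; rw [a4, a3, a2, a5]
    have b1 : VV v i 1 = rep e i := rfl
    have b2 : VV v i 2 = D.b i := a6
    rw [b0, b1, b2]
    exact (VL_nat (by have := D.two_le_b i; omega) _ _ _ _).2 a1
  have h5 := (truth _ _).2 h4
  rw [sat_vF] at h5
  exact h5

lemma factM3 (e : MT G) (he : ∀ k : ℕ, (k : MT G) ≤ e) (w : MT G) (hw : 0 < w) :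
    ¬ PM (quad w e 0 0) := by
  intro h
  set v : ℕ → MT G := cons w (cons e (fun _ => 0)) with hv
  have h1 : (Fml.rel (Tm.quad (Tm.var 0) (Tm.var 1) Tm.zero Tm.zero)).Sat PM v := h
  obtain ⟨n, hn⟩ := (truth _ _).1 h1
  obtain ⟨A, hA⟩ := nm_bd (rep_mem w)
  rw [rep_lt_iff] at hw
  obtain ⟨i, ⟨⟨⟨a1, a2⟩, a3⟩, a4⟩, a5⟩ := (((((hn n le_rfl).and hA).and hw).and
    (nonstd_rep he A)).and (rep_zero (G := G))).exists
  have a6 : wld (D.b i) (flp (D.W i) ((p n).X i)) (quad (rep w i) (rep e i) 0 0) := a1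
  rw [wld_quad] at a6
  rcases a6 with ⟨h2, _⟩ | ⟨h2, _⟩
  · omega
  · have hb := D.two_le_b i
    have h3 : D.b i ^ A < D.b i ^ (rep e i + 1) := Nat.pow_lt_pow_right (by omega) (by omega)
    omega

lemma GS_nat {b : ℕ} (hb : 0 < b) (W : ℕ × ℕ → Bool) (k : ℕ)
    (h : ∀ n, 1 ≤ n → n ≤ k → ¬ vl b W n k (n + 1)) : GS (wld b W) (b ^ (k + 1)) k b := by
  have hw : 0 < b ^ (k + 1) := Nat.pow_pos hb
  have hr : ∀ m y, Rl b W (b ^ (k + 1)) k (m + 1) y ↔ vl b W m k y := by
    intro m y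
    unfold Rl
    constructor
    · rintro (⟨h1, _⟩ | ⟨_, h1 | ⟨m', h1, h2⟩⟩)
      · omega
      · omega
      · have : m' = m := by omega
        rw [← this]; exact h2
    · intro h1
      exact Or.inr ⟨rfl, Or.inr ⟨m, rfl, h1⟩⟩
  refine ⟨hw, ?_, ?_, ?_, ?_⟩
  · rw [wld_quad]
    exact Or.inr ⟨rfl, Or.inl rfl⟩
  · intro m _ y _
    rw [wld_quad, hr]
    simp only [wld_quad, hr]
    rfl
  · intro y _
    rw [wld_quad, wld_quad]
    have h1 := hr 0 y
    rw [zero_add] at h1
    rw [h1]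
    unfold Rl vl
    have : ¬ (0 = b ^ (k + 1)) := by omega
    simp [this]
  · intro m hm
    rw [wld_quad, hr]
    exact h (m + 1) (by omega) (by omega)

lemma factM1 (k : ℕ) : GS PM (bM G ^ (k + 1)) (k : MT G) (bM G) := by
  set v : ℕ → MT G := cons (bM G ^ (k + 1)) (cons (k : MT G) (cons 0 (cons (bM G)
    (fun _ => 0)))) with hv
  have h1 : Tr GF v := by
    refine ⟨0, fun n _ => ?_⟩
    filter_upwards [rep_pow (G := G) (bM G) (k + 1), rep_nat (G := G) k,
      rep_mk (G := G) D.b ⟨0, G.nb⟩, (p n).hXr (k + 1), ev_ge (k + 1)] with i a1 a2 a3 a4 a5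
    rw [sat_GF]
    have a6 : rep (bM G) i = D.b i := a3
    have b0 : VV v i 0 = D.b i ^ (k + 1) := by
      simp only [VV, hv, cons]; rw [a1, a6]
    have b1 : VV v i 1 = k := a2
    have b3 : VV v i 3 = D.b i := a6
    rw [b0, b1, b3]
    refine GS_nat (by have := D.two_le_b i; omega) _ k (fun m hm1 hmk => ?_)
    refine (D.itf i).fls m hm1 (by omega) k (by omega) _ (fun x hx => ?_)
    have := a4 x hx
    omega
  have h2 := (truth _ _).2 h1
  rw [sat_GF] at h2
  exact h2

end facts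

/-- The main theorem. -/
theorem main_theorem : ∃ (M : Type) (_ : CommSemiring M) (_ : LinearOrder M)
    (_ : IsStrictOrderedRing M) (_ : CanonicallyOrderedAdd M) (P : M → Prop),
    Countable M ∧ (∀ x : M, 0 < x → 1 ≤ x) ∧ BddInduction M P ∧ Collection M P ∧
    ∀ (K : Type*) [CommSemiring K] [LinearOrder K] [IsStrictOrderedRing K]
      [CanonicallyOrderedAdd K] (Q : K → Prop) (j : M →+* K), StrictMono j →
      (∀ (x : M) (y : K), y < j x → ∃ z, j z = y) → (∀ x, Q (j x) ↔ P x) →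
      BddInduction K Q → Function.Surjective j := by
  obtain ⟨D⟩ := exists_dat
  obtain ⟨p, G⟩ := exists_gseq D
  refine ⟨MT G, inferInstance, inferInstance, inferInstance, inferInstance, PM, inferInstance,
    discrete, bdd_induction G, collection G, ?_⟩
  intro K _ _ _ _ Q j hj hend hPQ hind
  exact noext PM Q j hj hend hPQ discrete hind (bM G) (aM G) aM_large factM1 factM2 factM3

end Run7.h835
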