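import Mathlib

/-!
# Counting probabilities on finite product spaces
-/

set_option linter.unusedSectionVars false
set_option linter.unusedSimpArgs false

namespace Run7.h835

open Finset

open scoped Classical in
/-- The fraction of points of `Ω` with property `P`. -/
noncomputable def pr {Ω : Type*} [Fintype Ω] (P : Ω → Prop) : ℝ :=
  ((univ.filter P).card : ℝ) / (Fintype.card Ω : ℝ)

section basic

variable {Ω : Type*} [Fintype Ω]

lemma pr_eq (P : Ω → Prop) [DecidablePred P] :
    pr P = ((univ.filter P).card : ℝ) / (Fintype.card Ω : ℝ) := by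
  unfold pr
  congr 2
  congr 1
  exact Finset.filter_congr_decidable _ _ _

lemma pr_nonneg (P : Ω → Prop) : 0 ≤ pr P := by
  unfold pr; positivity

lemma pr_mono {P Q : Ω → Prop} (h : ∀ ω, P ω → Q ω) : pr P ≤ pr Q := by
  classical
  rw [pr_eq, pr_eq]
  gcongr
  exact h _

lemma pr_congr {P Q : Ω → Prop} (h : ∀ ω, P ω ↔ Q ω) : pr P = pr Q := by
  have : P = Q := funext fun ω => propext (h ω)
  rw [this]

lemma pr_or_le (P Q : Ω → Prop) : pr (fun ω => P ω ∨ Q ω) ≤ pr P + pr Q := by
  classical
  rw [pr_eq, pr_eq, pr_eq, ← add_div]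
  gcongr
  have h : (univ.filter (fun ω => P ω ∨ Q ω)) = univ.filter P ∪ univ.filter Q := by
    ext ω; simp
  have h2 := Finset.card_union_le (univ.filter P) (univ.filter Q)
  rw [← h] at h2
  exact_mod_cast h2

lemma pr_false : pr (fun _ : Ω => False) = 0 := by
  unfold pr; simp

lemma pr_eq_zero {P : Ω → Prop} (h : ∀ ω, ¬ P ω) : pr P = 0 := by
  rw [pr_congr (Q := fun _ => False) (fun ω => by simp [h ω])]
  exact pr_false

lemma pr_exists_le {ι : Type*} (s : Finset ι) (P : ι → Ω → Prop) (δ : ℝ)
    (h : ∀ i ∈ s, pr (P i) ≤ δ) : pr (fun ω => ∃ i ∈ s, P i ω) ≤ s.card * δ := by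
  classical
  induction s using Finset.induction_on with
  | empty => simp [pr_false]
  | insert a s ha ih =>
    have h1 : pr (fun ω => ∃ i ∈ insert a s, P i ω) ≤ pr (P a) + pr (fun ω => ∃ i ∈ s, P i ω) := by
      refine le_trans (pr_mono ?_) (pr_or_le _ _)
      rintro ω ⟨i, hi, hP⟩
      rcases Finset.mem_insert.1 hi with rfl | hi
      · exact Or.inl hP
      · exact Or.inr ⟨i, hi, hP⟩
    have h2 := ih (fun i hi => h i (Finset.mem_insert_of_mem hi))
    have h3 := h a (Finset.mem_insert_self a s)
    rw [Finset.card_insert_of_notMem ha]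
    push_cast
    linarith

lemma exists_of_pr_lt_one [Nonempty Ω] {P : Ω → Prop} (h : pr P < 1) : ∃ ω, ¬ P ω := by
  classical
  by_contra hc
  push Not at hc
  have : pr P = 1 := by
    unfold pr
    rw [Finset.filter_true_of_mem (fun ω _ => hc ω)]
    rw [Finset.card_univ]
    field_simp
  linarith

lemma pr_not [Nonempty Ω] (P : Ω → Prop) : pr (fun ω => ¬ P ω) = 1 - pr P := by
  classical
  rw [pr_eq, pr_eq]
  have h := Finset.card_filter_add_card_filter_not (s := (univ : Finset Ω)) P
  rw [Finset.card_univ] at h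
  have hpos : (0 : ℝ) < Fintype.card Ω := by exact_mod_cast Fintype.card_pos
  rw [eq_sub_iff_add_eq, ← add_div, div_eq_one_iff_eq hpos.ne']
  have h' : ((univ.filter P).card : ℝ) + ((univ.filter (fun ω => ¬ P ω)).card : ℝ)
      = Fintype.card Ω := by exact_mod_cast h
  linarith

lemma pr_le_one (P : Ω → Prop) : pr P ≤ 1 := by
  classical
  unfold pr
  rcases isEmpty_or_nonempty Ω with h | h
  · simp
  · have hpos : (0 : ℝ) < Fintype.card Ω := by exact_mod_cast Fintype.card_pos
    rw [div_le_one hpos]
    exact_mod_cast Finset.card_le_univ _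

end basic

section product

open scoped Classical in
/-- `ov J η ω` agrees with `η` on `J` and with `ω` off `J`. -/
noncomputable def ov {I X : Type*} (J : I → Prop) (η ω : I → X) : I → X :=
  fun i => if J i then η i else ω i

lemma ov_in {I X : Type*} {J : I → Prop} {η ω : I → X} {i : I} (h : J i) :
    ov J η ω i = η i := by
  simp [ov, h]

lemma ov_out {I X : Type*} {J : I → Prop} {η ω : I → X} {i : I} (h : ¬ J i) :
    ov J η ω i = ω i := by
  simp [ov, h]

variable {I X : Type*} [Fintype I] [DecidableEq I] [Fintype X] [Nonempty X]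

/-- The resampling involution. -/
noncomputable def swp (J : I → Prop) : ((I → X) × (I → X)) ≃ ((I → X) × (I → X)) where
  toFun p := (ov J p.1 p.2, ov J p.2 p.1)
  invFun p := (ov J p.1 p.2, ov J p.2 p.1)
  left_inv p := by
    ext i
    · by_cases h : J i <;> simp [ov, h]
    · by_cases h : J i <;> simp [ov, h]
  right_inv p := by
    ext i
    · by_cases h : J i <;> simp [ov, h]
    · by_cases h : J i <;> simp [ov, h]

lemma card_prod_fst (P : (I → X) → Prop) [DecidablePred P] :
    ((univ : Finset ((I → X) × (I → X))).filter (fun p => P p.1)).card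
      = (univ.filter P).card * Fintype.card (I → X) := by
  classical
  have : ((univ : Finset ((I → X) × (I → X))).filter (fun p => P p.1))
      = (univ.filter P) ×ˢ (univ : Finset (I → X)) := by
    ext p; simp
  rw [this, Finset.card_product, Finset.card_univ]

lemma card_ov (J : I → Prop) (P : (I → X) → Prop) [DecidablePred P] :
    ((univ : Finset ((I → X) × (I → X))).filter (fun p => P (ov J p.1 p.2))).card
      = (univ.filter P).card * Fintype.card (I → X) := by
  classical
  rw [← card_prod_fst]
  refine Finset.card_bij (fun p _ => swp J p) ?_ ?_ ?_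
  · intro p hp
    simp only [Finset.mem_filter, Finset.mem_univ, true_and] at hp ⊢
    exact hp
  · intro p _ q _ h
    exact (swp J).injective h
  · intro p hp
    simp only [Finset.mem_filter, Finset.mem_univ, true_and] at hp
    refine ⟨(swp J).symm p, ?_, by simp⟩
    simp only [Finset.mem_filter, Finset.mem_univ, true_and]
    have h : ov J ((swp J).symm p).1 ((swp J).symm p).2 = (swp J ((swp J).symm p)).1 := rfl
    rw [h, Equiv.apply_symm_apply]
    exact hp

/-- Fubini with resampling. -/
lemma pr_resample (J : I → Prop) (P : (I → X) → Prop) (δ : ℝ)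
    (h : ∀ ω, pr (fun η => P (ov J η ω)) ≤ δ) : pr P ≤ δ := by
  classical
  have hpos : (0 : ℝ) < Fintype.card (I → X) := by exact_mod_cast Fintype.card_pos
  have h1 := card_ov (X := X) J P
  have h2 : ((univ : Finset ((I → X) × (I → X))).filter (fun p => P (ov J p.1 p.2))).card
      = ∑ ω : I → X, (univ.filter (fun η => P (ov J η ω))).card := by
    rw [Finset.card_eq_sum_ones, Finset.sum_filter, Fintype.sum_prod_type_right]
    refine Finset.sum_congr rfl (fun ω _ => ?_)
    rw [Finset.card_eq_sum_ones, Finset.sum_filter]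
  have h3 : ∀ ω : I → X, ((univ.filter (fun η => P (ov J η ω))).card : ℝ)
      ≤ δ * Fintype.card (I → X) := by
    intro ω
    have := h ω
    rw [pr_eq, div_le_iff₀ hpos] at this
    exact this
  have h4 : (((univ.filter P).card * Fintype.card (I → X) : ℕ) : ℝ)
      ≤ δ * Fintype.card (I → X) * Fintype.card (I → X) := by
    rw [← h1, h2]
    push_cast
    calc (∑ ω : I → X, ((univ.filter (fun η => P (ov J η ω))).card : ℝ))
        ≤ ∑ ω : I → X, δ * Fintype.card (I → X) := Finset.sum_le_sum (fun ω _ => h3 ω)
      _ = δ * Fintype.card (I → X) * Fintype.card (I → X) := by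
        rw [Finset.sum_const, Finset.card_univ]; simp only [nsmul_eq_mul]; ring
  push_cast at h4
  rw [pr_eq, div_le_iff₀ hpos]
  exact le_of_mul_le_mul_right h4 hpos

/-- Independence of events with disjoint supports. -/
lemma pr_indep (J : I → Prop) (A B : (I → X) → Prop)
    (hA : ∀ ω ω' : I → X, (∀ i, J i → ω i = ω' i) → (A ω ↔ A ω'))
    (hB : ∀ ω ω' : I → X, (∀ i, ¬ J i → ω i = ω' i) → (B ω ↔ B ω')) :
    pr (fun ω => A ω ∧ B ω) = pr A * pr B := by
  classical
  have hpos : (0 : ℝ) < Fintype.card (I → X) := by exact_mod_cast Fintype.card_pos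
  have h1 := card_ov (X := X) J (fun ω => A ω ∧ B ω)
  have h2 : ((univ : Finset ((I → X) × (I → X))).filter
      (fun p => A (ov J p.1 p.2) ∧ B (ov J p.1 p.2)))
      = (univ.filter A) ×ˢ (univ.filter B) := by
    ext p
    simp only [Finset.mem_filter, Finset.mem_univ, true_and, Finset.mem_product]
    rw [hA (ov J p.1 p.2) p.1 (fun i hi => ov_in hi),
      hB (ov J p.1 p.2) p.2 (fun i hi => ov_out hi)]
  rw [h2, Finset.card_product] at h1
  rw [pr_eq, pr_eq, pr_eq]
  have h3 : (((univ.filter A).card * (univ.filter B).card : ℕ) : ℝ)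
      = (((univ.filter (fun ω => A ω ∧ B ω)).card * Fintype.card (I → X) : ℕ) : ℝ) := by
    rw [h1]
  push_cast at h3
  field_simp
  linarith

/-- `A` depends only on the coordinates in `J`. -/
def DepOn (J : Finset I) (A : (I → X) → Prop) : Prop :=
  ∀ ω ω' : I → X, (∀ i ∈ J, ω i = ω' i) → (A ω ↔ A ω')

lemma pr_true [Nonempty I] : pr (fun _ : I → X => True) = 1 := by
  classical
  have hpos : (0 : ℝ) < Fintype.card (I → X) := by exact_mod_cast Fintype.card_pos
  unfold pr
  simp only [Finset.filter_true, Finset.card_univ]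
  exact div_self hpos.ne'

lemma pr_forall_step {ι : Type*} [DecidableEq ι] (a : ι) (s : Finset ι) (ha : a ∉ s)
    (A : ι → (I → X) → Prop)
    (J : ι → Finset I) (hJ : ∀ i ∈ insert a s, DepOn (J i) (A i))
    (hd : ∀ i ∈ insert a s, ∀ j ∈ insert a s, i ≠ j → Disjoint (J i) (J j)) :
    pr (fun ω => ∀ i ∈ insert a s, A i ω) = pr (A a) * pr (fun ω => ∀ i ∈ s, A i ω) := by
  rw [← pr_indep (fun i => i ∈ J a) (A a) (fun ω => ∀ i ∈ s, A i ω)]
  · refine pr_congr (fun ω => ?_)
    simp [Finset.forall_mem_insert]
  · intro ω ω' h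
    exact hJ a (Finset.mem_insert_self a s) ω ω' h
  · intro ω ω' h
    refine forall₂_congr (fun i hi => ?_)
    refine hJ i (Finset.mem_insert_of_mem hi) ω ω' (fun k hk => h k ?_)
    have hai : a ≠ i := fun h => ha (h ▸ hi)
    have := hd a (Finset.mem_insert_self a s) i (Finset.mem_insert_of_mem hi) hai
    exact fun hk' => (Finset.disjoint_left.1 this) hk' hk

lemma pr_forall_le {ι : Type*} (s : Finset ι)
    (A : ι → (I → X) → Prop) (J : ι → Finset I) (p : ℝ)
    (hJ : ∀ i ∈ s, DepOn (J i) (A i))
    (hd : ∀ i ∈ s, ∀ j ∈ s, i ≠ j → Disjoint (J i) (J j))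
    (hp : ∀ i ∈ s, pr (A i) ≤ p) :
    pr (fun ω => ∀ i ∈ s, A i ω) ≤ p ^ s.card := by
  classical
  induction s using Finset.induction_on with
  | empty => simpa using pr_le_one _
  | insert a s ha ih =>
    rw [pr_forall_step a s ha A J hJ hd, Finset.card_insert_of_notMem ha, pow_succ, mul_comm]
    refine mul_le_mul ?_ (hp a (Finset.mem_insert_self a s)) (pr_nonneg _) ?_
    · exact ih (fun i hi => hJ i (Finset.mem_insert_of_mem hi))
        (fun i hi j hj => hd i (Finset.mem_insert_of_mem hi) j (Finset.mem_insert_of_mem hj))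
        (fun i hi => hp i (Finset.mem_insert_of_mem hi))
    · have : 0 ≤ p := le_trans (pr_nonneg _) (hp a (Finset.mem_insert_self a s))
      positivity

lemma pr_forall_ge {ι : Type*} (s : Finset ι)
    (A : ι → (I → X) → Prop) (J : ι → Finset I) (p : ℝ) (hp0 : 0 ≤ p)
    (hJ : ∀ i ∈ s, DepOn (J i) (A i))
    (hd : ∀ i ∈ s, ∀ j ∈ s, i ≠ j → Disjoint (J i) (J j))
    (hp : ∀ i ∈ s, p ≤ pr (A i)) :
    p ^ s.card ≤ pr (fun ω => ∀ i ∈ s, A i ω) := by
  classical
  induction s using Finset.induction_on with
  | empty =>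
    have hpos : (0 : ℝ) < Fintype.card (I → X) := by exact_mod_cast Fintype.card_pos
    unfold pr
    simp only [Finset.notMem_empty, IsEmpty.forall_iff, implies_true, Finset.filter_true,
      Finset.card_univ, Finset.card_empty, pow_zero]
    rw [div_self hpos.ne']
  | insert a s ha ih =>
    rw [pr_forall_step a s ha A J hJ hd, Finset.card_insert_of_notMem ha, pow_succ, mul_comm]
    refine mul_le_mul (hp a (Finset.mem_insert_self a s)) ?_ (by positivity) (pr_nonneg _)
    exact ih (fun i hi => hJ i (Finset.mem_insert_of_mem hi))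
        (fun i hi j hj => hd i (Finset.mem_insert_of_mem hi) j (Finset.mem_insert_of_mem hj))
        (fun i hi => hp i (Finset.mem_insert_of_mem hi))

/-- Single-coordinate marginal. -/
lemma pr_single (i : I) (C : X → Prop) : pr (fun ω : I → X => C (ω i)) = pr C := by
  classical
  have h1 : (univ.filter (fun ω : I → X => C (ω i)))
      = Fintype.piFinset (fun k => if k = i then univ.filter C else univ) := by
    ext ω
    simp only [Finset.mem_filter, Finset.mem_univ, true_and, Fintype.mem_piFinset]
    constructor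
    · intro h k
      by_cases hk : k = i
      · subst hk; simpa using h
      · simp [hk]
    · intro h
      simpa using h i
  have h2 : ((univ.filter (fun ω : I → X => C (ω i))).card : ℝ) * Fintype.card X
      = (univ.filter C).card * Fintype.card (I → X) := by
    rw [h1, Fintype.card_piFinset]
    have h3 : (∏ k : I, (if k = i then univ.filter C else (univ : Finset X)).card)
        = (univ.filter C).card * (Fintype.card X) ^ (Fintype.card I - 1) := by
      rw [← Finset.mul_prod_erase univ _ (Finset.mem_univ i)]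
      simp only [if_true]
      congr 1
      rw [Finset.prod_congr rfl (g := fun _ => Fintype.card X)]
      · rw [Finset.prod_const, Finset.card_erase_of_mem (Finset.mem_univ i), Finset.card_univ]
      · intro k hk
        rw [if_neg (Finset.ne_of_mem_erase hk), Finset.card_univ]
    rw [h3, Fintype.card_fun]
    have hI : 0 < Fintype.card I := Fintype.card_pos_iff.2 ⟨i⟩
    have h4 : (Fintype.card X) ^ (Fintype.card I) =
        (Fintype.card X) ^ (Fintype.card I - 1) * Fintype.card X := by
      rw [← pow_succ]; congr 1; omega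
    rw [h4]; push_cast; ring
  have hpos : (0 : ℝ) < Fintype.card (I → X) := by exact_mod_cast Fintype.card_pos
  have hpos' : (0 : ℝ) < Fintype.card X := by exact_mod_cast Fintype.card_pos
  rw [pr_eq, pr_eq, div_eq_div_iff hpos.ne' hpos'.ne']
  exact h2

end product

end Run7.h835
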