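import Pool.Agent.Run7.h835.Prob

/-!
# A switching lemma for block restrictions
-/

set_option linter.unusedSectionVars false
set_option linter.unusedSimpArgs false

namespace Run7.h835

open Finset

/-- Small certificates at every point. -/
def Cert {V : Type*} (f : (V → Bool) → Prop) (t : ℕ) : Prop :=
  ∀ z, ∃ S : Finset V, S.card ≤ t ∧ ∀ z' : V → Bool, (∀ v ∈ S, z' v = z v) → (f z' ↔ f z)

/-- Small certificates at every true point. -/
def Dnf {V : Type*} (f : (V → Bool) → Prop) (c : ℕ) : Prop :=
  ∀ z, f z → ∃ S : Finset V, S.card ≤ c ∧ ∀ z' : V → Bool, (∀ v ∈ S, z' v = z v) → f z'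

lemma Cert.mono {V : Type*} {f : (V → Bool) → Prop} {s t : ℕ} (h : Cert f s) (hst : s ≤ t) :
    Cert f t := fun z => by
  obtain ⟨S, hS, h2⟩ := h z
  exact ⟨S, hS.trans hst, h2⟩

lemma Cert.dnf {V : Type*} {f : (V → Bool) → Prop} {t : ℕ} (h : Cert f t) : Dnf f t := by
  intro z hz
  obtain ⟨S, hS, h2⟩ := h z
  exact ⟨S, hS, fun z' hz' => (h2 z' hz').2 hz⟩

lemma cert_of_const {V : Type*} {f : (V → Bool) → Prop} (h : ∀ z z', f z ↔ f z') (t : ℕ) :
    Cert f t := fun _ => ⟨∅, by simp, fun _ _ => h _ _⟩

section SL

variable {V U I : Type*} [Fintype I] [DecidableEq I] [DecidableEq U] [DecidableEq V] {L : ℕ}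

/-- The block restriction given by the sample `ω`. -/
def EE (par : V → U) (kap : U → I) (lam : V → I) (G : V → Bool → Bool) (ω : I → Fin L × Bool)
    (z : U → Bool) (v : V) : Bool :=
  if ((ω (kap (par v))).1 : ℕ) = 0 then G v (z (par v)) else (ω (lam v)).2

/-- The failure bound. -/
noncomputable def dl (r q : ℕ) : ℕ → ℝ
  | 0 => 0
  | c + 1 => (1 - (1 / 4 : ℝ) ^ (c + 1)) ^ q + (((c + 1 : ℕ) : ℝ) / q) ^ (r + 1) + 2 ^ r * dl r q c

/-- A term of width at most `c`. -/
def IsTerm (f : (V → Bool) → Prop) (c : ℕ) (S : Finset V) (p : V → Bool) : Prop :=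
  S.card ≤ c ∧ ∀ z : V → Bool, (∀ v ∈ S, z v = p v) → f z

lemma dich (par : V → U) (f : (V → Bool) → Prop) (c q : ℕ) :
    (∃ T : ℕ → Finset V × (V → Bool), (∀ i < q, IsTerm f c (T i).1 (T i).2) ∧
      ∀ i < q, ∀ j < q, i ≠ j → Disjoint ((T i).1.image par) ((T j).1.image par)) ∨
    ∃ H : Finset U, H.card ≤ c * q ∧ ∀ S p, IsTerm f c S p → ∃ v ∈ S, par v ∈ H := by
  induction q with
  | zero => left; exact ⟨fun _ => (∅, fun _ => true), by simp, by simp⟩
  | succ q ih =>
    rcases ih with ⟨T, hT, hd⟩ | ⟨H, hH, h2⟩
    · by_cases hc : ∀ S p, IsTerm f c S p → ∃ v ∈ S, par v ∈ (Finset.range q).biUnion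
          (fun i => (T i).1.image par)
      · right
        refine ⟨_, ?_, hc⟩
        calc _ ≤ ∑ i ∈ Finset.range q, ((T i).1.image par).card := Finset.card_biUnion_le
          _ ≤ ∑ i ∈ Finset.range q, c := Finset.sum_le_sum (fun i hi =>
              Finset.card_image_le.trans (hT i (Finset.mem_range.1 hi)).1)
          _ = q * c := by simp
          _ ≤ c * (q + 1) := by nlinarith
      · left
        push Not at hc
        obtain ⟨S, p, hSp, hn⟩ := hc
        refine ⟨Function.update T q (S, p), ?_, ?_⟩
        · intro i hi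
          by_cases hiq : i = q
          · subst hiq; simpa using hSp
          · rw [Function.update_of_ne hiq]
            exact hT i (by omega)
        · have key : ∀ i < q, Disjoint ((T i).1.image par) (S.image par) := by
            intro i hi
            rw [Finset.disjoint_right]
            intro u hu hu2
            obtain ⟨v, hv, rfl⟩ := Finset.mem_image.1 hu
            exact hn v hv (Finset.mem_biUnion.2 ⟨i, Finset.mem_range.2 hi, hu2⟩)
          intro i hi j hj hij
          by_cases hiq : i = q
          · subst hiq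
            have hj' : j ≠ i := fun h => hij h.symm
            rw [Function.update_self, Function.update_of_ne hj']
            exact (key j (by omega)).symm
          · rw [Function.update_of_ne hiq]
            by_cases hjq : j = q
            · subst hjq
              rw [Function.update_self]
              exact key i (by omega)
            · rw [Function.update_of_ne hjq]
              exact hd i (by omega) j (by omega) hij
    · right
      exact ⟨H, hH.trans (by nlinarith), h2⟩

end SL

section prX

variable {L : ℕ}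

lemma prX_bit (hL : 1 ≤ L) (β : Bool) : pr (fun x : Fin L × Bool => x.2 = β) = 1 / 2 := by
  classical
  rw [pr_eq]
  have h1 : (univ.filter (fun x : Fin L × Bool => x.2 = β)) = (univ : Finset (Fin L)) ×ˢ {β} := by
    ext x
    simp only [Finset.mem_filter, Finset.mem_univ, true_and, Finset.mem_product,
      Finset.mem_singleton]
  rw [h1, Finset.card_product]
  simp only [Finset.card_univ, Fintype.card_fin, Finset.card_singleton, Fintype.card_prod,
    Fintype.card_bool]
  have : (0 : ℝ) < L := by exact_mod_cast hL
  push_cast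
  field_simp

lemma prX_zero (hL : 1 ≤ L) : pr (fun x : Fin L × Bool => (x.1 : ℕ) = 0) = 1 / L := by
  classical
  rw [pr_eq]
  have h1 : (univ.filter (fun x : Fin L × Bool => (x.1 : ℕ) = 0))
      = {(⟨0, hL⟩ : Fin L)} ×ˢ (univ : Finset Bool) := by
    ext x
    simp only [Finset.mem_filter, Finset.mem_univ, true_and, Finset.mem_product,
      Finset.mem_singleton, and_true, Fin.ext_iff]
  rw [h1, Finset.card_product]
  simp only [Finset.card_univ, Fintype.card_fin, Finset.card_singleton, Fintype.card_prod,
    Fintype.card_bool]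
  have : (0 : ℝ) < L := by exact_mod_cast hL
  push_cast
  field_simp

end prX

section SLmain

variable {V U I : Type*} [Fintype I] [DecidableEq I] [DecidableEq U] [DecidableEq V] {L : ℕ}

/-- The sample `ω` forces the pattern `p` on `S`. -/
def Frc (par : V → U) (kap : U → I) (lam : V → I) (S : Finset V) (p : V → Bool)
    (ω : I → Fin L × Bool) : Prop :=
  ∀ v ∈ S, ((ω (kap (par v))).1 : ℕ) ≠ 0 ∧ (ω (lam v)).2 = p v

lemma sat_prob (par : V → U) {kap : U → I} {lam : V → I} (hL : 2 ≤ L)
    (hl : Function.Injective lam)
    (hd : ∀ u v, kap u ≠ lam v) (S : Finset V) (p : V → Bool) (c : ℕ) (hS : S.card ≤ c) :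
    (1 / 4 : ℝ) ^ c ≤ pr (Frc par kap lam S p (L := L)) := by
  classical
  haveI : Nonempty (Fin L) := ⟨⟨0, by omega⟩⟩
  have hLr : (2 : ℝ) ≤ L := by exact_mod_cast hL
  set J : Finset I := (S.image par).image kap ∪ S.image lam with hJ
  set C : I → Fin L × Bool → Prop := fun i x =>
    (∀ u, kap u = i → (x.1 : ℕ) ≠ 0) ∧ (∀ v, lam v = i → x.2 = p v) with hC
  have hCp : ∀ i, (1 / 2 : ℝ) ≤ pr (C i) := by
    intro i
    by_cases h1 : ∃ u, kap u = i
    · obtain ⟨u, rfl⟩ := h1
      have : pr (C (kap u)) = pr (fun x : Fin L × Bool => ¬ ((x.1 : ℕ) = 0)) := by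
        refine pr_congr (fun x => ?_)
        simp only [hC]
        constructor
        · intro h; exact h.1 u rfl
        · intro h
          exact ⟨fun _ _ => h, fun v hv => absurd hv.symm (hd u v)⟩
      rw [this, pr_not, prX_zero (by omega)]
      have : (1 : ℝ) / L ≤ 1 / 2 := by
        apply one_div_le_one_div_of_le <;> linarith
      linarith
    · by_cases h2 : ∃ v, lam v = i
      · obtain ⟨v, rfl⟩ := h2
        have : pr (C (lam v)) = pr (fun x : Fin L × Bool => x.2 = p v) := by
          refine pr_congr (fun x => ?_)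
          simp only [hC]
          constructor
          · intro h; exact h.2 v rfl
          · intro h
            refine ⟨fun u hu => absurd ⟨u, hu⟩ h1, fun v' hv' => ?_⟩
            rw [hl hv']; exact h
        rw [this, prX_bit (by omega)]
      · have : pr (C i) = pr (fun x : Fin L × Bool => ¬ False) := by
          refine pr_congr (fun x => ?_)
          simp only [hC, not_false_eq_true, iff_true]
          exact ⟨fun u hu => absurd ⟨u, hu⟩ h1, fun v hv => absurd ⟨v, hv⟩ h2⟩
        rw [this, pr_not, pr_false]; norm_num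
  have h1 : (1 / 2 : ℝ) ^ J.card ≤ pr (fun ω : I → Fin L × Bool => ∀ i ∈ J, C i (ω i)) := by
    refine pr_forall_ge J (fun i ω => C i (ω i)) (fun i => {i}) (1 / 2) (by norm_num) ?_ ?_ ?_
    · intro i _ ω ω' h
      simp only
      rw [h i (Finset.mem_singleton_self i)]
    · intro i _ j _ hij
      simpa using hij
    · intro i _
      rw [pr_single i (C i)]
      exact hCp i
  have h2 : J.card ≤ 2 * c := by
    have := Finset.card_union_le ((S.image par).image kap) (S.image lam)
    have h3 : ((S.image par).image kap).card ≤ S.card :=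
      Finset.card_image_le.trans Finset.card_image_le
    have h4 : (S.image lam).card ≤ S.card := Finset.card_image_le
    rw [← hJ] at this
    omega
  calc (1 / 4 : ℝ) ^ c = (1 / 2 : ℝ) ^ (2 * c) := by rw [pow_mul]; norm_num
    _ ≤ (1 / 2 : ℝ) ^ J.card := pow_le_pow_of_le_one (by norm_num) (by norm_num) h2
    _ ≤ _ := h1
    _ ≤ _ := by
      refine pr_mono (fun ω h => ?_)
      intro v hv
      constructor
      · have := h (kap (par v)) (Finset.mem_union_left _
          (Finset.mem_image_of_mem _ (Finset.mem_image_of_mem _ hv)))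
        exact this.1 _ rfl
      · have := h (lam v) (Finset.mem_union_right _ (Finset.mem_image_of_mem _ hv))
        exact this.2 _ rfl

lemma caseA (par : V → U) {kap : U → I} {lam : V → I} (hL : 2 ≤ L)
    (hk : Function.Injective kap) (hl : Function.Injective lam)
    (hd : ∀ u v, kap u ≠ lam v) (f : (V → Bool) → Prop) (c q : ℕ)
    (T : ℕ → Finset V × (V → Bool)) (hT : ∀ i < q, IsTerm f c (T i).1 (T i).2)
    (hdj : ∀ i < q, ∀ j < q, i ≠ j → Disjoint ((T i).1.image par) ((T j).1.image par)) :
    pr (fun ω : I → Fin L × Bool => ∀ i ∈ Finset.range q, ¬ Frc par kap lam (T i).1 (T i).2 ω)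
      ≤ (1 - (1 / 4 : ℝ) ^ c) ^ q := by
  classical
  haveI : Nonempty (Fin L) := ⟨⟨0, by omega⟩⟩
  have := pr_forall_le (X := Fin L × Bool) (Finset.range q)
    (fun i ω => ¬ Frc par kap lam (T i).1 (T i).2 ω)
    (fun i => ((T i).1.image par).image kap ∪ (T i).1.image lam) (1 - (1 / 4 : ℝ) ^ c) ?_ ?_ ?_
  · simpa using this
  · intro i hi ω ω' h
    unfold Frc
    refine not_congr (forall₂_congr (fun v hv => ?_))
    rw [h (kap (par v)) (Finset.mem_union_left _
          (Finset.mem_image_of_mem _ (Finset.mem_image_of_mem _ hv))),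
      h (lam v) (Finset.mem_union_right _ (Finset.mem_image_of_mem _ hv))]
  · intro i hi j hj hij
    have hdd := hdj i (Finset.mem_range.1 hi) j (Finset.mem_range.1 hj) hij
    rw [Finset.disjoint_left]
    intro k hk1 hk2
    rw [Finset.mem_union] at hk1 hk2
    rcases hk1 with hk1 | hk1 <;> rcases hk2 with hk2 | hk2
    · obtain ⟨u, hu, rfl⟩ := Finset.mem_image.1 hk1
      obtain ⟨u', hu', he⟩ := Finset.mem_image.1 hk2
      have : u' = u := hk he
      subst this
      exact Finset.disjoint_left.1 hdd hu hu'
    · obtain ⟨u, hu, rfl⟩ := Finset.mem_image.1 hk1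
      obtain ⟨v, hv, he⟩ := Finset.mem_image.1 hk2
      exact hd u v he.symm
    · obtain ⟨v, hv, rfl⟩ := Finset.mem_image.1 hk1
      obtain ⟨u, hu, he⟩ := Finset.mem_image.1 hk2
      exact hd u v he
    · obtain ⟨v, hv, rfl⟩ := Finset.mem_image.1 hk1
      obtain ⟨v', hv', he⟩ := Finset.mem_image.1 hk2
      have : v' = v := hl he
      subst this
      exact Finset.disjoint_left.1 hdd (Finset.mem_image_of_mem _ hv)
        (Finset.mem_image_of_mem _ hv')
  · intro i hi
    have h1 := sat_prob (L := L) par hL hl hd (T i).1 (T i).2 c (hT i (Finset.mem_range.1 hi)).1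
    have h2 := pr_not (Frc par kap lam (T i).1 (T i).2 (L := L))
    linarith

lemma few_prob {kap : U → I} (hL : 2 ≤ L) (hk : Function.Injective kap) (H : Finset U) (r : ℕ) :
    pr (fun ω : I → Fin L × Bool => r < (H.filter (fun u => ((ω (kap u)).1 : ℕ) = 0)).card)
      ≤ ((H.card : ℝ) / L) ^ (r + 1) := by
  classical
  haveI : Nonempty (Fin L) := ⟨⟨0, by omega⟩⟩
  have hLr : (0 : ℝ) < L := by exact_mod_cast (by omega : 0 < L)
  have h1 : pr (fun ω : I → Fin L × Bool => r < (H.filter (fun u => ((ω (kap u)).1 : ℕ) = 0)).card)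
      ≤ pr (fun ω : I → Fin L × Bool => ∃ T ∈ Finset.powersetCard (r + 1) H,
        ∀ u ∈ T, ((ω (kap u)).1 : ℕ) = 0) := by
    refine pr_mono (fun ω h => ?_)
    obtain ⟨T, hT, hc⟩ := Finset.exists_subset_card_eq (Nat.succ_le_of_lt h)
    refine ⟨T, Finset.mem_powersetCard.2 ⟨hT.trans (Finset.filter_subset _ _), hc⟩, ?_⟩
    intro u hu
    exact (Finset.mem_filter.1 (hT hu)).2
  have h2 := pr_exists_le (Ω := I → Fin L × Bool) (Finset.powersetCard (r + 1) H)
    (fun T ω => ∀ u ∈ T, ((ω (kap u)).1 : ℕ) = 0) ((1 / (L : ℝ)) ^ (r + 1)) ?_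
  · refine (h1.trans h2).trans ?_
    rw [Finset.card_powersetCard, div_pow, div_pow, one_pow]
    rw [mul_one_div]
    gcongr
    exact_mod_cast Nat.choose_le_pow H.card (r + 1)
  · intro T hT
    have hc := (Finset.mem_powersetCard.1 hT).2
    have := pr_forall_le (X := Fin L × Bool) T (fun u ω => ((ω (kap u)).1 : ℕ) = 0)
      (fun u => {kap u}) (1 / (L : ℝ)) ?_ ?_ ?_
    · rwa [hc] at this
    · intro u _ ω ω' h
      simp only
      rw [h _ (Finset.mem_singleton_self _)]
    · intro u _ u' _ huu
      simp only [Finset.disjoint_singleton]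
      exact fun h => huu (hk h)
    · intro u _
      rw [pr_single (kap u) (fun x : Fin L × Bool => (x.1 : ℕ) = 0), prX_zero (by omega)]

lemma dl_nonneg (r q c : ℕ) : 0 ≤ dl r q c := by
  induction c with
  | zero => simp [dl]
  | succ c ih =>
    unfold dl
    have : (1 / 4 : ℝ) ^ (c + 1) ≤ 1 := pow_le_one₀ (by norm_num) (by norm_num)
    have : 0 ≤ 1 - (1 / 4 : ℝ) ^ (c + 1) := by linarith
    positivity

theorem switching (par : V → U) {kap : U → I} {lam : V → I} {q : ℕ} (hq : 2 ≤ q)
    (hLq : L = q ^ 2) (hk : Function.Injective kap) (hl : Function.Injective lam)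
    (hd : ∀ u v, kap u ≠ lam v) (G : V → Bool → Bool) (r : ℕ) :
    ∀ (c : ℕ) (f : (V → Bool) → Prop), Dnf f c →
      pr (fun ω : I → Fin L × Bool => ¬ Cert (fun z => f (EE par kap lam G ω z)) (r * c))
        ≤ dl r q c := by
  classical
  have hL : 2 ≤ L := by rw [hLq]; nlinarith
  haveI : Nonempty (Fin L) := ⟨⟨0, by omega⟩⟩
  intro c
  induction c with
  | zero =>
    intro f hf
    have hconst : ∀ z z', f z ↔ f z' := by
      have h1 : ∀ z z', f z → f z' := by
        intro z z' hz
        obtain ⟨S, hS, h2⟩ := hf z hz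
        have : S = ∅ := by simpa using hS
        subst this
        exact h2 z' (by simp)
      exact fun z z' => ⟨h1 z z', h1 z' z⟩
    rw [pr_eq_zero]
    · simp [dl]
    · intro ω
      rw [not_not]
      exact cert_of_const (fun z z' => hconst _ _) _
  | succ c ih =>
    intro f hf
    rcases dich par f (c + 1) q with ⟨T, hT, hdj⟩ | ⟨H, hH, hterm⟩
    · -- many disjoint terms
      have h1 := caseA (L := L) par hL hk hl hd f (c + 1) q T hT hdj
      have h2 : pr (fun ω : I → Fin L × Bool =>
          ¬ Cert (fun z => f (EE par kap lam G ω z)) (r * (c + 1)))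
          ≤ (1 - (1 / 4 : ℝ) ^ (c + 1)) ^ q := by
        refine (pr_mono (fun ω hω => ?_)).trans h1
        intro i hi hF
        apply hω
        have hall : ∀ z, f (EE par kap lam G ω z) := by
          intro z
          refine (hT i (Finset.mem_range.1 hi)).2 _ (fun v hv => ?_)
          obtain ⟨h3, h4⟩ := hF v hv
          simp only [EE, if_neg h3, h4]
        exact cert_of_const (fun z z' => ⟨fun _ => hall z', fun _ => hall z⟩) _
      refine h2.trans ?_
      have := dl_nonneg r q c
      simp only [dl]
      have h5 : (0 : ℝ) ≤ ((c + 1 : ℕ) / (q : ℝ)) ^ (r + 1) := by positivity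
      have h6 : (0 : ℝ) ≤ 2 ^ r * dl r q c := by positivity
      linarith
    · -- small hitting set
      set Few : (I → Fin L × Bool) → Prop := fun ω =>
        (H.filter (fun u => ((ω (kap u)).1 : ℕ) = 0)).card ≤ r with hFew
      have h1 : pr (fun ω : I → Fin L × Bool => ¬ Few ω) ≤ (((c + 1 : ℕ) : ℝ) / q) ^ (r + 1) := by
        have h2 := few_prob (I := I) hL hk H r
        have h3 : pr (fun ω : I → Fin L × Bool => ¬ Few ω) = pr (fun ω : I → Fin L × Bool =>
            r < (H.filter (fun u => ((ω (kap u)).1 : ℕ) = 0)).card) :=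
          pr_congr (fun ω => by simp [hFew])
        rw [h3]
        refine h2.trans ?_
        have hq0 : (0 : ℝ) < q := by exact_mod_cast (by omega : 0 < q)
        apply pow_le_pow_left₀ (by positivity)
        rw [hLq]
        push_cast
        rw [div_le_div_iff₀ (by positivity) hq0]
        have : (H.card : ℝ) ≤ ((c + 1 : ℕ) : ℝ) * q := by exact_mod_cast hH
        push_cast at this
        nlinarith
      -- the assignments on the hitting set
      set J : I → Prop := fun i => ¬ ((∃ u ∈ H, kap u = i) ∨ ∃ v, par v ∈ H ∧ lam v = i) with hJ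
      set ft : (I → Fin L × Bool) → Finset U → (V → Bool) → Prop := fun ω τ z =>
        f (fun v => if par v ∈ H then EE par kap lam G ω (fun u => decide (u ∈ τ)) v else z v)
        with hft
      have hftD : ∀ ω τ, Dnf (ft ω τ) c := by
        intro ω τ z hz
        obtain ⟨S, hS, h2⟩ := hf _ hz
        obtain ⟨v0, hv0, hv0H⟩ := hterm S _ ⟨hS, h2⟩
        refine ⟨S.filter (fun v => par v ∉ H), ?_, ?_⟩
        · have : S.filter (fun v => par v ∉ H) ⊆ S.erase v0 := by
            intro v hv
            rw [Finset.mem_filter] at hv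
            refine Finset.mem_erase.2 ⟨?_, hv.1⟩
            rintro rfl
            exact hv.2 hv0H
          have h3 := Finset.card_le_card this
          rw [Finset.card_erase_of_mem hv0] at h3
          omega
        · intro z' hz'
          refine h2 _ (fun v hv => ?_)
          by_cases hvH : par v ∈ H
          · simp [hvH]
          · simp only [hvH, if_false]
            exact hz' v (Finset.mem_filter.2 ⟨hv, hvH⟩)
      have h2 : pr (fun ω : I → Fin L × Bool => Few ω ∧
          ¬ Cert (fun z => f (EE par kap lam G ω z)) (r * (c + 1))) ≤ 2 ^ r * dl r q c := by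
        refine pr_resample J _ _ (fun ω => ?_)
        by_cases hFw : Few ω
        · set A := H.filter (fun u => ((ω (kap u)).1 : ℕ) = 0) with hA
          have hAc : A.card ≤ r := hFw
          have h3 : pr (fun η : I → Fin L × Bool => ∃ τ ∈ A.powerset,
              ¬ Cert (fun z => ft ω τ (EE par kap lam G η z)) (r * c))
              ≤ (A.powerset.card : ℝ) * dl r q c :=
            pr_exists_le A.powerset _ _ (fun τ _ => ih (ft ω τ) (hftD ω τ))
          have h4 : (A.powerset.card : ℝ) ≤ 2 ^ r := by
            rw [Finset.card_powerset]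
            push_cast
            exact pow_le_pow_right₀ (by norm_num) hAc
          have h5 : (A.powerset.card : ℝ) * dl r q c ≤ 2 ^ r * dl r q c :=
            mul_le_mul_of_nonneg_right h4 (dl_nonneg r q c)
          refine (pr_mono (fun η hη => ?_)).trans (h3.trans h5)
          by_contra hc
          push Not at hc
          apply hη.2
          intro z
          set τ := A.filter (fun u => z u = true) with hτ
          obtain ⟨S', hS', h6⟩ := hc τ (Finset.mem_powerset.2 (Finset.filter_subset _ _)) z
          -- key identity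
          have key : ∀ z' : U → Bool, (∀ u ∈ A, z' u = z u) →
              EE par kap lam G (ov J η ω) z' = (fun v => if par v ∈ H then
                EE par kap lam G ω (fun u => decide (u ∈ τ)) v else EE par kap lam G η z' v) := by
            intro z' hz'
            funext v
            by_cases hv : par v ∈ H
            · simp only [hv, if_true]
              have e1 : ov J η ω (kap (par v)) = ω (kap (par v)) :=
                ov_out (by simp only [hJ, not_not]; exact Or.inl ⟨_, hv, rfl⟩)
              have e2 : ov J η ω (lam v) = ω (lam v) :=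
                ov_out (by simp only [hJ, not_not]; exact Or.inr ⟨_, hv, rfl⟩)
              simp only [EE, e1, e2]
              by_cases h0 : ((ω (kap (par v))).1 : ℕ) = 0
              · simp only [h0, if_true]
                have hvA : par v ∈ A := Finset.mem_filter.2 ⟨hv, h0⟩
                have hm : par v ∈ τ ↔ z (par v) = true := by
                  rw [hτ, Finset.mem_filter]
                  exact ⟨fun h => h.2, fun h => ⟨hvA, h⟩⟩
                have : z' (par v) = decide (par v ∈ τ) := by
                  rw [hz' _ hvA]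
                  simp [hm]
                rw [this]
              · simp only [h0, if_false]
            · simp only [hv, if_false]
              have e1 : ov J η ω (kap (par v)) = η (kap (par v)) := by
                apply ov_in
                simp only [hJ]
                rintro (⟨u, hu, he⟩ | ⟨v', hv', he⟩)
                · exact hv (hk he ▸ hu)
                · exact hd _ _ he.symm
              have e2 : ov J η ω (lam v) = η (lam v) := by
                apply ov_in
                simp only [hJ]
                rintro (⟨u, hu, he⟩ | ⟨v', hv', he⟩)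
                · exact hd _ _ he
                · exact hv (hl he ▸ hv')
              simp only [EE, e1, e2]
          refine ⟨A ∪ S', ?_, ?_⟩
          · have := Finset.card_union_le A S'
            nlinarith
          · intro z' hz'
            have k1 := key z' (fun u hu => hz' u (Finset.mem_union_left _ hu))
            have k2 := key z (fun u _ => rfl)
            beta_reduce
            rw [k1, k2]
            exact h6 z' (fun v hv => hz' v (Finset.mem_union_right _ hv))
        · rw [pr_eq_zero]
          · have := dl_nonneg r q c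
            positivity
          · rintro η ⟨hη, -⟩
            apply hFw
            simp only [hFew] at hη ⊢
            have : (H.filter (fun u => ((ov J η ω (kap u)).1 : ℕ) = 0))
                = H.filter (fun u => ((ω (kap u)).1 : ℕ) = 0) := by
              refine Finset.filter_congr (fun u hu => ?_)
              rw [ov_out (by simp only [hJ, not_not]; exact Or.inl ⟨_, hu, rfl⟩)]
            rwa [this] at hη
      have h3 : pr (fun ω : I → Fin L × Bool =>
          ¬ Cert (fun z => f (EE par kap lam G ω z)) (r * (c + 1)))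
          ≤ pr (fun ω : I → Fin L × Bool => ¬ Few ω) + pr (fun ω : I → Fin L × Bool => Few ω ∧
          ¬ Cert (fun z => f (EE par kap lam G ω z)) (r * (c + 1))) := by
        refine (pr_mono (fun ω hω => ?_)).trans (pr_or_le _ _)
        by_cases hFw : Few ω
        · exact Or.inr ⟨hFw, hω⟩
        · exact Or.inl hFw
      simp only [dl]
      have h6 : (1 / 4 : ℝ) ^ (c + 1) ≤ 1 := pow_le_one₀ (by norm_num) (by norm_num)
      have h7 : 0 ≤ (1 - (1 / 4 : ℝ) ^ (c + 1)) ^ q := pow_nonneg (by linarith) _
      linarith

open Filter Topology in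
lemma dl_tendsto (r D c : ℕ) (hD : D ≤ r) :
    Tendsto (fun q : ℕ => (q : ℝ) ^ D * dl r q c) atTop (𝓝 0) := by
  induction c with
  | zero => simp [dl]
  | succ c ih =>
    simp only [dl, mul_add]
    have h1 : Tendsto (fun q : ℕ => (q : ℝ) ^ D * (1 - (1 / 4 : ℝ) ^ (c + 1)) ^ q) atTop (𝓝 0) := by
      apply tendsto_pow_const_mul_const_pow_of_lt_one
      · have : (1 / 4 : ℝ) ^ (c + 1) ≤ 1 := pow_le_one₀ (by norm_num) (by norm_num)
        linarith
      · have : (0 : ℝ) < (1 / 4 : ℝ) ^ (c + 1) := by positivity
        linarith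
    have h2 : Tendsto (fun q : ℕ => (q : ℝ) ^ D * (((c + 1 : ℕ) : ℝ) / q) ^ (r + 1))
        atTop (𝓝 0) := by
      have h3 : Tendsto (fun q : ℕ => (((c + 1 : ℕ) : ℝ)) ^ (r + 1) * ((q : ℝ))⁻¹)
          atTop (𝓝 0) := by
        have := (tendsto_inv_atTop_nhds_zero_nat (𝕜 := ℝ)).const_mul ((((c + 1 : ℕ) : ℝ)) ^ (r + 1))
        simpa using this
      refine squeeze_zero' (Filter.Eventually.of_forall (fun q => by positivity)) ?_ h3
      filter_upwards [Filter.eventually_ge_atTop 1] with q hq
      have hq1 : (1 : ℝ) ≤ q := by exact_mod_cast hq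
      have hq0 : (0 : ℝ) < q := by linarith
      rw [div_pow]
      have h4 : (q : ℝ) ^ D * (((c + 1 : ℕ) : ℝ) ^ (r + 1) / (q : ℝ) ^ (r + 1))
          = (((c + 1 : ℕ) : ℝ)) ^ (r + 1) * ((q : ℝ) ^ D / (q : ℝ) ^ (r + 1)) := by ring
      rw [h4]
      apply mul_le_mul_of_nonneg_left _ (by positivity)
      rw [div_le_iff₀ (by positivity), pow_succ, ← mul_assoc, mul_comm ((q : ℝ))⁻¹, mul_assoc,
        inv_mul_cancel₀ hq0.ne', mul_one]
      exact pow_le_pow_right₀ hq1 hD
    have h3 : Tendsto (fun q : ℕ => (q : ℝ) ^ D * (2 ^ r * dl r q c)) atTop (𝓝 0) := by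
      have := ih.const_mul ((2 : ℝ) ^ r)
      simp only [mul_zero] at this
      refine this.congr (fun q => by ring)
    have := (h1.add h2).add h3
    simpa using this

end SLmain

end Run7.h835
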