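import Pool.Agent.Run7.h835.Tree

/-!
# Making a tree true by a single flip
-/

set_option linter.unusedSectionVars false
set_option linter.unusedSimpArgs false

namespace Run7.h835

open Finset

variable {a N q : ℕ}

lemma root_bound (hq : 0 < q) (hb : N + 2 ≤ bb q) {n : ℕ} (hn : n ≤ N) :
    (n + 2) * bb q ^ n ≤ BB N q := by
  unfold BB
  calc (n + 2) * bb q ^ n ≤ bb q * bb q ^ n := Nat.mul_le_mul_right _ (by omega)
    _ = bb q ^ (n + 1) := by rw [pow_succ]; ring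
    _ ≤ bb q ^ (N + 2) := Nat.pow_le_pow_right (bb_pos hq) (by omega)

lemma root_lt (hq : 0 < q) (hb : N + 2 ≤ bb q) {n : ℕ} (hn : n ≤ N) : n + 1 < BB N q := by
  have h1 := root_bound hq hb hn
  have h2 : 1 ≤ bb q ^ n := Nat.one_le_pow _ _ (bb_pos hq)
  nlinarith

/-- The root of height `n` in row `e`. -/
def rt (hq : 0 < q) (hb : N + 2 ≤ bb q) {n : ℕ} (hn : n ≤ N) (e : ℕ) (he : e < a) : Nd a N q :=
  (⟨e, he⟩, ⟨n + 1, root_lt hq hb hn⟩)

lemma rt_vld (hq : 0 < q) (hb : N + 2 ≤ bb q) {n : ℕ} (hn : n ≤ N) (e : ℕ) (he : e < a) :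
    vld n (rt hq hb hn e he) := by
  refine ⟨?_, ?_⟩
  · simp [rt]
  · simpa [rt] using root_bound hq hb hn

theorem phi_false {ω : Smp a N q} (hq : 0 < q) (hb : N + 2 ≤ bb q) (hG : Gd ω) {n : ℕ}
    (hn1 : 1 ≤ n) (hn : n ≤ N) {e : ℕ} (he : e < a) (X : Finset (ℕ × ℕ))
    (hX : ∀ x ∈ X, x.1 ≠ e) : ¬ vl (bb q) (flp (Wst ω) X) n e (n + 1) := by
  have hc : vl (bb q) (flp (Wst ω) X) n e (n + 1) ↔ vl (bb q) (Wst ω) n e (n + 1) := by
    apply vl_congr _ (bb_pos hq)
    intro y' _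
    have : (e, y') ∉ X := fun h => hX _ h rfl
    simp [flp, this]
  rw [hc]
  have h1 := sem hq hb hG n hn (zs ω n) (reg_zs ω hn) (rt hq hb hn e he) (rt_vld hq hb hn e he)
  rw [DD_zs ω hn] at h1
  have h2 : zs ω n (rt hq hb hn e he) = false := by
    have hr : root n (rt hq hb hn e he) := ⟨hn1, rfl⟩
    rw [reg_zs ω hn _ (fun h => h.2.1 hr)]
    simp [hr]
  rw [h2] at h1
  simp only [rt, Bool.false_eq_true, iff_false] at h1
  exact h1

theorem phi_true {ω : Smp a N q} (hq : 0 < q) (hb : N + 2 ≤ bb q) (hG : Gd ω) {j : ℕ}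
    (hj : j + 1 ≤ N) {e : ℕ} (he : e < a) (S X : Finset (ℕ × ℕ))
    (hcard : S.card + X.card < q) :
    ∃ c ∈ Lf ω j, c.1 = e ∧ c ∉ S ∧ c ∉ X ∧
      vl (bb q) (flp (Wst ω) (insert c X)) (j + 1) e (j + 2) := by
  classical
  set v : Nd a N q := rt hq hb hj e he with hv
  have hvv : vld (j + 1) v := rt_vld hq hb hj e he
  have hgr : ∀ l, ∃ c : Nd a N q, l < q → par c = v ∧ (c.2.1 % bb q) / q ^ 3 = l ∧ alv ω j c := by
    intro l
    by_cases hl : l < q
    · obtain ⟨c, h1, h2, h3, _⟩ := hG j (by omega) v hvv l hl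
      exact ⟨c, fun _ => ⟨h1, h2, h3⟩⟩
    · exact ⟨v, fun h => absurd h hl⟩
  choose d hd using hgr
  have hpig : ∃ l < q, ∀ x ∈ S ∪ X, ¬ (x.1 = e ∧ x.2 / bb q ^ j = (d l).2.1) := by
    by_contra hcon
    push Not at hcon
    have : ∀ l, ∃ x : ℕ × ℕ, l < q → x ∈ S ∪ X ∧ x.1 = e ∧ x.2 / bb q ^ j = (d l).2.1 := by
      intro l
      by_cases hl : l < q
      · obtain ⟨x, h1, h2, h3⟩ := hcon l hl
        exact ⟨x, fun _ => ⟨h1, h2, h3⟩⟩
      · exact ⟨(0, 0), fun h => absurd h hl⟩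
    choose x hx using this
    have h1 : (Finset.range q).card ≤ (S ∪ X).card := by
      refine Finset.card_le_card_of_injOn x ?_ ?_
      · intro l hl
        exact (hx l (Finset.mem_range.1 hl)).1
      · intro l hl l' hl' hll
        have hl1 := Finset.mem_range.1 hl
        have hl2 := Finset.mem_range.1 hl'
        have h3 := (hx l hl1).2.2
        have h4 := (hx l' hl2).2.2
        have h5 : (d l).2.1 = (d l').2.1 := by rw [← h3, ← h4, hll]
        have h6 := (hd l hl1).2.1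
        have h7 := (hd l' hl2).2.1
        rw [← h6, ← h7, h5]
    rw [Finset.card_range] at h1
    have := Finset.card_union_le S X
    omega
  obtain ⟨l, hl, hlx⟩ := hpig
  obtain ⟨hp, _, ha⟩ := hd l hl
  obtain ⟨hl1, hl2, _⟩ := leaf_spec hq hG (by omega : j ≤ N) (d l) ha
  have hd1 : (d l).1.1 = e := by
    have : (par (d l)).1 = v.1 := by rw [hp]
    have h2 : (d l).1 = v.1 := this
    rw [h2]; rfl
  have hd2 : (j + 2) * bb q + (d l).2.1 % bb q = (d l).2.1 := by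
    have h1 := par_snd (d l)
    rw [hp] at h1
    exact h1
  set c : ℕ × ℕ := emb (leaf ω j (d l)) with hc
  have hc1 : c.1 = e := by
    simp only [hc, emb]; rw [hl1]; exact hd1
  have hc2 : c.2 / bb q ^ j = (d l).2.1 := hl2
  have hcSX : c ∉ S ∪ X := fun h => hlx c h ⟨hc1, hc2⟩
  rw [Finset.mem_union, not_or] at hcSX
  refine ⟨c, (mem_Lf (by omega)).2 ⟨d l, ha, rfl⟩, hc1, hcSX.1, hcSX.2, ?_⟩
  simp only [vl]
  refine ⟨(d l).2.1 % bb q, Nat.mod_lt _ (bb_pos hq), ?_⟩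
  rw [hd2]
  have hcong : vl (bb q) (flp (Wst ω) (insert c X)) j e (d l).2.1 ↔
      vl (bb q) (flp (Wst ω) {c}) j e (d l).2.1 := by
    apply vl_congr _ (bb_pos hq)
    intro y' hy'
    have : (e, y') ∉ X := fun h => hlx (e, y') (Finset.mem_union_right _ h) ⟨rfl, hy'⟩
    simp [flp, this]
  rw [hcong]
  have hW := Wst_fl hq hG (by omega : j ≤ N) {d l} (by simpa using ha)
  rw [Finset.image_singleton] at hW
  rw [← hc] at hW
  rw [← hW]
  have hreg : Reg ω j (fl (zs ω j) {d l}) := by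
    intro c' hc'
    have : c' ≠ d l := fun h => hc' (h ▸ ha)
    simp only [fl, Finset.mem_singleton, this, decide_false, Bool.xor_false]
    exact reg_zs ω (by omega) c' hc'
  have h1 := sem hq hb hG j (by omega) _ hreg (d l) ha.1
  rw [hd1] at h1
  rw [h1]
  have h2 : zs ω j (d l) = true := by
    rw [zs_succ ω (by omega)]
    have hr : root (j + 1) (par (d l)) := by rw [hp]; exact ⟨by omega, rfl⟩
    simp only [E, ha, hr, not_true_eq_false, if_false, if_true]
  simp [fl, h2]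

end Run7.h835
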