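import Pool.Agent.Run7.h835.Defs
import Pool.Agent.Run7.h835.Tree2

/-!
# Syntax: free variables, growth, rank; the world predicate
-/

set_option linter.unusedSectionVars false
set_option linter.unusedSimpArgs false

namespace Run7.h835

open Finset

/-- Size of a term. -/
def Tm.sz : Tm → ℕ
  | Tm.var _ => 1
  | Tm.zero => 1
  | Tm.one => 1
  | Tm.add s t => s.sz + t.sz
  | Tm.mul s t => s.sz + t.sz

/-- Bound for the variables of a term. -/
def Tm.nv : Tm → ℕ
  | Tm.var k => k + 1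
  | Tm.zero => 0
  | Tm.one => 0
  | Tm.add s t => max s.nv t.nv
  | Tm.mul s t => max s.nv t.nv

/-- Bound for the free variables of a formula. -/
def Fml.nv : Fml → ℕ
  | Fml.eq s t => max s.nv t.nv
  | Fml.lt s t => max s.nv t.nv
  | Fml.rel t => t.nv
  | Fml.neg φ => φ.nv
  | Fml.and φ ψ => max φ.nv ψ.nv
  | Fml.bex t φ => max t.nv (φ.nv - 1)

/-- Quantifier depth. -/
def Fml.rk : Fml → ℕ
  | Fml.eq _ _ => 0
  | Fml.lt _ _ => 0
  | Fml.rel _ => 0
  | Fml.neg φ => φ.rk
  | Fml.and φ ψ => max φ.rk ψ.rk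
  | Fml.bex _ φ => φ.rk + 1

/-- Growth. -/
def Fml.gr : Fml → ℕ
  | Fml.eq _ _ => 1
  | Fml.lt _ _ => 1
  | Fml.rel t => t.sz
  | Fml.neg φ => φ.gr
  | Fml.and φ ψ => max φ.gr ψ.gr
  | Fml.bex t φ => t.sz * φ.gr

lemma Tm.one_le_sz (t : Tm) : 1 ≤ t.sz := by
  induction t with
  | var _ => simp [Tm.sz]
  | zero => simp [Tm.sz]
  | one => simp [Tm.sz]
  | add s t h1 h2 => simp only [Tm.sz]; omega
  | mul s t h1 h2 => simp only [Tm.sz]; omega

section congr

variable {M : Type*} [Zero M] [One M] [Add M] [Mul M] [LT M]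

lemma Tm.val_congr (t : Tm) {v v' : ℕ → M} (h : ∀ k < t.nv, v k = v' k) : t.val v = t.val v' := by
  induction t with
  | var k => exact h k (Nat.lt_succ_self k)
  | zero => rfl
  | one => rfl
  | add s t h1 h2 =>
    simp only [Tm.val]
    rw [h1 (fun k hk => h k (lt_of_lt_of_le hk (le_max_left _ _))),
      h2 (fun k hk => h k (lt_of_lt_of_le hk (le_max_right _ _)))]
  | mul s t h1 h2 =>
    simp only [Tm.val]
    rw [h1 (fun k hk => h k (lt_of_lt_of_le hk (le_max_left _ _))),
      h2 (fun k hk => h k (lt_of_lt_of_le hk (le_max_right _ _)))]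

lemma cons_congr {n : ℕ} {v v' : ℕ → M} (x : M) (h : ∀ k < n - 1, v k = v' k) :
    ∀ k < n, cons x v k = cons x v' k := by
  intro k hk
  cases k with
  | zero => rfl
  | succ k => exact h k (by omega)

lemma Fml.sat_congr (P : M → Prop) (φ : Fml) {v v' : ℕ → M} (h : ∀ k < φ.nv, v k = v' k) :
    φ.Sat P v ↔ φ.Sat P v' := by
  induction φ generalizing v v' with
  | eq s t =>
    simp only [Fml.Sat]
    rw [s.val_congr (fun k hk => h k (lt_of_lt_of_le hk (le_max_left _ _))),
      t.val_congr (fun k hk => h k (lt_of_lt_of_le hk (le_max_right _ _)))]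
  | lt s t =>
    simp only [Fml.Sat]
    rw [s.val_congr (fun k hk => h k (lt_of_lt_of_le hk (le_max_left _ _))),
      t.val_congr (fun k hk => h k (lt_of_lt_of_le hk (le_max_right _ _)))]
  | rel t =>
    simp only [Fml.Sat]
    rw [t.val_congr h]
  | neg φ ih => exact not_congr (ih h)
  | and φ ψ h1 h2 =>
    exact and_congr (h1 (fun k hk => h k (lt_of_lt_of_le hk (le_max_left _ _))))
      (h2 (fun k hk => h k (lt_of_lt_of_le hk (le_max_right _ _))))
  | bex t φ ih =>
    simp only [Fml.Sat]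
    rw [t.val_congr (fun k hk => h k (lt_of_lt_of_le hk (le_max_left _ _)))]
    refine exists_congr (fun x => and_congr_right (fun _ => ih ?_))
    exact cons_congr x (fun k hk => h k (lt_of_lt_of_le hk (le_max_right _ _)))

end congr

lemma Tm.val_le {b A : ℕ} (hb : 2 ≤ b) (hA : 1 ≤ A) (t : Tm) {v : ℕ → ℕ}
    (h : ∀ k < t.nv, v k ≤ b ^ A) : t.val v ≤ b ^ (t.sz * A) := by
  induction t with
  | var k => simpa [Tm.sz, Tm.val] using h k (Nat.lt_succ_self k)
  | zero => simp [Tm.val]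
  | one => simp only [Tm.val]; exact Nat.one_le_pow _ _ (by omega)
  | add s t h1 h2 =>
    have e1 := h1 (fun k hk => h k (lt_of_lt_of_le hk (le_max_left _ _)))
    have e2 := h2 (fun k hk => h k (lt_of_lt_of_le hk (le_max_right _ _)))
    simp only [Tm.val, Tm.sz, add_mul, pow_add]
    have f1 : 2 ≤ b ^ (s.sz * A) :=
      hb.trans (Nat.le_self_pow (by have := s.one_le_sz; positivity) b)
    have f2 : 2 ≤ b ^ (t.sz * A) :=
      hb.trans (Nat.le_self_pow (by have := t.one_le_sz; positivity) b)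
    nlinarith
  | mul s t h1 h2 =>
    have e1 := h1 (fun k hk => h k (lt_of_lt_of_le hk (le_max_left _ _)))
    have e2 := h2 (fun k hk => h k (lt_of_lt_of_le hk (le_max_right _ _)))
    simp only [Tm.val, Tm.sz, add_mul, pow_add]
    exact Nat.mul_le_mul e1 e2

/-- Polynomial pairing. -/
def pair {M : Type*} [Add M] [Mul M] (x y : M) : M := (x + y) * (x + y) + x

/-- Polynomial coding of quadruples. -/
def quad {M : Type*} [Add M] [Mul M] (w e m y : M) : M := pair w (pair e (pair m y))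

/-- The term for pairing. -/
def Tm.pair (s t : Tm) : Tm := Tm.add (Tm.mul (Tm.add s t) (Tm.add s t)) s

/-- The term for quadruples. -/
def Tm.quad (w e m y : Tm) : Tm := Tm.pair w (Tm.pair e (Tm.pair m y))

@[simp] lemma Tm.val_quad {M : Type*} [Zero M] [One M] [Add M] [Mul M] (v : ℕ → M)
    (w e m y : Tm) : (Tm.quad w e m y).val v = Run7.h835.quad (w.val v) (e.val v) (m.val v) (y.val v) :=
  rfl

lemma pair_inj {x y x' y' : ℕ} (h : pair x y = pair x' y') : x = x' ∧ y = y' := by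
  unfold pair at h
  have h1 : x + y = x' + y' := by
    rcases Nat.lt_trichotomy (x + y) (x' + y') with h2 | h2 | h2
    · nlinarith
    · exact h2
    · nlinarith
  rw [h1] at h
  omega

lemma quad_inj {w e m y w' e' m' y' : ℕ} (h : quad w e m y = quad w' e' m' y') :
    w = w' ∧ e = e' ∧ m = m' ∧ y = y' := by
  obtain ⟨h1, h2⟩ := pair_inj h
  obtain ⟨h3, h4⟩ := pair_inj h2
  obtain ⟨h5, h6⟩ := pair_inj h4
  exact ⟨h1, h3, h5, h6⟩

lemma le_quad (w e m y : ℕ) : w ≤ quad w e m y := by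
  unfold quad pair
  exact Nat.le_add_left _ _

/-- The relation coded by the world. -/
def Rl (b : ℕ) (W : ℕ × ℕ → Bool) (w e m y : ℕ) : Prop :=
  (w = 0 ∧ W (e, y) = true) ∨ (w = b ^ (e + 1) ∧ (m = 0 ∨ ∃ m', m = m' + 1 ∧ vl b W m' e y))

/-- The predicate coded by the world. -/
def wld (b : ℕ) (W : ℕ × ℕ → Bool) (n : ℕ) : Prop := ∃ w e m y, n = quad w e m y ∧ Rl b W w e m y

lemma wld_quad (b : ℕ) (W : ℕ × ℕ → Bool) (w e m y : ℕ) :
    wld b W (quad w e m y) ↔ Rl b W w e m y := by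
  constructor
  · rintro ⟨w', e', m', y', h, hr⟩
    obtain ⟨rfl, rfl, rfl, rfl⟩ := quad_inj h
    exact hr
  · intro h
    exact ⟨w, e, m, y, rfl, h⟩

lemma Rl_congr {b : ℕ} (hb : 0 < b) {W W' : ℕ × ℕ → Bool} {w e m y : ℕ}
    (h : ∀ y', W (e, y') = W' (e, y')) : Rl b W w e m y ↔ Rl b W' w e m y := by
  unfold Rl
  rw [h y]
  refine or_congr_right (and_congr_right (fun _ => or_congr_right (exists_congr (fun m' =>
    and_congr_right (fun _ => ?_)))))
  exact vl_congr b hb W W' m' e y (fun y' _ => h y')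

end Run7.h835
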