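import Pool.Agent.Run7.h835.Switch

/-!
# Trees, restrictions and their semantics
-/

set_option linter.unusedSectionVars false
set_option linter.unusedSimpArgs false

namespace Run7.h835

open Finset

/-- Alternating evaluation of height `m` at node `y` in row `e`. -/
def vl (b : ℕ) (W : ℕ × ℕ → Bool) : ℕ → ℕ → ℕ → Prop
  | 0, e, y => W (e, y) = true
  | m + 1, e, y => ∃ x, x < b ∧ ¬ vl b W m e (y * b + x)

lemma vl_congr (b : ℕ) (hb : 0 < b) (W W' : ℕ × ℕ → Bool) (m e y : ℕ)
    (h : ∀ y', y' / b ^ m = y → W (e, y') = W' (e, y')) : vl b W m e y ↔ vl b W' m e y := by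
  induction m generalizing y with
  | zero =>
    simp only [vl]
    rw [h y (by simp)]
  | succ m ih =>
    simp only [vl]
    refine exists_congr (fun x => and_congr_right (fun hx => not_congr (ih _ (fun y' hy' => ?_))))
    apply h
    rw [pow_succ, ← Nat.div_div_eq_div_mul, hy']
    rw [mul_comm, Nat.mul_add_div hb, Nat.div_eq_of_lt hx, add_zero]

/-- Flip the entries in `Q`. -/
def flp (W : ℕ × ℕ → Bool) (Q : Finset (ℕ × ℕ)) : ℕ × ℕ → Bool := fun p => xor (W p) (decide (p ∈ Q))

lemma flp_empty (W : ℕ × ℕ → Bool) : flp W ∅ = W := by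
  funext p; simp [flp]

lemma flp_flp (W : ℕ × ℕ → Bool) (Q X : Finset (ℕ × ℕ)) (h : Disjoint X Q) :
    flp (flp W Q) X = flp W (Q ∪ X) := by
  funext p
  simp only [flp, Finset.mem_union]
  have := Finset.disjoint_left.1 h
  by_cases h1 : p ∈ Q <;> by_cases h2 : p ∈ X
  · exact absurd h1 (this h2)
  · simp [h1, h2]
  · simp [h1, h2]
  · simp [h1, h2]

/-- The base. -/
def bb (q : ℕ) : ℕ := q ^ 4

/-- The width of the box. -/
def BB (N q : ℕ) : ℕ := bb q ^ (N + 2)

/-- Nodes. -/
abbrev Nd (a N q : ℕ) : Type := Fin a × Fin (BB N q)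

/-- Sample points. -/
abbrev Smp (a N q : ℕ) : Type := (Fin (N + 1) × Nd a N q × Bool) → Fin (q ^ 2) × Bool

variable {a N q : ℕ}

/-- The parent of a node. -/
def par (v : Nd a N q) : Nd a N q :=
  (v.1, ⟨v.2.1 / bb q, lt_of_le_of_lt (Nat.div_le_self _ _) v.2.2⟩)

/-- Nodes all of whose descendants lie in the box. -/
def vld (j : ℕ) (v : Nd a N q) : Prop := 1 ≤ v.2.1 ∧ (v.2.1 + 1) * bb q ^ j ≤ BB N q

/-- The root of height `j`. -/
def root (j : ℕ) (v : Nd a N q) : Prop := 1 ≤ j ∧ v.2.1 = j + 1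

instance (j : ℕ) (v : Nd a N q) : Decidable (vld j v) := by unfold vld; infer_instance
instance (j : ℕ) (v : Nd a N q) : Decidable (root j v) := by unfold root; infer_instance

/-- Slice index. -/
def idx (N j : ℕ) : Fin (N + 1) := ⟨j % (N + 1), Nat.mod_lt _ (Nat.succ_pos _)⟩

/-- Flag of a node in slice `j`. -/
def flg (ω : Smp a N q) (j : ℕ) (v : Nd a N q) : Prop := ((ω (idx N j, v, true)).1 : ℕ) = 0

instance (ω : Smp a N q) (j : ℕ) (v : Nd a N q) : Decidable (flg ω j v) := by
  unfold flg; infer_instance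

/-- Bit of a node in slice `j`. -/
def bt (ω : Smp a N q) (j : ℕ) (v : Nd a N q) : Bool := (ω (idx N j, v, false)).2

/-- Nodes alive at height `j`. -/
def alv (ω : Smp a N q) (j : ℕ) (v : Nd a N q) : Prop :=
  vld j v ∧ ¬ root j v ∧ (j = 0 ∨ flg ω (j - 1) v)

instance (ω : Smp a N q) (j : ℕ) (v : Nd a N q) : Decidable (alv ω j v) := by
  unfold alv; infer_instance

open scoped Classical in
/-- A chosen node with a property. -/
noncomputable def pick (P : Nd a N q → Prop) (p : Nd a N q) : Nd a N q :=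
  if h : ∃ c, P c then h.choose else p

/-- The chosen alive child. -/
noncomputable def star (ω : Smp a N q) (j : ℕ) (p : Nd a N q) : Nd a N q :=
  pick (fun c => par c = p ∧ alv ω j c) p

/-- From values at height `j + 1` to values at height `j`. -/
noncomputable def E (ω : Smp a N q) (j : ℕ) (z : Nd a N q → Bool) (c : Nd a N q) : Bool :=
  if ¬ alv ω j c then decide (¬ root j c)
  else if root (j + 1) (par c) then true
  else if flg ω j (par c) then
    (if vld (j + 1) (par c) ∧ c = star ω j (par c) then !(z (par c)) else true)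
  else bt ω j c

/-- From values at height `j` to values at height `0`. -/
noncomputable def DD (ω : Smp a N q) : ℕ → (Nd a N q → Bool) → (Nd a N q → Bool)
  | 0, z => z
  | j + 1, z => DD ω j (E ω j z)

/-- The base values, auxiliary. -/
noncomputable def zsAux (ω : Smp a N q) : ℕ → (Nd a N q → Bool)
  | 0 => fun c => decide (¬ root N c)
  | k + 1 => E ω (N - (k + 1)) (zsAux ω k)

/-- The base values at height `j`. -/
noncomputable def zs (ω : Smp a N q) (j : ℕ) : Nd a N q → Bool := zsAux ω (N - j)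

lemma zs_top (ω : Smp a N q) : zs ω N = fun c => decide (¬ root N c) := by
  unfold zs; rw [Nat.sub_self]; rfl

lemma zs_succ (ω : Smp a N q) {j : ℕ} (hj : j < N) : zs ω j = E ω j (zs ω (j + 1)) := by
  unfold zs
  have h1 : N - j = (N - (j + 1)) + 1 := by omega
  rw [h1]
  simp only [zsAux]
  have h2 : N - (N - (j + 1) + 1) = j := by omega
  rw [h2]

lemma DD_zs (ω : Smp a N q) {j : ℕ} (hj : j ≤ N) : DD ω j (zs ω j) = zs ω 0 := by
  induction j with
  | zero => rfl
  | succ j ih =>
    simp only [DD]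
    rw [← zs_succ ω (by omega)]
    exact ih (by omega)

/-- A value assignment is regular at height `j`. -/
def Reg (ω : Smp a N q) (j : ℕ) (z : Nd a N q → Bool) : Prop :=
  ∀ c, ¬ alv ω j c → z c = decide (¬ root j c)

lemma reg_E (ω : Smp a N q) (j : ℕ) (z : Nd a N q → Bool) : Reg ω j (E ω j z) := by
  intro c hc
  simp only [E, if_pos hc]

lemma reg_zs (ω : Smp a N q) {j : ℕ} (hj : j ≤ N) : Reg ω j (zs ω j) := by
  rcases Nat.lt_or_ge j N with h | h
  · rw [zs_succ ω h]; exact reg_E ω j _
  · have : j = N := le_antisymm hj h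
    subst this
    rw [zs_top]
    intro c _; rfl

/-- The good event. -/
def Gd (ω : Smp a N q) : Prop :=
  ∀ j < N, ∀ p : Nd a N q, vld (j + 1) p → ∀ l < q,
    ∃ c, par c = p ∧ (c.2.1 % bb q) / q ^ 3 = l ∧ alv ω j c ∧ bt ω j c = false

/-- Extend to a world. -/
def ext (z : Nd a N q → Bool) : ℕ × ℕ → Bool := fun p =>
  if h : p.1 < a ∧ p.2 < BB N q then z (⟨p.1, h.1⟩, ⟨p.2, h.2⟩) else false

/-- Nodes as pairs of numbers. -/
def emb (v : Nd a N q) : ℕ × ℕ := (v.1.1, v.2.1)

lemma emb_injective : Function.Injective (emb : Nd a N q → ℕ × ℕ) := by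
  intro v w h
  simp only [emb, Prod.mk.injEq] at h
  exact Prod.ext (Fin.ext h.1) (Fin.ext h.2)

lemma ext_emb (z : Nd a N q → Bool) (v : Nd a N q) : ext z (v.1.1, v.2.1) = z v := by
  unfold ext
  simp only [v.1.2, v.2.2, and_self, dite_true]

lemma star_spec {ω : Smp a N q} {j : ℕ} {p : Nd a N q} (h : ∃ c, par c = p ∧ alv ω j c) :
    par (star ω j p) = p ∧ alv ω j (star ω j p) := by
  unfold star pick
  rw [dif_pos h]
  exact h.choose_spec

lemma Gd.star {ω : Smp a N q} (hG : Gd ω) (hq : 0 < q) {j : ℕ} (hj : j < N) {p : Nd a N q}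
    (hp : vld (j + 1) p) : par (star ω j p) = p ∧ alv ω j (Run7.h835.star ω j p) := by
  obtain ⟨c, h1, _, h3, _⟩ := hG j hj p hp 0 hq
  exact star_spec ⟨c, h1, h3⟩

lemma bb_pos (hq : 0 < q) : 0 < bb q := by unfold bb; positivity

/-- The `x`-th child. -/
def chd (hq : 0 < q) {j : ℕ} (v : Nd a N q) (hv : vld (j + 1) v) (x : ℕ) (hx : x < bb q) :
    Nd a N q :=
  (v.1, ⟨v.2.1 * bb q + x, by
    have h1 := hv.2
    have h2 : (v.2.1 + 1) * bb q ≤ (v.2.1 + 1) * bb q ^ (j + 1) := by
      apply Nat.mul_le_mul_left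
      calc bb q = bb q ^ 1 := (pow_one _).symm
        _ ≤ bb q ^ (j + 1) := Nat.pow_le_pow_right (bb_pos hq) (by omega)
    nlinarith⟩)

lemma chd_vld (hq : 0 < q) {j : ℕ} (v : Nd a N q) (hv : vld (j + 1) v) (x : ℕ) (hx : x < bb q) :
    vld j (chd hq v hv x hx) := by
  have hb := bb_pos hq
  constructor
  · simp only [chd]
    have := hv.1
    nlinarith
  · simp only [chd]
    refine le_trans ?_ hv.2
    rw [pow_succ, mul_comm (bb q ^ j) (bb q), ← mul_assoc]
    apply Nat.mul_le_mul_right
    nlinarith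

lemma chd_par (hq : 0 < q) {j : ℕ} (v : Nd a N q) (hv : vld (j + 1) v) (x : ℕ) (hx : x < bb q) :
    par (chd hq v hv x hx) = v := by
  have hb := bb_pos hq
  simp only [par, chd]
  refine Prod.ext rfl (Fin.ext ?_)
  simp only
  rw [mul_comm, Nat.mul_add_div hb, Nat.div_eq_of_lt hx, add_zero]

lemma par_snd (c : Nd a N q) : (par c).2.1 * bb q + c.2.1 % bb q = c.2.1 := by
  simp only [par]
  rw [mul_comm]
  exact Nat.div_add_mod _ _

lemma child_vld (hq : 0 < q) {j : ℕ} {c : Nd a N q} (hc : vld (j + 1) (par c)) : vld j c := by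
  have hb := bb_pos hq
  have h1 := par_snd c
  have h3 := Nat.mod_lt c.2.1 hb
  constructor
  · have h4 : bb q ≤ (par c).2.1 * bb q := Nat.le_mul_of_pos_left _ hc.1
    omega
  · refine le_trans ?_ hc.2
    rw [pow_succ, mul_comm (bb q ^ j) (bb q), ← mul_assoc]
    apply Nat.mul_le_mul_right
    nlinarith

lemma child_not_root (hb : N + 2 ≤ bb q) {j : ℕ} (hj : j < N) {c : Nd a N q}
    (hc : vld (j + 1) (par c)) : ¬ root j c := by
  rintro ⟨_, h⟩
  have h1 := par_snd c
  have h4 : bb q ≤ (par c).2.1 * bb q := Nat.le_mul_of_pos_left _ hc.1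
  omega

theorem sem {ω : Smp a N q} (hq : 0 < q) (hb : N + 2 ≤ bb q) (hG : Gd ω) :
    ∀ j ≤ N, ∀ z : Nd a N q → Bool, Reg ω j z → ∀ v, vld j v →
      (vl (bb q) (ext (DD ω j z)) j v.1.1 v.2.1 ↔ z v = true) := by
  intro j
  induction j with
  | zero =>
    intro _ z _ v _
    simp only [vl, DD, ext_emb]
  | succ j ih =>
    intro hj z hz v hv
    have hjN : j < N := by omega
    have key : vl (bb q) (ext (DD ω (j + 1) z)) (j + 1) v.1.1 v.2.1 ↔
        ∃ c, par c = v ∧ E ω j z c = false := by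
      simp only [vl, DD]
      constructor
      · rintro ⟨x, hx, hn⟩
        refine ⟨chd hq v hv x hx, chd_par hq v hv x hx, ?_⟩
        have := ih (by omega) (E ω j z) (reg_E ω j z) (chd hq v hv x hx) (chd_vld hq v hv x hx)
        simp only [chd] at this
        rw [this] at hn
        simpa [chd] using hn
      · rintro ⟨c, rfl, hc⟩
        refine ⟨c.2.1 % bb q, Nat.mod_lt _ (bb_pos hq), ?_⟩
        rw [par_snd c]
        have := ih (by omega) (E ω j z) (reg_E ω j z) c (child_vld hq hv)
        have h2 : ((par c).1.1 : ℕ) = c.1.1 := rfl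
        rw [h2, this]
        simp [hc]
    rw [key]
    by_cases hr : root (j + 1) v
    · have h1 : z v = false := by
        rw [hz v (fun h => h.2.1 hr)]; simp [hr]
      rw [h1]
      simp only [Bool.false_eq_true, iff_false]
      rintro ⟨c, rfl, hc⟩
      simp only [E, hr, if_true] at hc
      have hnr := child_not_root hb hjN hv
      split_ifs at hc
      simp [hnr] at hc
    · by_cases hf : flg ω j v
      · constructor
        · rintro ⟨c, rfl, hc⟩
          have hnr := child_not_root hb hjN hv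
          simp only [E, hr, hf, hv, if_false, if_true, true_and] at hc
          split_ifs at hc with h1 h2
          · simpa using hc
          · simp [hnr] at hc
        · intro hzv
          obtain ⟨h1, h2⟩ := hG.star hq hjN hv
          refine ⟨star ω j v, h1, ?_⟩
          simp only [E, h1, h2, hr, hf, hv, not_true_eq_false, if_false, if_true, true_and, hzv,
            Bool.not_true]
      · have h1 : z v = true := by
          rw [hz v ?_]
          · simp [hr]
          · rintro ⟨_, _, h⟩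
            rcases h with h | h
            · omega
            · exact hf (by simpa using h)
        rw [h1]
        simp only [iff_true]
        obtain ⟨c, h2, _, h3, h4⟩ := hG j hjN v hv 0 hq
        refine ⟨c, h2, ?_⟩
        simp only [E, h2, h3, hr, hf, not_true_eq_false, if_false, h4]

/-- Flip the values at the nodes of `X`. -/
def fl (z : Nd a N q → Bool) (X : Finset (Nd a N q)) : Nd a N q → Bool :=
  fun c => xor (z c) (decide (c ∈ X))

lemma E_fl {ω : Smp a N q} (hq : 0 < q) (hG : Gd ω) {j : ℕ} (hj : j < N) (z : Nd a N q → Bool)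
    (X : Finset (Nd a N q)) (hX : ∀ p ∈ X, alv ω (j + 1) p) :
    E ω j (fl z X) = fl (E ω j z) (X.image (star ω j)) := by
  funext c
  have hmem : c ∈ X.image (star ω j) ↔ par c ∈ X ∧ c = star ω j (par c) := by
    rw [Finset.mem_image]
    constructor
    · rintro ⟨p, hp, rfl⟩
      have := (hG.star hq hj (hX p hp).1).1
      rw [this]
      exact ⟨hp, rfl⟩
    · rintro ⟨h1, h2⟩
      exact ⟨par c, h1, h2.symm⟩
  have hin : c ∈ X.image (star ω j) → alv ω j c ∧ ¬ root (j + 1) (par c) ∧ flg ω j (par c) ∧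
      vld (j + 1) (par c) := by
    intro h
    obtain ⟨h1, h2⟩ := hmem.1 h
    have h3 := hX _ h1
    refine ⟨?_, h3.2.1, ?_, h3.1⟩
    · rw [h2]; exact (hG.star hq hj h3.1).2
    · rcases h3.2.2 with h | h
      · omega
      · simpa using h
  simp only [E, fl]
  by_cases h1 : alv ω j c
  · simp only [h1, not_true_eq_false, if_false]
    by_cases h2 : root (j + 1) (par c)
    · simp only [h2, if_true]
      have : c ∉ X.image (star ω j) := fun h => (hin h).2.1 h2
      simp [this]
    · simp only [h2, if_false]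
      by_cases h3 : flg ω j (par c)
      · simp only [h3, if_true]
        by_cases h4 : vld (j + 1) (par c) ∧ c = star ω j (par c)
        · simp only [if_pos h4]
          have : c ∈ X.image (star ω j) ↔ par c ∈ X := by
            rw [hmem]; exact ⟨fun h => h.1, fun h => ⟨h, h4.2⟩⟩
          simp only [this]
          cases z (par c) <;> simp
        · simp only [if_neg h4]
          have : c ∉ X.image (star ω j) := fun h => h4 ⟨(hin h).2.2.2, (hmem.1 h).2⟩
          simp [this]
      · simp only [h3, if_false]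
        have : c ∉ X.image (star ω j) := fun h => h3 (hin h).2.2.1
        simp [this]
  · simp only [h1, not_false_eq_true, if_true]
    have : c ∉ X.image (star ω j) := fun h => h1 (hin h).1
    simp [this]

/-- The leaf below a node along the chosen children. -/
noncomputable def leaf (ω : Smp a N q) : ℕ → Nd a N q → Nd a N q
  | 0, c => c
  | j + 1, c => leaf ω j (star ω j c)

lemma DD_fl {ω : Smp a N q} (hq : 0 < q) (hG : Gd ω) {j : ℕ} (hj : j ≤ N) (z : Nd a N q → Bool)
    (X : Finset (Nd a N q)) (hX : ∀ p ∈ X, alv ω j p) :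
    DD ω j (fl z X) = fl (DD ω j z) (X.image (leaf ω j)) := by
  induction j generalizing z X with
  | zero =>
    simp only [DD]
    have : X.image (leaf ω 0) = X := by
      ext c; simp [leaf]
    rw [this]
  | succ j ih =>
    simp only [DD]
    rw [E_fl hq hG (by omega) z X hX, ih (by omega)]
    · rw [Finset.image_image]
      rfl
    · intro p hp
      obtain ⟨p', hp', rfl⟩ := Finset.mem_image.1 hp
      exact (hG.star hq (by omega) (hX p' hp').1).2

lemma leaf_spec {ω : Smp a N q} (hq : 0 < q) (hG : Gd ω) {j : ℕ} (hj : j ≤ N) (c : Nd a N q)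
    (hc : alv ω j c) : (leaf ω j c).1 = c.1 ∧ (leaf ω j c).2.1 / bb q ^ j = c.2.1 ∧
      alv ω 0 (leaf ω j c) := by
  induction j generalizing c with
  | zero => simp only [leaf, pow_zero, Nat.div_one]; exact ⟨trivial, trivial, hc⟩
  | succ j ih =>
    simp only [leaf]
    obtain ⟨h1, h2⟩ := hG.star hq (by omega) hc.1
    obtain ⟨h3, h4, h5⟩ := ih (by omega) _ h2
    refine ⟨?_, ?_, h5⟩
    · rw [h3]; conv_rhs => rw [← h1]
      rfl
    · rw [pow_succ, ← Nat.div_div_eq_div_mul, h4]
      conv_rhs => rw [← h1]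
      rfl

/-- Leaves that can be reached from height `h`. -/
noncomputable def Lf (ω : Smp a N q) (h : ℕ) : Finset (ℕ × ℕ) :=
  if h ≤ N then (univ.filter (fun c => alv ω h c)).image (fun c => emb (leaf ω h c)) else ∅

lemma mem_Lf {ω : Smp a N q} {h : ℕ} (hN : h ≤ N) {p : ℕ × ℕ} :
    p ∈ Lf ω h ↔ ∃ c, alv ω h c ∧ emb (leaf ω h c) = p := by
  unfold Lf
  rw [if_pos hN, Finset.mem_image]
  simp

lemma Lf_succ {ω : Smp a N q} (hq : 0 < q) (hG : Gd ω) (h : ℕ) : Lf ω (h + 1) ⊆ Lf ω h := by
  intro p hp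
  by_cases hN : h + 1 ≤ N
  · rw [mem_Lf hN] at hp
    obtain ⟨c, hc, rfl⟩ := hp
    rw [mem_Lf (by omega)]
    exact ⟨star ω h c, (hG.star hq (by omega) hc.1).2, rfl⟩
  · unfold Lf at hp
    rw [if_neg hN] at hp
    simp at hp

lemma ext_fl (z : Nd a N q → Bool) (X : Finset (Nd a N q)) :
    ext (fl z X) = flp (ext z) (X.image emb) := by
  funext p
  simp only [ext, flp, fl]
  by_cases h : p.1 < a ∧ p.2 < BB N q
  · rw [dif_pos h, dif_pos h]
    have : p ∈ X.image emb ↔ ((⟨p.1, h.1⟩, ⟨p.2, h.2⟩) : Nd a N q) ∈ X := by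
      rw [Finset.mem_image]
      constructor
      · rintro ⟨c, hc, rfl⟩; exact hc
      · intro h'; exact ⟨_, h', rfl⟩
    simp only [this]
  · rw [dif_neg h, dif_neg h]
    have : p ∉ X.image emb := by
      rw [Finset.mem_image]
      rintro ⟨c, _, rfl⟩
      exact h ⟨c.1.2, c.2.2⟩
    simp [this]

/-- The base world. -/
noncomputable def Wst (ω : Smp a N q) : ℕ × ℕ → Bool := ext (zs ω 0)

/-- Flipping alive nodes at height `j` in the base world. -/
lemma Wst_fl {ω : Smp a N q} (hq : 0 < q) (hG : Gd ω) {j : ℕ} (hj : j ≤ N)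
    (X : Finset (Nd a N q)) (hX : ∀ p ∈ X, alv ω j p) :
    ext (DD ω j (fl (zs ω j) X)) = flp (Wst ω) (X.image (fun c => emb (leaf ω j c))) := by
  rw [DD_fl hq hG hj _ _ hX, ext_fl, DD_zs ω hj, Finset.image_image]
  rfl

/-- A set of leaves reachable from height `j` comes from height `j`. -/
lemma lift_leaves {ω : Smp a N q} {j : ℕ} (hj : j ≤ N) (X : Finset (ℕ × ℕ)) (hX : X ⊆ Lf ω j) :
    ∃ X' : Finset (Nd a N q), (∀ p ∈ X', alv ω j p ∧ emb (leaf ω j p) ∈ X) ∧
      X'.image (fun c => emb (leaf ω j c)) = X := by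
  classical
  refine ⟨univ.filter (fun c => alv ω j c ∧ emb (leaf ω j c) ∈ X), ?_, ?_⟩
  · intro p hp
    exact (Finset.mem_filter.1 hp).2
  · ext p
    rw [Finset.mem_image]
    constructor
    · rintro ⟨c, hc, rfl⟩
      exact (Finset.mem_filter.1 hc).2.2
    · intro hp
      obtain ⟨c, hc, rfl⟩ := (mem_Lf hj).1 (hX hp)
      exact ⟨c, Finset.mem_filter.2 ⟨Finset.mem_univ _, hc, hp⟩, rfl⟩

end Run7.h835
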